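import Mathlib

set_option autoImplicit false
open LaurentPolynomial

namespace Pool.Agent.H546R3.CD

/-- The Laurent polynomial ring in which everything happens. -/
abbrev K := LaurentPolynomial ℚ

theorem coeff_T_mul (n : ℤ) (f : K) (j : ℤ) : (T n * f).coeff j = f.coeff (j - n) := by
  have := AddMonoidAlgebra.coeff_single_mul_apply (f) (1 : ℚ) n j
  rw [show (T n : K) = AddMonoidAlgebra.single n 1 from rfl]
  rw [this, one_mul]
  congr 1
  ring

theorem coeff_C_mul (a : ℚ) (f : K) (j : ℤ) : (C a * f).coeff j = a * f.coeff j := by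
  rw [← LaurentPolynomial.smul_eq_C_mul]
  rfl

theorem coeff_mul (f m : K) (j : ℤ) :
    (f * m).coeff j = ∑ i ∈ f.coeff.support, f.coeff i * m.coeff (j - i) := by
  have h : f = ∑ i ∈ f.coeff.support, (AddMonoidAlgebra.single i (f.coeff i) : K) := by
    apply LaurentPolynomial.ext
    intro a
    rw [AddMonoidAlgebra.coeff_sum, Finsupp.finsetSum_apply]
    simp only [AddMonoidAlgebra.coeff_single, Finsupp.single_apply]
    rw [Finset.sum_ite_eq' f.coeff.support a]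
    split_ifs with h
    · rfl
    · simpa using h
  conv_lhs => rw [h]
  rw [Finset.sum_mul, AddMonoidAlgebra.coeff_sum, Finsupp.finsetSum_apply]
  apply Finset.sum_congr rfl
  intro i _
  rw [AddMonoidAlgebra.coeff_single_mul_apply]
  congr 2
  ring

/-- The weights: `2^j` for `j ≥ 0` and `3^(j^2)` for `j ≤ 0`. -/
def wt (j : ℤ) : ℤ := 2 ^ j.toNat * 3 ^ ((-j).toNat ^ 2)

theorem wt_zero : wt 0 = 1 := by simp [wt]

theorem wt_neg (n : ℕ) : wt (-(n : ℤ)) = 3 ^ (n ^ 2) := by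
  simp [wt]

theorem wt_pos (n : ℕ) : wt (n : ℤ) = 2 ^ n := by
  simp [wt]

/-- `wt j` divides `2 * wt (j - 1)`. -/
theorem wt_dvd_two (j : ℤ) : wt j ∣ 2 * wt (j - 1) := by
  rcases le_or_gt j 0 with h | h
  · obtain ⟨n, rfl⟩ : ∃ n : ℕ, j = -(n : ℤ) := ⟨j.natAbs, by omega⟩
    have : (-(n : ℤ) - 1) = -((n + 1 : ℕ) : ℤ) := by push_cast; ring
    rw [this, wt_neg, wt_neg]
    apply Dvd.dvd.mul_left
    apply pow_dvd_pow
    nlinarith
  · obtain ⟨n, rfl⟩ : ∃ n : ℕ, j = ((n + 1 : ℕ) : ℤ) := ⟨(j - 1).toNat, by omega⟩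
    have : (((n + 1 : ℕ) : ℤ) - 1) = (n : ℤ) := by push_cast; ring
    rw [this, wt_pos, wt_pos, pow_succ, mul_comm]

/-- `wt j` divides `3 ^ k * wt (j + 1)` for `k` large. -/
theorem wt_dvd_three (j : ℤ) (k : ℕ) (hk : 2 * j.natAbs + 1 ≤ k) :
    wt j ∣ 3 ^ k * wt (j + 1) := by
  rcases le_or_gt 0 j with h | h
  · obtain ⟨n, rfl⟩ : ∃ n : ℕ, j = (n : ℤ) := ⟨j.toNat, by omega⟩
    have : ((n : ℤ) + 1) = ((n + 1 : ℕ) : ℤ) := by push_cast; ring
    rw [this, wt_pos, wt_pos]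
    apply Dvd.dvd.mul_left
    exact pow_dvd_pow _ (by omega)
  · obtain ⟨n, rfl⟩ : ∃ n : ℕ, j = -((n + 1 : ℕ) : ℤ) := ⟨(-j - 1).toNat, by omega⟩
    have : (-((n + 1 : ℕ) : ℤ) + 1) = -(n : ℤ) := by push_cast; ring
    rw [this, wt_neg, wt_neg, ← pow_add]
    apply pow_dvd_pow
    have h1 : (-((n + 1 : ℕ) : ℤ)).natAbs = n + 1 := by omega
    rw [h1] at hk
    nlinarith

/-- The module `M`, as an additive group. -/
def M0 : AddSubgroup K where
  carrier := {f | ∀ j : ℤ, ∃ z : ℤ, f.coeff j = ((wt j * z : ℤ) : ℚ)}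
  zero_mem' := fun j => ⟨0, by simp⟩
  add_mem' := by
    intro a b ha hb j
    obtain ⟨x, hx⟩ := ha j
    obtain ⟨y, hy⟩ := hb j
    refine ⟨x + y, ?_⟩
    rw [AddMonoidAlgebra.coeff_add, Finsupp.add_apply, hx, hy]
    push_cast; ring
  neg_mem' := by
    intro a ha j
    obtain ⟨x, hx⟩ := ha j
    refine ⟨-x, ?_⟩
    rw [AddMonoidAlgebra.coeff_neg, Finsupp.neg_apply, hx]
    push_cast; ring

theorem mem_M0 {f : K} : f ∈ M0 ↔ ∀ j : ℤ, ∃ z : ℤ, f.coeff j = ((wt j * z : ℤ) : ℚ) := Iff.rfl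

theorem one_mem_M0 : (1 : K) ∈ M0 := by
  intro j
  have h : (1 : K) = T 0 := T_zero.symm
  rw [h, T_apply]
  by_cases hj : (0 : ℤ) = j
  · subst hj
    exact ⟨1, by simp [wt_zero]⟩
  · exact ⟨0, by simp [hj]⟩

/-- The multiplier ring of `M`. -/
def S : Subring K where
  carrier := {f | ∀ m ∈ M0, f * m ∈ M0}
  mul_mem' := by
    intro a b ha hb m hm
    rw [mul_assoc]
    exact ha _ (hb _ hm)
  one_mem' := by
    intro m hm
    rwa [one_mul]
  add_mem' := by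
    intro a b ha hb m hm
    rw [add_mul]
    exact M0.add_mem (ha _ hm) (hb _ hm)
  zero_mem' := by
    intro m hm
    rw [zero_mul]
    exact M0.zero_mem
  neg_mem' := by
    intro a ha m hm
    rw [neg_mul]
    exact M0.neg_mem (ha _ hm)

theorem mem_S {f : K} : f ∈ S ↔ ∀ m ∈ M0, f * m ∈ M0 := Iff.rfl

theorem two_T_mem_S : (C 2 * T 1 : K) ∈ S := by
  intro m hm j
  obtain ⟨z, hz⟩ := hm (j - 1)
  obtain ⟨w, hw⟩ := wt_dvd_two j
  rw [mul_assoc, coeff_C_mul, coeff_T_mul, hz]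
  refine ⟨w * z, ?_⟩
  have : (2 : ℚ) * ((wt (j - 1) * z : ℤ) : ℚ) = ((2 * wt (j - 1) * z : ℤ) : ℚ) := by
    push_cast; ring
  rw [this, hw]
  push_cast; ring

theorem C_int_mem_S (z : ℤ) : (C (z : ℚ) : K) ∈ S := by
  have : (C (z : ℚ) : K) = (z : K) := by simp
  rw [this]
  exact intCast_mem S z

theorem wt_dvd_wt_sub (j : ℤ) : (wt j : ℤ) ∣ 2 * wt (j - 1) := wt_dvd_two j

/-- Elements of `S` have coefficients outside degree `0` that are even integers. -/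
theorem coeff_of_mem_S {e : K} (he : e ∈ S) (j : ℤ) (hj : j ≠ 0) :
    ∃ z : ℤ, e.coeff j = ((2 * z : ℤ) : ℚ) := by
  have heM : e ∈ M0 := by
    have := he 1 one_mem_M0
    rwa [mul_one] at this
  rcases lt_or_gt_of_ne hj with h | h
  · -- the coefficient is zero
    obtain ⟨b, rfl⟩ : ∃ b : ℕ, j = -((b + 1 : ℕ) : ℤ) := ⟨(-j - 1).toNat, by omega⟩
    obtain ⟨t, ht⟩ := heM (-((b + 1 : ℕ) : ℤ))
    rw [wt_neg] at ht
    set u : ℤ := 3 ^ ((b + 1) ^ 2) * t with hu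
    have key : ∀ n : ℕ, (3 : ℤ) ^ n ∣ u := by
      intro n
      have hm : (C ((3 : ℚ) ^ (n ^ 2)) * T (-(n : ℤ)) : K) ∈ M0 := by
        intro i
        rw [coeff_C_mul, T_apply]
        by_cases hi : (-(n : ℤ)) = i
        · subst hi
          refine ⟨1, ?_⟩
          rw [wt_neg]
          simp
        · exact ⟨0, by simp [hi]⟩
      have h2 := he _ hm (-((b + 1 : ℕ) : ℤ) - n)
      obtain ⟨z, hz⟩ := h2
      have h3 : (e * (C ((3 : ℚ) ^ (n ^ 2)) * T (-(n : ℤ)) : K)) =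
          C ((3 : ℚ) ^ (n ^ 2)) * (T (-(n : ℤ)) * e) := by ring
      rw [h3, coeff_C_mul, coeff_T_mul] at hz
      have h4 : (-((b + 1 : ℕ) : ℤ) - (n : ℤ) - -(n : ℤ)) = -((b + 1 : ℕ) : ℤ) := by ring
      rw [h4, ht] at hz
      have h5 : (-((b + 1 : ℕ) : ℤ) - (n : ℤ)) = -((b + 1 + n : ℕ) : ℤ) := by push_cast; ring
      rw [h5, wt_neg] at hz
      have hz' : (3 : ℤ) ^ (n ^ 2) * u = 3 ^ ((b + 1 + n) ^ 2) * z := by
        exact_mod_cast hz
      have h6 : (b + 1 + n) ^ 2 = n ^ 2 + ((b + 1) ^ 2 + 2 * (b + 1) * n) := by ring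
      rw [h6, pow_add, mul_assoc] at hz'
      have h7 : u = 3 ^ ((b + 1) ^ 2 + 2 * (b + 1) * n) * z :=
        mul_left_cancel₀ (pow_ne_zero _ (by norm_num)) hz'
      rw [h7]
      apply Dvd.dvd.mul_right
      apply pow_dvd_pow
      nlinarith
    have hu0 : u = 0 := by
      by_contra hne
      have h8 := key u.natAbs
      have h9 : (3 : ℤ) ^ u.natAbs ∣ (u.natAbs : ℤ) := by
        rw [Int.natCast_natAbs]
        exact (dvd_abs _ _).mpr h8
      have h10 : (3 ^ u.natAbs : ℕ) ∣ u.natAbs := by exact_mod_cast h9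
      have h11 := Nat.le_of_dvd (Int.natAbs_pos.mpr hne) h10
      have h12 : u.natAbs < 3 ^ u.natAbs := Nat.lt_pow_self (by norm_num)
      omega
    refine ⟨0, ?_⟩
    rw [ht, hu0]
    simp
  · obtain ⟨b, rfl⟩ : ∃ b : ℕ, j = ((b + 1 : ℕ) : ℤ) := ⟨(j - 1).toNat, by omega⟩
    obtain ⟨t, ht⟩ := heM ((b + 1 : ℕ) : ℤ)
    rw [wt_pos] at ht
    refine ⟨2 ^ b * t, ?_⟩
    rw [ht]
    push_cast
    ring

/-- Every Laurent polynomial has a nonzero multiple by an element of `S` lying in `S`. -/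
theorem exists_mul_mem_S (x : K) : ∃ s ∈ S, s ≠ 0 ∧ s * x ∈ S := by
  have hmul : ∀ x y : K, (∃ s ∈ S, s ≠ 0 ∧ s * x ∈ S) → (∃ s ∈ S, s ≠ 0 ∧ s * y ∈ S) →
      ∃ s ∈ S, s ≠ 0 ∧ s * (x * y) ∈ S := by
    rintro x y ⟨s, hs, hs0, hsx⟩ ⟨t, ht, ht0, hty⟩
    refine ⟨s * t, S.mul_mem hs ht, mul_ne_zero hs0 ht0, ?_⟩
    have : s * t * (x * y) = (s * x) * (t * y) := by ring
    rw [this]
    exact S.mul_mem hsx hty
  have h2 : (C 2 : K) ∈ S := by
    have := C_int_mem_S 2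
    simpa using this
  have hC2 : (C 2 : K) ≠ 0 := by
    intro h
    have := congrArg (fun f : K => f.coeff 0) h
    simp at this
  have hT1 : (T 1 : K) ≠ 0 := (isUnit_T 1).ne_zero
  have hT : ∃ s ∈ S, s ≠ 0 ∧ s * (T 1 : K) ∈ S := ⟨C 2, h2, hC2, two_T_mem_S⟩
  have hTn : ∃ s ∈ S, s ≠ 0 ∧ s * (T (-1) : K) ∈ S := by
    refine ⟨C 2 * T 1, two_T_mem_S, mul_ne_zero hC2 hT1, ?_⟩
    rw [mul_assoc, ← T_add]
    simpa using h2
  have hC : ∀ a : ℚ, ∃ s ∈ S, s ≠ 0 ∧ s * (C a : K) ∈ S := by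
    intro a
    refine ⟨C ((a.den : ℤ) : ℚ), C_int_mem_S _, ?_, ?_⟩
    · intro h
      have := congrArg (fun f : K => f.coeff 0) h
      simp at this
    · rw [← C.map_mul]
      have : (((a.den : ℤ) : ℚ) * a) = ((a.num : ℤ) : ℚ) := by
        push_cast
        rw [mul_comm]
        exact Rat.mul_den_eq_num a
      rw [this]
      exact C_int_mem_S _
  induction x using LaurentPolynomial.induction_on with
  | h_C a => exact hC a
  | h_add hp hq =>
    obtain ⟨s, hs, hs0, hsx⟩ := hp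
    obtain ⟨t, ht, ht0, hty⟩ := hq
    refine ⟨s * t, S.mul_mem hs ht, mul_ne_zero hs0 ht0, ?_⟩
    rename_i p q
    have : s * t * (p + q) = t * (s * p) + s * (t * q) := by ring
    rw [this]
    exact S.add_mem (S.mul_mem ht hsx) (S.mul_mem hs hty)
  | h_C_mul_T n a h =>
    have := hmul _ _ h hT
    rwa [mul_assoc, ← T_add] at this
  | h_C_mul_T_Z n a h =>
    have := hmul _ _ h hTn
    rwa [mul_assoc, ← T_add, ← sub_eq_add_neg] at this

end Pool.Agent.H546R3.CD
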