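import Mathlib

set_option autoImplicit false
open CategoryTheory CategoryTheory.Limits

namespace Pool.Agent.H546R3

universe w

/-- A cocone over a filtered diagram of modules which is jointly surjective and whose legs only
kill what dies at a later stage is a colimit cocone. -/
theorem isColimit_of_surj_inj {R : Type} [Ring R] {J : Type} [SmallCategory J] [IsFiltered J]
    (F : J ⥤ ModuleCat.{0} R) (c : Cocone F)
    (hsurj : ∀ x : c.pt, ∃ (j : J) (y : F.obj j), (c.ι.app j).hom y = x)
    (hinj : ∀ (j : J) (y : F.obj j), (c.ι.app j).hom y = 0 →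
      ∃ (k : J) (f : j ⟶ k), (F.map f).hom y = 0) : Nonempty (IsColimit c) := by
  have h1 : IsColimit ((forget (ModuleCat.{0} R)).mapCocone c) := by
    refine Types.FilteredColimit.isColimitOf' _ _ ?_ ?_
    · intro x
      obtain ⟨j, y, hy⟩ := hsurj x
      exact ⟨j, y, hy.symm⟩
    · intro i x y hxy
      have hxy' : (c.ι.app i).hom x = (c.ι.app i).hom y := hxy
      have h0 : (c.ι.app i).hom ((x : F.obj i) - y) = 0 := by
        rw [map_sub, hxy', sub_self]
      obtain ⟨k, f, hf⟩ := hinj i _ h0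
      refine ⟨k, f, ?_⟩
      rw [map_sub, sub_eq_zero] at hf
      exact hf
  exact ⟨isColimitOfReflects (forget (ModuleCat.{0} R)) h1⟩

theorem surj_of_isColimit {R : Type} [Ring R] {J : Type} [SmallCategory J] [IsFiltered J]
    {F : J ⥤ ModuleCat.{0} R} {c : Cocone F} (hc : IsColimit c) (x : c.pt) :
    ∃ (j : J) (y : F.obj j), (c.ι.app j).hom y = x := by
  obtain ⟨j, y, hy⟩ := Concrete.isColimit_exists_rep F hc x
  exact ⟨j, y, hy⟩

theorem eq_of_isColimit {R : Type} [Ring R] {J : Type} [SmallCategory J] [IsFiltered J]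
    {F : J ⥤ ModuleCat.{0} R} {c : Cocone F} (hc : IsColimit c) {i j : J} (x : F.obj i)
    (y : F.obj j) (h : (c.ι.app i).hom x = (c.ι.app j).hom y) :
    ∃ (k : J) (f : i ⟶ k) (g : j ⟶ k), (F.map f).hom x = (F.map g).hom y := by
  obtain ⟨k, f, g, hk⟩ := Concrete.isColimit_exists_of_rep_eq F hc x y h
  exact ⟨k, f, g, hk⟩

theorem zero_of_isColimit {R : Type} [Ring R] {J : Type} [SmallCategory J] [IsFiltered J]
    {F : J ⥤ ModuleCat.{0} R} {c : Cocone F} (hc : IsColimit c) {i : J} (x : F.obj i)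
    (h : (c.ι.app i).hom x = 0) :
    ∃ (k : J) (f : i ⟶ k), (F.map f).hom x = 0 := by
  obtain ⟨k, f, g, hk⟩ := eq_of_isColimit hc x (0 : F.obj i) (by rw [h, map_zero])
  exact ⟨k, f, by rw [hk, map_zero]⟩

theorem map_app {R : Type} [Ring R] {J : Type} [SmallCategory J]
    {F : J ⥤ ModuleCat.{0} R} (c : Cocone F) {i j : J} (f : i ⟶ j) (x : F.obj i) :
    (c.ι.app j).hom ((F.map f).hom x) = (c.ι.app i).hom x := by
  have h := c.w f
  have h2 := congrArg (fun g => (ModuleCat.Hom.hom g) x) h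
  simpa using h2

end Pool.Agent.H546R3
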