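import Pool.Agent.H546R3.CDmod
import Pool.Agent.H546R3.Colim

set_option autoImplicit false
open CategoryTheory CategoryTheory.Limits LaurentPolynomial

namespace Pool.Agent.H546R3.CD

/-- The class: copies of `M` and zero modules. -/
def Cls : Set (ModuleCat.{0} S) := {X | Nonempty (X ≃ₗ[S] M) ∨ Subsingleton X}

/-- The class of direct limits of modules from `Cls`. -/
def IsL (X : ModuleCat.{0} S) : Prop :=
  ∃ (ι : Type) (_ : Preorder ι) (_ : IsDirected ι (· ≤ ·)) (_ : Nonempty ι)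
    (F : ι ⥤ ModuleCat.{0} S) (c : Cocone F),
    Nonempty (IsColimit c) ∧ Nonempty (c.pt ≅ X) ∧ ∀ i, F.obj i ∈ Cls

/-- Torsion-free of rank at most one. -/
def TF (X : Type) [AddCommGroup X] [Module S X] : Prop :=
  (∀ (s : S) (x : X), s • x = 0 → s = 0 ∨ x = 0) ∧
    ∀ x y : X, ∃ s t : S, (s ≠ 0 ∨ t ≠ 0) ∧ s • x = t • y

theorem TF_of_equiv {X Y : Type} [AddCommGroup X] [Module S X] [AddCommGroup Y] [Module S Y]
    (e : X ≃ₗ[S] Y) (h : TF X) : TF Y := by
  constructor
  · intro s y hs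
    have := h.1 s (e.symm y) (by rw [← map_smul, hs, map_zero])
    rcases this with h1 | h1
    · exact Or.inl h1
    · right
      simpa using h1
  · intro x y
    obtain ⟨s, t, hst, h1⟩ := h.2 (e.symm x) (e.symm y)
    refine ⟨s, t, hst, ?_⟩
    apply e.symm.injective
    rw [map_smul, map_smul, h1]

theorem TF_M : TF M := by
  constructor
  · intro s x hs
    have h1 : (s : K) * x.1 = 0 := congrArg Subtype.val hs
    rcases mul_eq_zero.mp h1 with h2 | h2
    · exact Or.inl (Subtype.ext h2)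
    · exact Or.inr (Subtype.ext h2)
  · intro x y
    by_cases hy : y = 0
    · refine ⟨0, 1, Or.inr one_ne_zero, ?_⟩
      rw [hy]; simp
    · obtain ⟨s, hs, hs0, hsx⟩ := exists_mul_mem_S x.1
      obtain ⟨t, ht, ht0, hty⟩ := exists_mul_mem_S y.1
      refine ⟨⟨s * (t * y.1), S.mul_mem hs hty⟩, ⟨t * (s * x.1), S.mul_mem ht hsx⟩, ?_, ?_⟩
      · left
        intro h
        have h1 : s * (t * y.1) = 0 := congrArg Subtype.val h
        have h2 : y.1 ≠ 0 := fun h => hy (Subtype.ext h)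
        exact (mul_ne_zero hs0 (mul_ne_zero ht0 h2)) h1
      · apply Subtype.ext
        change (s * (t * y.1)) * x.1 = (t * (s * x.1)) * y.1
        ring

theorem TF_of_subsingleton (X : Type) [AddCommGroup X] [Module S X] [Subsingleton X] : TF X :=
  ⟨fun _ x _ => Or.inr (Subsingleton.elim x 0),
    fun _ _ => ⟨1, 1, Or.inl one_ne_zero, Subsingleton.elim _ _⟩⟩

theorem TF_of_Cls {X : ModuleCat.{0} S} (h : X ∈ Cls) : TF X := by
  rcases h with ⟨⟨e⟩⟩ | h
  · exact TF_of_equiv e.symm TF_M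
  · haveI : Subsingleton X := h
    exact TF_of_subsingleton X

theorem TF_of_isL {X : ModuleCat.{0} S} (h : IsL X) : TF X := by
  obtain ⟨ι, _, _, _, F, c, ⟨hc⟩, ⟨e⟩, hF⟩ := h
  haveI : IsFiltered ι := isFiltered_of_directed_le_nonempty ι
  apply TF_of_equiv e.toLinearEquiv
  constructor
  · intro s x hs
    obtain ⟨i, y, rfl⟩ := surj_of_isColimit hc x
    rw [← map_smul] at hs
    obtain ⟨k, f, hk⟩ := zero_of_isColimit hc _ hs
    rw [map_smul] at hk
    rcases (TF_of_Cls (hF k)).1 s _ hk with h1 | h1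
    · exact Or.inl h1
    · right
      rw [← map_app c f, h1, map_zero]
  · intro x y
    obtain ⟨i, x', rfl⟩ := surj_of_isColimit hc x
    obtain ⟨j, y', rfl⟩ := surj_of_isColimit hc y
    let k := IsFiltered.max i j
    let f : i ⟶ k := IsFiltered.leftToMax i j
    let g : j ⟶ k := IsFiltered.rightToMax i j
    obtain ⟨s, t, hst, h1⟩ := (TF_of_Cls (hF k)).2 ((F.map f).hom x') ((F.map g).hom y')
    refine ⟨s, t, hst, ?_⟩
    rw [← map_app c f, ← map_app c g, ← (c.ι.app k).hom.map_smul, h1,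
      (c.ι.app k).hom.map_smul]

/-- Membership in `IsL` only depends on the isomorphism class. -/
theorem IsL_of_iso {X Y : ModuleCat.{0} S} (e : X ≅ Y) (h : IsL X) : IsL Y := by
  obtain ⟨ι, i1, i2, i3, F, c, hc, ⟨e'⟩, hF⟩ := h
  exact ⟨ι, i1, i2, i3, F, c, hc, ⟨e' ≪≫ e⟩, hF⟩

theorem IsL_of_Cls {X : ModuleCat.{0} S} (h : X ∈ Cls) : IsL X := by
  let F : Unit ⥤ ModuleCat.{0} S := (Functor.const Unit).obj X
  let c : Cocone F := { pt := X, ι := { app := fun _ => 𝟙 X, naturality := by intros; rfl } }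
  haveI : IsFiltered Unit := isFiltered_of_directed_le_nonempty Unit
  refine ⟨Unit, inferInstance, inferInstance, inferInstance, F, c, ?_, ⟨Iso.refl _⟩, fun _ => h⟩
  apply isColimit_of_surj_inj
  · intro x
    exact ⟨(), x, rfl⟩
  · intro j y hy
    exact ⟨j, 𝟙 j, hy⟩

/-- The class is closed under direct summands. -/
theorem summand_closed (X Y : ModuleCat.{0} S) (s : Y ⟶ X) (r : X ⟶ Y) (hsr : s ≫ r = 𝟙 Y)
    (h : IsL X) : IsL Y := by
  have hsr' : ∀ y : Y, r.hom (s.hom y) = y := by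
    intro y
    have := congrArg (fun f => (ModuleCat.Hom.hom f) y) hsr
    simpa using this
  have hTF := TF_of_isL h
  by_cases hr : Function.Injective r.hom
  · have hbij : Function.Bijective r.hom := ⟨hr, fun y => ⟨s.hom y, hsr' y⟩⟩
    exact IsL_of_iso (LinearEquiv.ofBijective r.hom hbij).toModuleIso h
  · -- then `Y` is zero
    have : ∃ x : X, r.hom x = 0 ∧ x ≠ 0 := by
      by_contra hcon
      push Not at hcon
      apply hr
      intro a b hab
      have : r.hom (a - b) = 0 := by rw [map_sub, hab, sub_self]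
      exact sub_eq_zero.mp (hcon _ this)
    obtain ⟨x, hx, hx0⟩ := this
    have hsub : Subsingleton Y := by
      constructor
      have hz : ∀ y : Y, y = 0 := by
        intro y
        obtain ⟨a, b, hab, heq⟩ := hTF.2 x (s.hom y)
        have h1 : b • y = 0 := by
          have h2 := congrArg r.hom heq
          rw [map_smul, map_smul, hx, smul_zero, hsr'] at h2
          exact h2.symm
        have h3 : b • s.hom y = 0 := by rw [← map_smul, h1, map_zero]
        rcases hTF.1 b _ h3 with h4 | h4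
        · rw [h4, zero_smul] at heq
          rcases hTF.1 a _ heq with h5 | h5
          · rcases hab with h6 | h6
            · exact absurd h5 h6
            · exact absurd h4 h6
          · exact absurd h5 hx0
        · rw [← hsr' y, h4, map_zero]
      intro a b
      rw [hz a, hz b]
    exact IsL_of_Cls (Or.inr hsub)

/-- The functor of a monotone sequence of submodules. -/
noncomputable def chain (A : ℕ → Submodule S K) (hA : Monotone A) : ℕ ⥤ ModuleCat.{0} S where
  obj n := ModuleCat.of S (A n)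
  map f := ModuleCat.ofHom (Submodule.inclusion (hA (leOfHom f)))
  map_id := by intro X; rfl
  map_comp := by intros; rfl

/-- The union cocone. -/
noncomputable def chainCocone (A : ℕ → Submodule S K) (hA : Monotone A) (B : Submodule S K)
    (hB : ∀ n, A n ≤ B) : Cocone (chain A hA) where
  pt := ModuleCat.of S B
  ι := { app := fun n => ModuleCat.ofHom (Submodule.inclusion (hB n))
         naturality := by intros; rfl }

theorem chain_isColimit (A : ℕ → Submodule S K) (hA : Monotone A) (B : Submodule S K)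
    (hB : ∀ n, A n ≤ B) (hmem : ∀ f ∈ B, ∃ n, f ∈ A n) :
    Nonempty (IsColimit (chainCocone A hA B hB)) := by
  apply isColimit_of_surj_inj
  · intro x
    obtain ⟨n, hn⟩ := hmem x.1 x.2
    exact ⟨n, ⟨x.1, hn⟩, rfl⟩
  · intro n y hy
    refine ⟨n, 𝟙 n, ?_⟩
    have h1 : y.1 = 0 := congrArg Subtype.val hy
    exact Subtype.ext h1

theorem IsL_V (n : ℕ) : IsL (ModuleCat.of S (V n)) := by
  refine ⟨ℕ, inferInstance, inferInstance, inferInstance,
    chain (fun k => U k n) (fun k l h => U_mono_left h),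
    chainCocone _ _ (V n) (fun k f hf => ⟨k, hf⟩),
    chain_isColimit _ _ _ _ (fun f hf => hf), ⟨Iso.refl _⟩, ?_⟩
  intro k
  exact Or.inl ⟨UequivM k n⟩

theorem linear_eq_mul (φ : M →ₗ[S] K) (m : M) : φ m = φ ⟨1, one_mem_M0⟩ * m.1 := by
  obtain ⟨s, hs, hs0, hsm⟩ := exists_mul_mem_S m.1
  have h1 : s * φ m = (s * m.1) * φ ⟨1, one_mem_M0⟩ := by
    have h2 : (⟨s, hs⟩ : S) • m = (⟨s * m.1, hsm⟩ : S) • (⟨1, one_mem_M0⟩ : M) := by
      apply Subtype.ext
      change s * m.1 = (s * m.1) * 1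
      rw [mul_one]
    have h3 := congrArg φ h2
    rw [map_smul, map_smul] at h3
    exact h3
  have h4 : s * φ m = s * (φ ⟨1, one_mem_M0⟩ * m.1) := by
    rw [h1]; ring
  exact mul_left_cancel₀ hs0 h4

theorem exists_bound (f : K) : ∃ d : ℕ, ∀ j : ℤ, (d : ℤ) < j → f.coeff j = 0 := by
  refine ⟨∑ i ∈ f.coeff.support, i.natAbs, ?_⟩
  intro j hj
  by_contra h
  have h1 : j ∈ f.coeff.support := Finsupp.mem_support_iff.mpr h
  have h2 := Finset.single_le_sum (f := fun i : ℤ => i.natAbs)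
    (s := f.coeff.support) (fun i _ => Nat.zero_le _) h1
  omega

theorem not_IsL_W : ¬ IsL (ModuleCat.of S W) := by
  rintro ⟨ι, _, _, _, F, c, ⟨hc⟩, ⟨e⟩, hF⟩
  haveI : IsFiltered ι := isFiltered_of_directed_le_nonempty ι
  -- the maps to `K`
  let φ : ∀ i, F.obj i →ₗ[S] K := fun i =>
    (W.subtype.comp (e.toLinearEquiv.toLinearMap)).comp (c.ι.app i).hom
  have hφW : ∀ i x, φ i x ∈ W := fun i x => (e.toLinearEquiv ((c.ι.app i).hom x)).2
  have hφmap : ∀ {i j : ι} (f : i ⟶ j) (x : F.obj i), φ j ((F.map f).hom x) = φ i x := by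
    intro i j f x
    change (e.toLinearEquiv ((c.ι.app j).hom ((F.map f).hom x))).1 =
      (e.toLinearEquiv ((c.ι.app i).hom x)).1
    rw [map_app]
  have hφsurj : ∀ w ∈ W, ∃ i x, φ i x = w := by
    intro w hw
    obtain ⟨i, x, hx⟩ := surj_of_isColimit hc (e.toLinearEquiv.symm ⟨w, hw⟩)
    refine ⟨i, x, ?_⟩
    change (e.toLinearEquiv ((c.ι.app i).hom x)).1 = w
    rw [hx, LinearEquiv.apply_symm_apply]
  have hθ : ∀ i (x : F.obj i), φ i x ≠ 0 → Nonempty (F.obj i ≃ₗ[S] M) := by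
    intro i x hx
    rcases hF i with h | h
    · exact h
    · exfalso
      apply hx
      have : x = 0 := Subsingleton.elim _ _
      rw [this, map_zero]
  obtain ⟨i0, x0, hx0⟩ := hφsurj 1 one_mem_W
  obtain ⟨θ0⟩ := hθ i0 x0 (by rw [hx0]; exact one_ne_zero)
  let f0 : K := φ i0 (θ0.symm ⟨1, one_mem_M0⟩)
  obtain ⟨d, hd⟩ := exists_bound f0
  obtain ⟨i1, x1, hx1⟩ := hφsurj (T ((d + 1 : ℕ) : ℤ)) (T_mem_W (d + 1))
  let j := IsFiltered.max i0 i1
  let a : i0 ⟶ j := IsFiltered.leftToMax i0 i1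
  let b : i1 ⟶ j := IsFiltered.rightToMax i0 i1
  obtain ⟨θ⟩ := hθ j ((F.map a).hom x0) (by rw [hφmap, hx0]; exact one_ne_zero)
  let f : K := φ j (θ.symm ⟨1, one_mem_M0⟩)
  have hfmul : ∀ m : M, φ j (θ.symm m) = f * m.1 := fun m =>
    linear_eq_mul ((φ j).comp θ.symm.toLinearMap) m
  have hf0mul : ∀ m : M, φ i0 (θ0.symm m) = f0 * m.1 := fun m =>
    linear_eq_mul ((φ i0).comp θ0.symm.toLinearMap) m
  let ψ : M →ₗ[S] M := (θ.toLinearMap.comp (F.map a).hom).comp θ0.symm.toLinearMap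
  let ee : K := (ψ ⟨1, one_mem_M0⟩).1
  have heS : ee ∈ S := by
    intro m hm
    have h1 := linear_eq_mul (M.subtype.comp ψ) ⟨m, hm⟩
    change (ψ ⟨m, hm⟩).1 = ee * m at h1
    rw [← h1]
    exact (ψ ⟨m, hm⟩).2
  have hf0 : f0 = f * ee := by
    rw [← hfmul (ψ ⟨1, one_mem_M0⟩)]
    change f0 = φ j (θ.symm (θ ((F.map a).hom (θ0.symm ⟨1, one_mem_M0⟩))))
    rw [LinearEquiv.symm_apply_apply, hφmap]
  have h1 : f0 * (θ0 x0).1 = 1 := by
    rw [← hf0mul, LinearEquiv.symm_apply_apply, hx0]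
  have h3 : f * (θ ((F.map b).hom x1)).1 = T ((d + 1 : ℕ) : ℤ) := by
    rw [← hfmul, LinearEquiv.symm_apply_apply, hφmap, hx1]
  exact key (hφW _ _) (hφW _ _) heS (θ0 x0).2 (θ ((F.map b).hom x1)).2 h1 hf0 d hd h3

end Pool.Agent.H546R3.CD
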