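import Pool.Agent.H546R3.CDalg

set_option autoImplicit false
open LaurentPolynomial

namespace Pool.Agent.H546R3.CD

/-- The multipliers `3^k T^(-n)`. -/
noncomputable def g (k n : ℕ) : K := C ((3 : ℚ) ^ k) * T (-(n : ℤ))

theorem coeff_g_mul (k n : ℕ) (f : K) (j : ℤ) :
    (g k n * f).coeff j = 3 ^ k * f.coeff (j + n) := by
  rw [g, mul_assoc, coeff_C_mul, coeff_T_mul, sub_neg_eq_add]

theorem g_mul_inv (k n : ℕ) : g k n * (C (((3 : ℚ) ^ k)⁻¹) * T (n : ℤ)) = 1 := by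
  have : g k n * (C (((3 : ℚ) ^ k)⁻¹) * T (n : ℤ)) =
      (C ((3 : ℚ) ^ k) * C (((3 : ℚ) ^ k)⁻¹)) * (T (-(n : ℤ)) * T (n : ℤ)) := by
    rw [g]; ring
  rw [this, ← C.map_mul, ← T_add, mul_inv_cancel₀ (by positivity)]
  simp

theorem g_ne_zero (k n : ℕ) : g k n ≠ 0 := by
  intro h
  have := g_mul_inv k n
  rw [h, zero_mul] at this
  exact zero_ne_one this

theorem g_add (k k' n n' : ℕ) : g (k + k') (n + n') = g k n * g k' n' := by
  have : g k n * g k' n' = (C ((3 : ℚ) ^ k) * C ((3 : ℚ) ^ k')) *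
      (T (-(n : ℤ)) * T (-(n' : ℤ))) := by
    rw [g, g]; ring
  rw [this, ← C.map_mul, ← T_add, ← pow_add, g]
  congr 2
  push_cast
  ring

theorem C_three_mul_mem (k : ℕ) (m : K) (hm : m ∈ M0) : g k 0 * m ∈ M0 := by
  intro j
  obtain ⟨z, hz⟩ := hm j
  refine ⟨3 ^ k * z, ?_⟩
  rw [coeff_g_mul]
  simp only [Nat.cast_zero, add_zero]
  rw [hz]
  push_cast
  ring

theorem exists_T_neg_one (m : K) (hm : m ∈ M0) : ∃ k : ℕ, g k 1 * m ∈ M0 := by
  refine ⟨∑ i ∈ m.coeff.support, (2 * (i - 1).natAbs + 1), ?_⟩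
  intro j
  rw [coeff_g_mul]
  by_cases hj : (j + ((1 : ℕ) : ℤ)) ∈ m.coeff.support
  · obtain ⟨z, hz⟩ := hm (j + ((1 : ℕ) : ℤ))
    have hle : 2 * j.natAbs + 1 ≤ ∑ i ∈ m.coeff.support, (2 * (i - 1).natAbs + 1) := by
      have := Finset.single_le_sum (f := fun i : ℤ => 2 * (i - 1).natAbs + 1)
        (s := m.coeff.support) (fun i _ => Nat.zero_le _) hj
      simpa using this
    obtain ⟨w, hw⟩ := wt_dvd_three j _ hle
    refine ⟨w * z, ?_⟩
    rw [hz]
    have : (3 : ℚ) ^ (∑ i ∈ m.coeff.support, (2 * (i - 1).natAbs + 1)) *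
        ((wt (j + ((1 : ℕ) : ℤ)) * z : ℤ) : ℚ) =
        (((3 ^ (∑ i ∈ m.coeff.support, (2 * (i - 1).natAbs + 1)) * wt (j + 1)) * z : ℤ) : ℚ) := by
      push_cast; ring
    rw [this, hw]
    push_cast
    ring
  · refine ⟨0, ?_⟩
    rw [Finsupp.notMem_support_iff.mp hj]
    simp

/-- `M` as a module over its multiplier ring. -/
def M : Submodule S K where
  carrier := M0
  add_mem' := fun ha hb => M0.add_mem ha hb
  zero_mem' := M0.zero_mem
  smul_mem' := fun s m hm => s.2 m hm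

theorem mem_M {f : K} : f ∈ M ↔ f ∈ M0 := Iff.rfl

/-- The fractional translate `3^(-k) T^n M`. -/
def U (k n : ℕ) : Submodule S K where
  carrier := {f | g k n * f ∈ M0}
  add_mem' := by
    intro a b ha hb
    change g k n * (a + b) ∈ M0
    rw [mul_add]
    exact M0.add_mem ha hb
  zero_mem' := by
    change g k n * 0 ∈ M0
    rw [mul_zero]
    exact M0.zero_mem
  smul_mem' := by
    intro s f hf
    change g k n * ((s : K) * f) ∈ M0
    rw [mul_left_comm]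
    exact s.2 _ hf

theorem mem_U {k n : ℕ} {f : K} : f ∈ U k n ↔ g k n * f ∈ M0 := Iff.rfl

theorem U_mono_left {k k' n : ℕ} (h : k ≤ k') : U k n ≤ U k' n := by
  intro f hf
  obtain ⟨l, rfl⟩ := Nat.exists_eq_add_of_le h
  rw [mem_U] at hf ⊢
  have : g (k + l) n = g l 0 * g k n := by
    rw [← g_add]
    congr 1 <;> omega
  rw [this, mul_assoc]
  exact C_three_mul_mem l _ hf

/-- `T^n N`, where `N` is the union of the `3^(-k) M`. -/
def V (n : ℕ) : Submodule S K where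
  carrier := {f | ∃ k, f ∈ U k n}
  add_mem' := by
    rintro a b ⟨k, ha⟩ ⟨l, hb⟩
    exact ⟨max k l, (U (max k l) n).add_mem (U_mono_left (le_max_left k l) ha)
      (U_mono_left (le_max_right k l) hb)⟩
  zero_mem' := ⟨0, (U 0 n).zero_mem⟩
  smul_mem' := by
    rintro s f ⟨k, hf⟩
    exact ⟨k, (U k n).smul_mem s hf⟩

theorem mem_V {n : ℕ} {f : K} : f ∈ V n ↔ ∃ k, f ∈ U k n := Iff.rfl

theorem V_mono_succ (n : ℕ) : V n ≤ V (n + 1) := by
  rintro f ⟨k, hf⟩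
  obtain ⟨l, hl⟩ := exists_T_neg_one _ hf
  refine ⟨l + k, ?_⟩
  rw [mem_U]
  rw [← mul_assoc, ← g_add, add_comm 1 n] at hl
  exact hl

theorem V_mono : Monotone V := monotone_nat_of_le_succ V_mono_succ

/-- The final module `N'`. -/
def W : Submodule S K where
  carrier := {f | ∃ n, f ∈ V n}
  add_mem' := by
    rintro a b ⟨k, ha⟩ ⟨l, hb⟩
    exact ⟨max k l, (V (max k l)).add_mem (V_mono (le_max_left k l) ha)
      (V_mono (le_max_right k l) hb)⟩
  zero_mem' := ⟨0, (V 0).zero_mem⟩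
  smul_mem' := by
    rintro s f ⟨k, hf⟩
    exact ⟨k, (V k).smul_mem s hf⟩

theorem mem_W {f : K} : f ∈ W ↔ ∃ n, f ∈ V n := Iff.rfl

theorem T_mem_W (n : ℕ) : (T (n : ℤ) : K) ∈ W := by
  refine ⟨n, 0, ?_⟩
  rw [mem_U, g]
  have : (C ((3 : ℚ) ^ 0) * T (-(n : ℤ)) * T (n : ℤ) : K) = 1 := by
    rw [mul_assoc, ← T_add]
    simp
  rw [this]
  exact one_mem_M0

theorem one_mem_W : (1 : K) ∈ W := by
  have := T_mem_W 0
  simpa using this

/-- Multiplication by `g k n` identifies `U k n` with `M`. -/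
noncomputable def UequivM (k n : ℕ) : U k n ≃ₗ[S] M :=
  LinearEquiv.ofBijective
    { toFun := fun f => ⟨g k n * f.1, f.2⟩
      map_add' := by
        intro a b
        apply Subtype.ext
        change g k n * (a.1 + b.1) = g k n * a.1 + g k n * b.1
        rw [mul_add]
      map_smul' := by
        intro s a
        apply Subtype.ext
        change g k n * ((s : K) * a.1) = (s : K) * (g k n * a.1)
        rw [mul_left_comm] }
    (by
      constructor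
      · intro a b hab
        have h := congrArg Subtype.val hab
        change g k n * a.1 = g k n * b.1 at h
        exact Subtype.ext (mul_left_cancel₀ (g_ne_zero k n) h)
      · intro m
        have h : g k n * ((C (((3 : ℚ) ^ k)⁻¹) * T (n : ℤ)) * m.1) = m.1 := by
          rw [← mul_assoc, g_mul_inv, one_mul]
        refine ⟨⟨(C (((3 : ℚ) ^ k)⁻¹) * T (n : ℤ)) * m.1, ?_⟩, ?_⟩
        · rw [mem_U, h]
          exact m.2
        · exact Subtype.ext h)

/-- The ring `ℤ[1/3]`. -/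
def O : Subring ℚ where
  carrier := {q | ∃ (k : ℕ) (a : ℤ), q * 3 ^ k = (a : ℚ)}
  mul_mem' := by
    rintro x y ⟨k, a, hx⟩ ⟨l, b, hy⟩
    refine ⟨k + l, a * b, ?_⟩
    rw [pow_add]
    push_cast
    rw [← hx, ← hy]
    ring
  one_mem' := ⟨0, 1, by simp⟩
  add_mem' := by
    rintro x y ⟨k, a, hx⟩ ⟨l, b, hy⟩
    refine ⟨k + l, a * 3 ^ l + b * 3 ^ k, ?_⟩
    rw [pow_add]
    push_cast
    rw [← hx, ← hy]
    ring
  zero_mem' := ⟨0, 0, by simp⟩
  neg_mem' := by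
    rintro x ⟨k, a, hx⟩
    refine ⟨k, -a, ?_⟩
    push_cast
    rw [← hx]
    ring

/-- The even elements of `ℤ[1/3]`. -/
def E : AddSubgroup ℚ where
  carrier := {q | ∃ o ∈ O, q = 2 * o}
  add_mem' := by
    rintro x y ⟨a, ha, rfl⟩ ⟨b, hb, rfl⟩
    exact ⟨a + b, O.add_mem ha hb, by ring⟩
  zero_mem' := ⟨0, O.zero_mem, by simp⟩
  neg_mem' := by
    rintro x ⟨a, ha, rfl⟩
    exact ⟨-a, O.neg_mem ha, by ring⟩

theorem mul_mem_E_left {a b : ℚ} (ha : a ∈ O) (hb : b ∈ E) : a * b ∈ E := by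
  obtain ⟨o, ho, rfl⟩ := hb
  exact ⟨a * o, O.mul_mem ha ho, by ring⟩

theorem mul_mem_E_right {a b : ℚ} (ha : a ∈ E) (hb : b ∈ O) : a * b ∈ E := by
  rw [mul_comm]
  exact mul_mem_E_left hb ha

theorem E_le_O {a : ℚ} (ha : a ∈ E) : a ∈ O := by
  obtain ⟨o, ho, rfl⟩ := ha
  have : (2 : ℚ) ∈ O := by
    have := intCast_mem O 2
    simpa using this
  exact O.mul_mem this ho

theorem two_mul_int_mem_E (z : ℤ) : ((2 * z : ℤ) : ℚ) ∈ E :=
  ⟨(z : ℚ), intCast_mem O z, by push_cast; ring⟩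

theorem one_notMem_E : (1 : ℚ) ∉ E := by
  rintro ⟨o, ⟨k, a, h⟩, h1⟩
  have h2 : (3 : ℚ) ^ k = 2 * a := by
    rw [← h]
    calc (3 : ℚ) ^ k = 1 * 3 ^ k := by ring
      _ = 2 * o * 3 ^ k := by rw [← h1]
      _ = 2 * (o * 3 ^ k) := by ring
  have h3 : (3 : ℤ) ^ k = 2 * a := by exact_mod_cast h2
  have h4 : Odd ((3 : ℤ) ^ k) := Odd.pow (by decide)
  rw [h3] at h4
  exact (Int.not_odd_iff_even.mpr (even_two_mul a)) h4

theorem coeff_W_mem_O {f : K} (hf : f ∈ W) (j : ℤ) : f.coeff j ∈ O := by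
  obtain ⟨n, k, hk⟩ := hf
  obtain ⟨z, hz⟩ := hk (j - n)
  rw [coeff_g_mul] at hz
  refine ⟨k, wt (j - n) * z, ?_⟩
  rw [← hz]
  have : j - (n : ℤ) + n = j := by ring
  rw [this]
  ring

theorem coeff_M_mem_O {f : K} (hf : f ∈ M0) (j : ℤ) : f.coeff j ∈ O := by
  obtain ⟨z, hz⟩ := hf j
  rw [hz]
  exact intCast_mem O _

theorem coeff_M_mem_E {f : K} (hf : f ∈ M0) (j : ℤ) (hj : 0 < j) : f.coeff j ∈ E := by
  obtain ⟨z, hz⟩ := hf j
  obtain ⟨n, rfl⟩ : ∃ n : ℕ, j = ((n + 1 : ℕ) : ℤ) := ⟨(j - 1).toNat, by omega⟩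
  rw [hz, wt_pos]
  have : ((2 : ℤ) ^ (n + 1) * z) = 2 * (2 ^ n * z) := by ring
  rw [this]
  exact two_mul_int_mem_E _

theorem key {f0 f e m0 m1 : K} (hf0 : f0 ∈ W) (hf : f ∈ W) (he : e ∈ S)
    (hm0 : m0 ∈ M0) (hm1 : m1 ∈ M0) (h1 : f0 * m0 = 1) (h2 : f0 = f * e) (d : ℕ)
    (hd : ∀ j : ℤ, (d : ℤ) < j → f0.coeff j = 0) (h3 : f * m1 = T ((d + 1 : ℕ) : ℤ)) : False := by
  -- the constant coefficient of `e` is even
  have h4 : T ((d + 1 : ℕ) : ℤ) * e = f0 * m1 := by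
    rw [h2, ← h3]; ring
  have h5 : e.coeff 0 ∈ E := by
    have h6 := congrArg (fun x : K => x.coeff ((d + 1 : ℕ) : ℤ)) h4
    simp only [coeff_T_mul, sub_self] at h6
    rw [h6, coeff_mul]
    apply AddSubgroup.sum_mem
    intro i hi
    have hi' : i ≤ d := by
      by_contra hlt
      exact (Finsupp.mem_support_iff.mp hi) (hd i (by omega))
    apply mul_mem_E_left (coeff_W_mem_O hf0 i)
    apply coeff_M_mem_E hm1
    push_cast
    omega
  have h6 : ∀ j, e.coeff j ∈ E := by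
    intro j
    by_cases hj : j = 0
    · rw [hj]; exact h5
    · obtain ⟨z, hz⟩ := coeff_of_mem_S he j hj
      rw [hz]
      exact two_mul_int_mem_E z
  have h7 : ∀ j, f0.coeff j ∈ E := by
    intro j
    rw [h2, coeff_mul]
    apply AddSubgroup.sum_mem
    intro i _
    exact mul_mem_E_left (coeff_W_mem_O hf i) (h6 _)
  have h8 : (1 : ℚ) ∈ E := by
    have h9 : (f0 * m0).coeff 0 ∈ E := by
      rw [coeff_mul]
      apply AddSubgroup.sum_mem
      intro i _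
      exact mul_mem_E_right (h7 i) (coeff_M_mem_O hm0 _)
    rw [h1] at h9
    have h10 : (1 : K).coeff 0 = 1 := by
      rw [← T_zero, T_apply]; simp
    rwa [h10] at h9
  exact one_notMem_E h8

end Pool.Agent.H546R3.CD
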