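import Pool.Agent.H546R3.Colim

set_option autoImplicit false
open CategoryTheory CategoryTheory.Limits

namespace Pool.Agent.H546R3

variable {R : Type} [Ring R] {J : Type} [SmallCategory J] {F : J ⥤ ModuleCat.{0} R}

/-- The legs of a cocone, as linear maps to the point. -/
def leg (c : Cocone F) (i : J) : F.obj i →ₗ[R] c.pt := (c.ι.app i).hom

theorem leg_map (c : Cocone F) {i j : J} (f : i ⟶ j) (x : F.obj i) :
    leg c j ((F.map f).hom x) = leg c i x := map_app c f x

variable [IsFiltered J]

theorem leg_surj {c : Cocone F} (hc : IsColimit c) (x : c.pt) :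
    ∃ (j : J) (y : F.obj j), leg c j y = x := surj_of_isColimit hc x

theorem leg_eq {c : Cocone F} (hc : IsColimit c) {i j : J} (x : F.obj i)
    (y : F.obj j) (h : leg c i x = leg c j y) :
    ∃ (k : J) (f : i ⟶ k) (g : j ⟶ k), (F.map f).hom x = (F.map g).hom y :=
  eq_of_isColimit hc x y h

theorem leg_zero {c : Cocone F} (hc : IsColimit c) {i : J} (x : F.obj i)
    (h : leg c i x = 0) : ∃ (k : J) (f : i ⟶ k), (F.map f).hom x = 0 :=
  zero_of_isColimit hc x h

/-- Compatible additive maps on the terms of a filtered diagram descend to the colimit. -/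
theorem exists_addHom {c : Cocone F} (hc : IsColimit c) {A : Type} [AddCommGroup A]
    (k : ∀ i, F.obj i →+ A)
    (hk : ∀ (i j : J) (f : i ⟶ j) (x : F.obj i), k j ((F.map f).hom x) = k i x) :
    ∃ κ : c.pt →+ A, ∀ i (x : F.obj i), κ (leg c i x) = k i x := by
  have hwd : ∀ (i j : J) (x : F.obj i) (y : F.obj j),
      leg c i x = leg c j y → k i x = k j y := by
    intro i j x y h
    obtain ⟨l, f, g, h2⟩ := leg_eq hc x y h
    rw [← hk i l f, ← hk j l g, h2]
  choose ix yx hx using fun x : c.pt => leg_surj hc x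
  have hval : ∀ i (x : F.obj i),
      k (ix (leg c i x)) (yx (leg c i x)) = k i x := by
    intro i x
    exact hwd _ _ _ _ (hx _)
  refine ⟨AddMonoidHom.mk' (fun x => k (ix x) (yx x)) ?_, hval⟩
  intro a b
  obtain ⟨i, x, rfl⟩ := leg_surj hc a
  obtain ⟨j, y, rfl⟩ := leg_surj hc b
  let l := IsFiltered.max i j
  let f : i ⟶ l := IsFiltered.leftToMax i j
  let g : j ⟶ l := IsFiltered.rightToMax i j
  have h1 : leg c i x + leg c j y = leg c l ((F.map f).hom x + (F.map g).hom y) := by
    rw [map_add, leg_map, leg_map]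
  rw [hval, hval, h1, hval, map_add, hk, hk]

end Pool.Agent.H546R3
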