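import Mathlib

set_option autoImplicit false

namespace Pool.Agent.H546R3.KW

open MvPolynomial

variable {k : Type} [Field k]

/-- Chain rule for a polynomial curve. -/
theorem derivative_aeval {σ : Type} [Fintype σ] [DecidableEq σ] (φ : σ → Polynomial k)
    (f : MvPolynomial σ k) :
    Polynomial.derivative (aeval φ f) =
      ∑ i, aeval φ (pderiv i f) * Polynomial.derivative (φ i) := by
  induction f using MvPolynomial.induction_on with
  | C a => simp
  | add p q hp hq => simp [hp, hq, add_mul, Finset.sum_add_distrib]
  | mul_X p j hp =>
    have h1 : ∀ i, aeval φ (pderiv i (p * X j)) * Polynomial.derivative (φ i) =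
        (aeval φ (pderiv i p) * Polynomial.derivative (φ i)) * φ j +
          (if j = i then aeval φ p * Polynomial.derivative (φ i) else 0) := by
      intro i
      rw [pderiv_mul, map_add, map_mul, map_mul, aeval_X]
      by_cases hij : j = i
      · subst hij
        rw [pderiv_X_self, map_one, if_pos rfl]
        ring
      · rw [pderiv_X_of_ne hij, map_zero, if_neg hij]
        ring
    rw [Finset.sum_congr rfl (fun i _ => h1 i), Finset.sum_add_distrib, ← Finset.sum_mul, ← hp,
      Finset.sum_ite_eq, if_pos (Finset.mem_univ j), map_mul, aeval_X, Polynomial.derivative_mul]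

/-- If a polynomial vanishes along a curve for all parameters outside a finite set, its
differential at the starting point kills the velocity. -/
theorem tangent_of_curve [Infinite k] {σ : Type} [Fintype σ] [DecidableEq σ]
    (φ : σ → Polynomial k) (f : MvPolynomial σ k) (s : Finset k)
    (h : ∀ t : k, t ∉ s → eval (fun i => Polynomial.eval t (φ i)) f = 0) :
    ∑ i, eval (fun j => Polynomial.eval 0 (φ j)) (pderiv i f) *
      Polynomial.eval 0 (Polynomial.derivative (φ i)) = 0 := by
  classical
  have hev : ∀ (t : k) (g : MvPolynomial σ k),
      Polynomial.eval t (aeval φ g) = eval (fun i => Polynomial.eval t (φ i)) g := by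
    intro t g
    have := MvPolynomial.map_aeval φ (Polynomial.evalRingHom t) g
    rw [Polynomial.coe_evalRingHom] at this
    rw [this]
    have h2 : (Polynomial.evalRingHom t).comp (algebraMap k (Polynomial k)) = RingHom.id k := by
      ext x; simp
    rw [h2]
    rfl
  have h0 : aeval φ f = 0 := by
    by_contra hne
    have hfin : (Set.univ : Set k).Finite := by
      apply Set.Finite.subset (Finset.finite_toSet (s ∪ (aeval φ f).roots.toFinset))
      intro t _
      by_cases ht : t ∈ s
      · simp [ht]
      · simp only [Finset.coe_union, Set.mem_union, Finset.mem_coe, Multiset.mem_toFinset]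
        right
        rw [Polynomial.mem_roots hne, Polynomial.IsRoot, hev]
        exact h t ht
    exact Set.infinite_univ hfin
  have h1 := derivative_aeval φ f
  rw [h0, Polynomial.derivative_zero] at h1
  have h2 := congrArg (Polynomial.eval 0) h1
  rw [Polynomial.eval_finsetSum] at h2
  have h3 : Polynomial.eval 0 (0 : Polynomial k) = 0 := Polynomial.eval_zero
  refine Eq.trans (Finset.sum_congr rfl fun i _ => ?_) (h2.symm.trans h3)
  rw [Polynomial.eval_mul, hev]

end Pool.Agent.H546R3.KW
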