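import Pool.Agent.H546R3.KWalg

set_option autoImplicit false

namespace Pool.Agent.H546R3.KW

open MvPolynomial Matrix

/-- The field. -/
abbrev k := AlgebraicClosure (ZMod 2)

theorem two_eq_zero : (2 : k) = 0 := by
  have := CharP.cast_eq_zero k 2
  exact_mod_cast this

theorem add_self (x : k) : x + x = 0 := by
  rw [← two_mul, two_eq_zero, zero_mul]

theorem neg_eq (x : k) : -x = x := by
  rw [neg_eq_iff_add_eq_zero, add_self]

/-- The group elements: a one-dimensional torus acting on the Witt vectors of length two. -/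
noncomputable def mk (l a c : k) (hl : l ≠ 0) : Matrix.GeneralLinearGroup (Fin 3) k where
  val := !![l ^ 2, l * a, c; 0, l, a; 0, 0, 1]
  inv := !![l⁻¹ ^ 2, l⁻¹ * (-(l⁻¹ * a)), l⁻¹ ^ 2 * (a ^ 2 - c); 0, l⁻¹, -(l⁻¹ * a); 0, 0, 1]
  val_inv := by
    ext i j
    fin_cases i <;> fin_cases j <;> simp [Matrix.mul_apply, Fin.sum_univ_three] <;> field_simp <;>
      ring
  inv_val := by
    ext i j
    fin_cases i <;> fin_cases j <;> simp [Matrix.mul_apply, Fin.sum_univ_three] <;> field_simp <;>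
      ring

theorem mk_mul (l a c l' a' c' : k) (hl : l ≠ 0) (hl' : l' ≠ 0) :
    mk l a c hl * mk l' a' c' hl' =
      mk (l * l') (l * a' + a) (l ^ 2 * c' + l * a * a' + c) (mul_ne_zero hl hl') := by
  apply Units.ext
  change (!![l ^ 2, l * a, c; 0, l, a; 0, 0, 1] : Matrix (Fin 3) (Fin 3) k) *
    !![l' ^ 2, l' * a', c'; 0, l', a'; 0, 0, 1] = _
  ext i j
  fin_cases i <;> fin_cases j <;> simp [mk, Matrix.mul_apply, Fin.sum_univ_three] <;> ring

theorem mk_inv (l a c : k) (hl : l ≠ 0) :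
    (mk l a c hl)⁻¹ = mk l⁻¹ (-(l⁻¹ * a)) (l⁻¹ ^ 2 * (a ^ 2 - c)) (inv_ne_zero hl) := by
  apply Units.ext
  rfl

theorem mk_one : mk 1 0 0 one_ne_zero = 1 := by
  apply Units.ext
  change (!![(1 : k) ^ 2, 1 * 0, 0; 0, 1, 0; 0, 0, 1] : Matrix (Fin 3) (Fin 3) k) = 1
  ext i j
  fin_cases i <;> fin_cases j <;> simp

/-- The algebraic group. -/
noncomputable def S : Subgroup (Matrix.GeneralLinearGroup (Fin 3) k) where
  carrier := {g | ∃ (l a c : k) (hl : l ≠ 0), g = mk l a c hl}
  mul_mem' := by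
    rintro _ _ ⟨l, a, c, hl, rfl⟩ ⟨l', a', c', hl', rfl⟩
    exact ⟨_, _, _, _, mk_mul _ _ _ _ _ _ _ _⟩
  one_mem' := ⟨1, 0, 0, one_ne_zero, mk_one.symm⟩
  inv_mem' := by
    rintro _ ⟨l, a, c, hl, rfl⟩
    exact ⟨_, _, _, _, mk_inv _ _ _ _⟩

/-- The tangent space, as in the frozen statement. -/
def g : Set (Matrix (Fin 3) (Fin 3) k) :=
  {X : Matrix (Fin 3) (Fin 3) k |
        ∀ f : MvPolynomial (Fin 3 × Fin 3) k,
          (∀ g ∈ S, MvPolynomial.eval
              (fun ij : Fin 3 × Fin 3 => (g : Matrix (Fin 3) (Fin 3) k) ij.1 ij.2) f = 0) →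
          ∑ ij : Fin 3 × Fin 3,
            MvPolynomial.eval
              (fun ij' : Fin 3 × Fin 3 => (1 : Matrix (Fin 3) (Fin 3) k) ij'.1 ij'.2)
              (MvPolynomial.pderiv ij f) * X ij.1 ij.2 = 0}

/-- Every element of the tangent space satisfies the linearised equations. -/
theorem upper {Z : Matrix (Fin 3) (Fin 3) k} (hZ : Z ∈ g) :
    Z 0 0 = 0 ∧ Z 1 0 = 0 ∧ Z 2 0 = 0 ∧ Z 2 1 = 0 ∧ Z 2 2 = 0 ∧ Z 0 1 = Z 1 2 := by
  have hlin : ∀ (i j : Fin 3) (c : k), (∀ s ∈ S, (s : Matrix (Fin 3) (Fin 3) k) i j = c) →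
      Z i j = 0 := by
    intro i j c hc
    have h := hZ (X (i, j) - C c) (by
      intro s hs
      simp [hc s hs])
    simp only [map_sub, pderiv_C, sub_zero, pderiv_X] at h
    rw [Finset.sum_eq_single (i, j)] at h
    · simpa using h
    · intro b _ hb
      rw [Pi.single_eq_of_ne (Ne.symm hb)]
      simp
    · intro h
      exact absurd (Finset.mem_univ _) h
  refine ⟨?_, ?_, ?_, ?_, ?_, ?_⟩
  · have h := hZ (X (0, 0) - X (1, 1) * X (1, 1)) (by
      rintro s ⟨l, a, c, hl, rfl⟩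
      simp [mk]
      ring)
    rw [Fintype.sum_prod_type] at h
    simp [Fin.sum_univ_three, pderiv_X, Pi.single_apply] at h
    have h2 : Z 0 0 = Z 1 1 + Z 1 1 := by linear_combination h
    rw [h2, add_self]
  · refine hlin 1 0 0 ?_
    rintro s ⟨l, a, c, hl, rfl⟩
    simp [mk]
  · refine hlin 2 0 0 ?_
    rintro s ⟨l, a, c, hl, rfl⟩
    simp [mk]
  · refine hlin 2 1 0 ?_
    rintro s ⟨l, a, c, hl, rfl⟩
    simp [mk]
  · refine hlin 2 2 1 ?_
    rintro s ⟨l, a, c, hl, rfl⟩
    simp [mk]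
  · have h := hZ (X (0, 1) - X (1, 1) * X (1, 2)) (by
      rintro s ⟨l, a, c, hl, rfl⟩
      simp [mk])
    rw [Fintype.sum_prod_type] at h
    simp [Fin.sum_univ_three, pderiv_X, Pi.single_apply] at h
    linear_combination h

/-- The toral element. -/
noncomputable def hh : Matrix (Fin 3) (Fin 3) k := !![0, 0, 0; 0, 1, 0; 0, 0, 0]

/-- The nilpotent element. -/
noncomputable def nn : Matrix (Fin 3) (Fin 3) k := !![0, 1, 0; 0, 0, 1; 0, 0, 0]

theorem hh_mem : hh ∈ g := by
  intro f hf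
  let φ : Fin 3 × Fin 3 → Polynomial k := fun ij =>
    (!![(1 + Polynomial.X) ^ 2, 0, 0; 0, 1 + Polynomial.X, 0; 0, 0, 1] :
      Matrix (Fin 3) (Fin 3) (Polynomial k)) ij.1 ij.2
  have h := tangent_of_curve φ f {-1} (by
    intro t ht
    have ht' : (1 : k) + t ≠ 0 := by
      intro h0
      apply ht
      rw [Finset.mem_singleton]
      linear_combination h0
    have h1 := hf (mk (1 + t) 0 0 ht') ⟨_, _, _, _, rfl⟩
    rw [← h1]
    congr 2
    funext ij
    obtain ⟨i, j⟩ := ij
    fin_cases i <;> fin_cases j <;> simp [φ, mk])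
  rw [← h]
  apply Finset.sum_congr rfl
  intro ij _
  have h1 : (fun j : Fin 3 × Fin 3 => Polynomial.eval 0 (φ j)) =
      (fun ij' : Fin 3 × Fin 3 => (1 : Matrix (Fin 3) (Fin 3) k) ij'.1 ij'.2) := by
    funext ij
    obtain ⟨i, j⟩ := ij
    fin_cases i <;> fin_cases j <;> simp [φ]
  have h2 : Polynomial.eval 0 (Polynomial.derivative (φ ij)) = hh ij.1 ij.2 := by
    obtain ⟨i, j⟩ := ij
    fin_cases i <;> fin_cases j <;>
      simp [φ, hh, pow_two, Polynomial.derivative_mul, one_add_one_eq_two, two_eq_zero]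
  rw [h1, h2]

theorem nn_mem : nn ∈ g := by
  intro f hf
  let φ : Fin 3 × Fin 3 → Polynomial k := fun ij =>
    (!![1, Polynomial.X, 0; 0, 1, Polynomial.X; 0, 0, 1] :
      Matrix (Fin 3) (Fin 3) (Polynomial k)) ij.1 ij.2
  have h := tangent_of_curve φ f ∅ (by
    intro t ht
    have h1 := hf (mk 1 t 0 one_ne_zero) ⟨_, _, _, _, rfl⟩
    rw [← h1]
    congr 2
    funext ij
    obtain ⟨i, j⟩ := ij
    fin_cases i <;> fin_cases j <;> simp [φ, mk])
  rw [← h]
  apply Finset.sum_congr rfl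
  intro ij _
  have h1 : (fun j : Fin 3 × Fin 3 => Polynomial.eval 0 (φ j)) =
      (fun ij' : Fin 3 × Fin 3 => (1 : Matrix (Fin 3) (Fin 3) k) ij'.1 ij'.2) := by
    funext ij
    obtain ⟨i, j⟩ := ij
    fin_cases i <;> fin_cases j <;> simp [φ]
  have h2 : Polynomial.eval 0 (Polynomial.derivative (φ ij)) = nn ij.1 ij.2 := by
    obtain ⟨i, j⟩ := ij
    fin_cases i <;> fin_cases j <;> simp [φ, nn]
  rw [h1, h2]

/-- The linear form `χ`. -/
noncomputable def chi : Matrix (Fin 3) (Fin 3) k →ₗ[k] k where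
  toFun Z := Z 0 1 + Z 0 2
  map_add' := by intro a b; simp only [Matrix.add_apply]; ring
  map_smul' := by intro a b; simp only [Matrix.smul_apply, smul_eq_mul, RingHom.id_apply]; ring

/-- The one-dimensional representation. -/
noncomputable def rho : Matrix (Fin 3) (Fin 3) k →ₗ[k] Module.End k k where
  toFun Z := Z 0 2 • (1 : Module.End k k)
  map_add' := by intro a b; rw [Matrix.add_apply, add_smul]
  map_smul' := by intro a b; rw [Matrix.smul_apply, smul_eq_mul, mul_smul]; rfl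

theorem rho_lie {Z Y : Matrix (Fin 3) (Fin 3) k} (hZ : Z ∈ g) (hY : Y ∈ g) :
    rho (Z * Y - Y * Z) = rho Z * rho Y - rho Y * rho Z := by
  obtain ⟨z0, z1, z2, z3, z4, z5⟩ := upper hZ
  obtain ⟨y0, y1, y2, y3, y4, y5⟩ := upper hY
  have h1 : (Z * Y - Y * Z) 0 2 = 0 := by
    simp only [Matrix.sub_apply, Matrix.mul_apply, Fin.sum_univ_three, z0, z4, z5, y0, y4, y5]
    ring
  change (Z * Y - Y * Z) 0 2 • (1 : Module.End k k) =
    (Z 0 2 • (1 : Module.End k k)) * (Y 0 2 • (1 : Module.End k k)) -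
      (Y 0 2 • (1 : Module.End k k)) * (Z 0 2 • (1 : Module.End k k))
  rw [h1, smul_mul_smul_comm, smul_mul_smul_comm, mul_comm (Y 0 2), sub_self, zero_smul]

theorem rho_p {Z : Matrix (Fin 3) (Fin 3) k} (hZ : Z ∈ g) :
    rho Z ^ 2 - rho (Z ^ 2) = (chi Z) ^ 2 • (1 : Module.End k k) := by
  obtain ⟨z0, z1, z2, z3, z4, z5⟩ := upper hZ
  have h1 : (Z ^ 2) 0 2 = Z 0 1 * Z 0 1 := by
    rw [pow_two]
    simp only [Matrix.mul_apply, Fin.sum_univ_three, z0, z4, z5]
    ring
  change (Z 0 2 • (1 : Module.End k k)) ^ 2 - (Z ^ 2) 0 2 • (1 : Module.End k k) =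
    (Z 0 1 + Z 0 2) ^ 2 • (1 : Module.End k k)
  rw [h1, smul_pow, one_pow, ← sub_smul]
  congr 1
  have h2 := add_self (Z 0 1 * Z 0 1)
  have h3 := add_self (Z 0 1 * Z 0 2)
  linear_combination -h2 - h3

/-- The radical, as in the frozen statement. -/
def gchi : Set (Matrix (Fin 3) (Fin 3) k) :=
  {Z : Matrix (Fin 3) (Fin 3) k | Z ∈ g ∧ ∀ Y ∈ g, chi (Z * Y - Y * Z) = 0}

theorem chi_hn : chi (hh * nn - nn * hh) = 1 := by
  change (hh * nn - nn * hh) 0 1 + (hh * nn - nn * hh) 0 2 = 1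
  simp [hh, nn, Matrix.mul_apply, Fin.sum_univ_three, neg_eq]

theorem codim : 2 ≤ Module.finrank k (Submodule.span k g) -
    Module.finrank k (Submodule.span k gchi) := by
  -- the functionals `χ([·, h])` and `χ([·, n])`
  let A : Submodule k (Matrix (Fin 3) (Fin 3) k) := Submodule.span k g
  let B : Submodule k (Matrix (Fin 3) (Fin 3) k) := Submodule.span k gchi
  let L : Submodule k (Matrix (Fin 3) (Fin 3) k) := Submodule.span k (Set.range ![hh, nn])
  have hBh : ∀ Z ∈ B, chi (Z * hh - hh * Z) = 0 := by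
    intro Z hZ
    induction hZ using Submodule.span_induction with
    | mem x hx => exact hx.2 hh hh_mem
    | zero => simp
    | add x y _ _ hx hy =>
      have : (x + y) * hh - hh * (x + y) = (x * hh - hh * x) + (y * hh - hh * y) := by noncomm_ring
      rw [this, map_add, hx, hy, add_zero]
    | smul a x _ hx =>
      have : (a • x) * hh - hh * (a • x) = a • (x * hh - hh * x) := by
        rw [smul_mul_assoc, mul_smul_comm, smul_sub]
      rw [this, map_smul, hx, smul_zero]
  have hBn : ∀ Z ∈ B, chi (Z * nn - nn * Z) = 0 := by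
    intro Z hZ
    induction hZ using Submodule.span_induction with
    | mem x hx => exact hx.2 nn nn_mem
    | zero => simp
    | add x y _ _ hx hy =>
      have : (x + y) * nn - nn * (x + y) = (x * nn - nn * x) + (y * nn - nn * y) := by noncomm_ring
      rw [this, map_add, hx, hy, add_zero]
    | smul a x _ hx =>
      have : (a • x) * nn - nn * (a • x) = a • (x * nn - nn * x) := by
        rw [smul_mul_assoc, mul_smul_comm, smul_sub]
      rw [this, map_smul, hx, smul_zero]
  have hindep : LinearIndependent k ![hh, nn] := by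
    rw [LinearIndependent.pair_iff]
    intro s t hst
    have h1 := congrFun (congrFun hst 1) 1
    have h2 := congrFun (congrFun hst 0) 1
    simp [hh, nn] at h1 h2
    exact ⟨h1, h2⟩
  have hL : Module.finrank k L = 2 := by
    have := finrank_span_eq_card hindep
    simpa using this
  have hBA : B ≤ A := Submodule.span_mono (fun x hx => hx.1)
  have hLA : L ≤ A := by
    apply Submodule.span_le.mpr
    rintro x ⟨i, rfl⟩
    fin_cases i
    · exact Submodule.subset_span hh_mem
    · exact Submodule.subset_span nn_mem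
  have hdisj : B ⊓ L = ⊥ := by
    rw [eq_bot_iff]
    rintro Z ⟨hZB, hZL⟩
    have hZL' : Z ∈ Submodule.span k (Set.range ![hh, nn]) := hZL
    rw [Matrix.range_cons, Matrix.range_cons, Matrix.range_empty, Set.union_empty,
      Set.singleton_union, Submodule.mem_span_pair] at hZL'
    obtain ⟨s, t, rfl⟩ := hZL'
    have h1 := hBh _ hZB
    have h2 := hBn _ hZB
    have h3 : (s • hh + t • nn) * hh - hh * (s • hh + t • nn) = -t • (hh * nn - nn * hh) := by
      rw [add_mul, mul_add, smul_mul_assoc, smul_mul_assoc, mul_smul_comm, mul_smul_comm, neg_smul,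
        smul_sub]
      abel
    have h4 : (s • hh + t • nn) * nn - nn * (s • hh + t • nn) = s • (hh * nn - nn * hh) := by
      rw [add_mul, mul_add, smul_mul_assoc, smul_mul_assoc, mul_smul_comm, mul_smul_comm,
        smul_sub]
      abel
    rw [h3, map_smul, chi_hn, smul_eq_mul, mul_one, neg_eq_zero] at h1
    rw [h4, map_smul, chi_hn, smul_eq_mul, mul_one] at h2
    rw [h1, h2]
    simp
  have h5 := Submodule.finrank_sup_add_finrank_inf_eq B L
  rw [hdisj, finrank_bot, hL, add_zero] at h5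
  have h6 : Module.finrank k ↥(B ⊔ L) ≤ Module.finrank k A :=
    Submodule.finrank_mono (sup_le hBA hLA)
  change 2 ≤ Module.finrank k A - Module.finrank k B
  omega

end Pool.Agent.H546R3.KW
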