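import Mathlib

set_option autoImplicit false
open scoped DirectSum

namespace Pool.Agent.H546R3.LA

/-- Basis index of the module `M`: a vertex `star`, and for each `g : ℕ → ℕ` two elements. -/
inductive Idx : Type
  | star : Idx
  | one : (ℕ → ℕ) → Idx
  | eps : (ℕ → ℕ) → Idx

noncomputable instance : DecidableEq Idx := Classical.decEq _

/-- Names of the operators. -/
inductive Gen : Type
  | e : Gen
  | E : (ℕ → ℕ) → Gen
  | P : (ℕ → ℕ) → Gen
  | Q : (ℕ → ℕ) → Gen

/-- The ring: the free ring on the names of operators. -/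
abbrev R := FreeAlgebra ℤ Gen

/-- The module `M`. -/
def Mt : Type := Idx →₀ ℤ

noncomputable instance : AddCommGroup Mt := inferInstanceAs (AddCommGroup (Idx →₀ ℤ))

/-- The operators on `M`. -/
noncomputable def op : Gen → Module.End ℤ Mt
  | Gen.e => (Finsupp.lsingle Idx.star : ℤ →ₗ[ℤ] (Idx →₀ ℤ)) ∘ₗ Finsupp.lapply Idx.star
  | Gen.E g => (Finsupp.lsingle (Idx.one g) : ℤ →ₗ[ℤ] (Idx →₀ ℤ)) ∘ₗ Finsupp.lapply (Idx.one g) +
      (Finsupp.lsingle (Idx.eps g) : ℤ →ₗ[ℤ] (Idx →₀ ℤ)) ∘ₗ Finsupp.lapply (Idx.eps g)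
  | Gen.P g => (Finsupp.lsingle Idx.star : ℤ →ₗ[ℤ] (Idx →₀ ℤ)) ∘ₗ Finsupp.lapply (Idx.one g)
  | Gen.Q g => (Finsupp.lsingle (Idx.eps g) : ℤ →ₗ[ℤ] (Idx →₀ ℤ)) ∘ₗ Finsupp.lapply Idx.star

noncomputable instance : Module R Mt :=
  Module.compHom Mt (FreeAlgebra.lift ℤ op).toRingHom

/-- The basis vectors. -/
noncomputable def b (i : Idx) : Mt := (Finsupp.single i 1 : Idx →₀ ℤ)

/-- The coordinates. -/
noncomputable def co (i : Idx) : Mt →+ ℤ := (Finsupp.lapply i : (Idx →₀ ℤ) →ₗ[ℤ] ℤ).toAddMonoidHom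

/-- Generators of the ring. -/
abbrev ge (x : Gen) : R := FreeAlgebra.ι ℤ x

theorem ge_smul (x : Gen) (v : Mt) : ge x • v = op x v := by
  change (FreeAlgebra.lift ℤ op (FreeAlgebra.ι ℤ x)) v = op x v
  rw [FreeAlgebra.lift_ι_apply]

theorem lsingle_eq (i : Idx) (z : ℤ) :
    (Finsupp.lsingle i : ℤ →ₗ[ℤ] (Idx →₀ ℤ)) z = (z • b i : Mt) := by
  change (Finsupp.single i z : Idx →₀ ℤ) = z • (Finsupp.single i 1 : Idx →₀ ℤ)
  simp

theorem e_smul (v : Mt) : ge Gen.e • v = co Idx.star v • b Idx.star := by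
  rw [ge_smul]; exact lsingle_eq _ _

theorem P_smul (g : ℕ → ℕ) (v : Mt) : ge (Gen.P g) • v = co (Idx.one g) v • b Idx.star := by
  rw [ge_smul]; exact lsingle_eq _ _

theorem Q_smul (g : ℕ → ℕ) (v : Mt) : ge (Gen.Q g) • v = co Idx.star v • b (Idx.eps g) := by
  rw [ge_smul]; exact lsingle_eq _ _

theorem E_smul (g : ℕ → ℕ) (v : Mt) : ge (Gen.E g) • v =
    co (Idx.one g) v • b (Idx.one g) + co (Idx.eps g) v • b (Idx.eps g) := by
  rw [ge_smul]
  exact congrArg₂ (· + ·) (lsingle_eq _ _) (lsingle_eq _ _)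

theorem co_b (i j : Idx) : co i (b j) = if j = i then 1 else 0 := by
  change (Finsupp.single j 1 : Idx →₀ ℤ) i = _
  rw [Finsupp.single_apply]

theorem co_b_self (i : Idx) : co i (b i) = 1 := by rw [co_b, if_pos rfl]

theorem co_b_ne {i j : Idx} (h : j ≠ i) : co i (b j) = 0 := by rw [co_b, if_neg h]

/-- An additive map commuting with the generators is linear. -/
theorem map_smul_of_gen {A B : Type} [AddCommGroup A] [Module R A] [AddCommGroup B] [Module R B]
    (f : A →+ B) (h : ∀ (x : Gen) (a : A), f (ge x • a) = ge x • f a) (r : R) (a : A) :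
    f (r • a) = r • f a := by
  induction r using FreeAlgebra.induction generalizing a with
  | grade0 z =>
    rw [eq_intCast (algebraMap ℤ R) z, Int.cast_smul_eq_zsmul, Int.cast_smul_eq_zsmul]
    exact map_zsmul f z a
  | grade1 x => exact h x a
  | mul x y hx hy => rw [mul_smul, mul_smul, hx, hy]
  | add x y hx hy => rw [add_smul, add_smul, map_add, hx, hy]

/-- Linear maps from additive maps commuting with the generators. -/
def mkLin {A B : Type} [AddCommGroup A] [Module R A] [AddCommGroup B] [Module R B]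
    (f : A →+ B) (h : ∀ (x : Gen) (a : A), f (ge x • a) = ge x • f a) : A →ₗ[R] B where
  toFun := f
  map_add' := map_add f
  map_smul' := map_smul_of_gen f h

/-- The additive map `M → M^(ℕ)` sending the basis vector `one g` to `eps g` at place
`g n + 1`, and everything else to zero. -/
noncomputable def Dadd (n : ℕ) : Mt →+ (⨁ _ : ℕ, Mt) :=
  (Finsupp.liftAddHom (fun i : Idx => (zmultiplesHom (⨁ _ : ℕ, Mt)) (match i with
    | Idx.star => 0
    | Idx.one g => DirectSum.of (fun _ : ℕ => Mt) (g n + 1) (b (Idx.eps g))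
    | Idx.eps _ => 0)) : (Idx →₀ ℤ) →+ _)

theorem Dadd_star (n : ℕ) : Dadd n (b Idx.star) = 0 := by
  have := Finsupp.liftAddHom_apply_single (fun i : Idx => (zmultiplesHom (⨁ _ : ℕ, Mt)) (match i with
    | Idx.star => 0
    | Idx.one g => DirectSum.of (fun _ : ℕ => Mt) (g n + 1) (b (Idx.eps g))
    | Idx.eps _ => 0)) Idx.star (1 : ℤ)
  refine this.trans ?_
  simp

theorem Dadd_eps (n : ℕ) (g : ℕ → ℕ) : Dadd n (b (Idx.eps g)) = 0 := by
  have := Finsupp.liftAddHom_apply_single (fun i : Idx => (zmultiplesHom (⨁ _ : ℕ, Mt)) (match i with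
    | Idx.star => 0
    | Idx.one g => DirectSum.of (fun _ : ℕ => Mt) (g n + 1) (b (Idx.eps g))
    | Idx.eps _ => 0)) (Idx.eps g) (1 : ℤ)
  refine this.trans ?_
  simp

theorem Dadd_one (n : ℕ) (g : ℕ → ℕ) : Dadd n (b (Idx.one g)) =
    DirectSum.of (fun _ : ℕ => Mt) (g n + 1) (b (Idx.eps g)) := by
  have := Finsupp.liftAddHom_apply_single (fun i : Idx => (zmultiplesHom (⨁ _ : ℕ, Mt)) (match i with
    | Idx.star => 0
    | Idx.one g => DirectSum.of (fun _ : ℕ => Mt) (g n + 1) (b (Idx.eps g))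
    | Idx.eps _ => 0)) (Idx.one g) (1 : ℤ)
  refine this.trans ?_
  simp

/-- Additive induction on the basis vectors. -/
theorem basis_induction {p : Mt → Prop} (v : Mt) (h0 : p 0) (hadd : ∀ x y, p x → p y → p (x + y))
    (hneg : ∀ x, p x → p (-x)) (hb : ∀ i, p (b i)) : p v := by
  have hz : ∀ (z : ℤ) (i : Idx), p (z • b i) := by
    intro z i
    induction z using Int.induction_on with
    | zero => simpa using h0
    | succ k ih => rw [add_smul, one_smul]; exact hadd _ _ ih (hb i)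
    | pred k ih =>
      rw [sub_smul, one_smul, sub_eq_add_neg]
      exact hadd _ _ ih (hneg _ (hb i))
  refine Finsupp.induction_linear (motive := p) v h0 (fun f g => hadd f g) ?_
  intro i z
  have := hz z i
  rwa [← lsingle_eq] at this

/-- `r • of i m = of i (r • m)`. -/
theorem smul_of (r : R) (i : ℕ) (m : Mt) :
    r • (DirectSum.of (fun _ : ℕ => Mt) i m) = DirectSum.of (fun _ : ℕ => Mt) i (r • m) := by
  exact ((DirectSum.lof R ℕ (fun _ => Mt) i).map_smul r m).symm

theorem D_comm (n : ℕ) (x : Gen) (v : Mt) : Dadd n (ge x • v) = ge x • Dadd n v := by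
  refine basis_induction (p := fun v => Dadd n (ge x • v) = ge x • Dadd n v) v ?_ ?_ ?_ ?_
  · simp
  · intro a c ha hc
    simp only [smul_add, map_add, ha, hc]
  · intro a ha
    simp only [smul_neg, map_neg, ha]
  · intro i
    rcases x with _ | g | g | g
    · -- e
      rw [e_smul, map_zsmul, Dadd_star, smul_zero]
      rcases i with _ | h | h
      · rw [Dadd_star, smul_zero]
      · rw [Dadd_one, smul_of, e_smul, co_b_ne (by simp), zero_smul, map_zero]
      · rw [Dadd_eps, smul_zero]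
    · -- E g
      rw [E_smul, map_add, map_zsmul, map_zsmul, Dadd_one, Dadd_eps, smul_zero, add_zero]
      rcases i with _ | h | h
      · rw [Dadd_star, smul_zero, co_b_ne (by simp), zero_smul]
      · rw [Dadd_one, smul_of, E_smul, co_b_ne (i := Idx.one g) (j := Idx.eps h) (by simp),
          zero_smul, zero_add]
        by_cases hgh : h = g
        · subst hgh
          rw [co_b_self, co_b_self, one_smul, one_smul]
        · rw [co_b_ne (by simpa using hgh), co_b_ne (by simpa using hgh), zero_smul, zero_smul,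
            map_zero]
      · rw [Dadd_eps, smul_zero, co_b_ne (by simp), zero_smul]
    · -- P g
      rw [P_smul, map_zsmul, Dadd_star, smul_zero]
      rcases i with _ | h | h
      · rw [Dadd_star, smul_zero]
      · rw [Dadd_one, smul_of, P_smul, co_b_ne (by simp), zero_smul, map_zero]
      · rw [Dadd_eps, smul_zero]
    · -- Q g
      rw [Q_smul, map_zsmul, Dadd_eps, smul_zero]
      rcases i with _ | h | h
      · rw [Dadd_star, smul_zero]
      · rw [Dadd_one, smul_of, Q_smul, co_b_ne (by simp), zero_smul, map_zero]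
      · rw [Dadd_eps, smul_zero]

/-- The linear version of `Dadd`. -/
noncomputable def D (n : ℕ) : Mt →ₗ[R] (⨁ _ : ℕ, Mt) := mkLin (Dadd n) (D_comm n)

/-- The components of the transition maps. -/
noncomputable def Trf (n : ℕ) : ∀ _ : ℕ, Mt →ₗ[R] (⨁ _ : ℕ, Mt)
  | 0 => DirectSum.lof R ℕ (fun _ => Mt) 0 + DirectSum.lof R ℕ (fun _ => Mt) 0 - D n
  | (k + 1) => DirectSum.lof R ℕ (fun _ => Mt) (k + 1)

/-- The transition maps. -/
noncomputable def Tr (n : ℕ) : (⨁ _ : ℕ, Mt) →ₗ[R] (⨁ _ : ℕ, Mt) :=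
  DirectSum.toModule R ℕ (⨁ _ : ℕ, Mt) (Trf n)

/-- The basis inclusions of the direct sum. -/
noncomputable abbrev inc (i : ℕ) : Mt →ₗ[R] (⨁ _ : ℕ, Mt) := DirectSum.lof R ℕ (fun _ => Mt) i

theorem Tr_zero (n : ℕ) (m : Mt) : Tr n (inc 0 m) = inc 0 m + inc 0 m - Dadd n m := by
  rw [Tr, DirectSum.toModule_lof]
  rfl

theorem Tr_succ (n k : ℕ) (m : Mt) : Tr n (inc (k + 1) m) = inc (k + 1) m := by
  rw [Tr, DirectSum.toModule_lof]
  rfl

end Pool.Agent.H546R3.LA
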