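import Pool.Agent.H546R3.LAmod

set_option autoImplicit false
open CategoryTheory CategoryTheory.Limits
open scoped DirectSum

namespace Pool.Agent.H546R3.LA

/-- The sequence of direct sums. -/
noncomputable def Fn : ℕ ⥤ ModuleCat.{0} R :=
  Functor.ofSequence (X := fun _ => ModuleCat.of R (⨁ _ : ℕ, Mt)) (fun n => ModuleCat.ofHom (Tr n))

theorem Fn_succ (n : ℕ) (v : ⨁ _ : ℕ, Mt) :
    (Fn.map (homOfLE (Nat.le_add_right n 1))).hom v = Tr n v := by
  have h : Fn.map (homOfLE (Nat.le_add_right n 1)) = ModuleCat.ofHom (Tr n) :=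
    Functor.ofSequence_map_homOfLE_succ _ n
  rw [h]
  rfl

/-- The bad module. -/
noncomputable def X : ModuleCat.{0} R := colimit Fn

noncomputable def cX : Cocone Fn := colimit.cocone Fn

noncomputable def hcX : IsColimit cX := colimit.isColimit Fn

/-- Legs from the direct sums. -/
noncomputable def lg (n : ℕ) : (⨁ _ : ℕ, Mt) →ₗ[R] X := leg cX n

theorem lg_succ (n : ℕ) (v : ⨁ _ : ℕ, Mt) : lg (n + 1) (Tr n v) = lg n v := by
  rw [← Fn_succ]
  exact leg_map cX (homOfLE (Nat.le_add_right n 1)) v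

theorem cj_compat (j : ℕ) (i k : ℕ) (f : i ⟶ k) (x : Fn.obj i) :
    cj j ((Fn.map f).hom x) = cj j x := by
  have hik : i ≤ k := leOfHom f
  have hf : f = homOfLE hik := rfl
  rw [hf]
  clear hf f
  induction k, hik using Nat.le_induction with
  | base =>
    have : homOfLE (le_refl i) = 𝟙 i := rfl
    rw [this, Fn.map_id]
    rfl
  | succ n hn ih =>
    have h2 : (homOfLE (Nat.le_succ_of_le hn) : i ⟶ n + 1) =
      homOfLE hn ≫ homOfLE (Nat.le_add_right n 1) := rfl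
    rw [h2, Fn.map_comp]
    have h3 : (Fn.map (homOfLE hn) ≫ Fn.map (homOfLE (Nat.le_add_right n 1))).hom x =
      (Fn.map (homOfLE (Nat.le_add_right n 1))).hom ((Fn.map (homOfLE hn)).hom x) := rfl
    rw [h3]
    have h4 := Fn_succ n ((Fn.map (homOfLE hn)).hom x)
    rw [h4]
    exact (cj_Tr j n _).trans ih

theorem exists_kappa : ∃ κ : ℕ → (X →+ ℤ), ∀ j n (v : ⨁ _ : ℕ, Mt), κ j (lg n v) = cj j v := by
  have : ∀ j : ℕ, ∃ κ : X →+ ℤ, ∀ n (v : ⨁ _ : ℕ, Mt), κ (lg n v) = cj j v := by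
    intro j
    exact exists_addHom hcX (fun _ => cj j) (fun i k f x => cj_compat j i k f x)
  choose κ hκ using this
  exact ⟨κ, hκ⟩

/-- The coordinate functions on `X`. -/
noncomputable def κ : ℕ → (X →+ ℤ) := exists_kappa.choose

theorem κ_lg (j n : ℕ) (v : ⨁ _ : ℕ, Mt) : κ j (lg n v) = cj j v := exists_kappa.choose_spec j n v

theorem lg_surj (x : X) : ∃ n v, lg n v = x := leg_surj hcX x

theorem κ_e (j : ℕ) (x : X) : κ j (ge Gen.e • x) = κ j x := by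
  obtain ⟨n, v, rfl⟩ := lg_surj x
  rw [← map_smul, κ_lg, κ_lg, cj_e]

theorem κ_Q (j : ℕ) (g : ℕ → ℕ) (x : X) (h : ge (Gen.Q g) • x = 0) : κ j x = 0 := by
  obtain ⟨n, v, rfl⟩ := lg_surj x
  rw [← map_smul] at h
  obtain ⟨k, f, hk⟩ := leg_zero hcX _ h
  rw [κ_lg, ← cj_compat j n k f v]
  have h2 : ge (Gen.Q g) • ((Fn.map f).hom v) = 0 :=
    ((Fn.map f).hom.map_smul (ge (Gen.Q g)) v).symm.trans hk
  exact cj_Q j g _ h2

theorem κ_fin (x : X) : ∃ J : ℕ, ∀ j, J ≤ j → κ j x = 0 := by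
  obtain ⟨n, v, rfl⟩ := lg_surj x
  obtain ⟨J, hJ⟩ := cj_fin v
  exact ⟨J, fun j hj => by rw [κ_lg, hJ j hj]⟩

theorem S2_X : S2 X := S2_colim hcX (fun _ => S2_sum (fun _ : ℕ => Mt) (fun _ => S2_M))

/-- The elements `q n`. -/
noncomputable def q (n : ℕ) : X := lg n (inc 0 (b Idx.star))

/-- The lifts of `q n`. -/
noncomputable def Qg (g : ℕ → ℕ) (n : ℕ) : X := lg n (inc 0 (b (Idx.one g)))

theorem lg_inc (n k : ℕ) (m : Mt) : lg n (inc (k + 1) m) = lg 0 (inc (k + 1) m) := by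
  induction n with
  | zero => rfl
  | succ n ih => rw [← ih, ← lg_succ n, Tr_succ]

theorem q_succ (n : ℕ) : q n = q (n + 1) + q (n + 1) := by
  rw [q, ← lg_succ, Tr_zero, Dadd_star, sub_zero, map_add]
  rfl

theorem two_pow_q (n : ℕ) : (2 : ℤ) ^ n • q n = q 0 := by
  induction n with
  | zero => simp
  | succ n ih =>
    rw [← ih, q_succ n, pow_succ, mul_smul]
    congr 1
    rw [two_smul]

/-- The elements in degree `star`. -/
noncomputable def eX (j : ℕ) : X := lg 0 (inc (j + 1) (b Idx.star))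

theorem Q_eX (g : ℕ → ℕ) (n j : ℕ) : lg n (inc (j + 1) (b (Idx.eps g))) = ge (Gen.Q g) • eX j := by
  rw [lg_inc, eX, ← map_smul, ← map_smul, Q_smul, co_b_self, one_smul]

theorem Qg_succ (g : ℕ → ℕ) (n : ℕ) :
    Qg g n = Qg g (n + 1) + Qg g (n + 1) - ge (Gen.Q g) • eX (g n) := by
  rw [Qg, ← lg_succ, Tr_zero, Dadd_one, ← DirectSum.lof_eq_of R, map_sub, map_add, Q_eX]
  rfl

/-- Partial sums. -/
noncomputable def yy (g : ℕ → ℕ) (n : ℕ) : X := ∑ m ∈ Finset.range n, (2 : ℤ) ^ m • eX (g m)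

theorem two_pow_Qg (g : ℕ → ℕ) (n : ℕ) :
    (2 : ℤ) ^ n • Qg g n = Qg g 0 + ge (Gen.Q g) • yy g n := by
  induction n with
  | zero => simp [yy]
  | succ n ih =>
    have h1 : Qg g (n + 1) + Qg g (n + 1) = Qg g n + ge (Gen.Q g) • eX (g n) := by
      rw [Qg_succ g n]; abel
    rw [pow_succ, mul_smul, two_smul, h1, smul_add, ih, yy, yy, Finset.sum_range_succ, smul_add,
      smul_comm ((2 : ℤ) ^ n) (ge (Gen.Q g)) (eX (g n)), add_assoc]

theorem E_Qg (g : ℕ → ℕ) (n : ℕ) : ge (Gen.E g) • Qg g n = Qg g n := by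
  rw [Qg, ← map_smul, ← map_smul, E_smul, co_b_self, co_b_ne (i := Idx.eps g) (by simp)]
  simp

theorem P_Qg (g : ℕ → ℕ) (n : ℕ) : ge (Gen.P g) • Qg g n = q n := by
  rw [Qg, ← map_smul, ← map_smul, P_smul, co_b_self, one_smul]
  rfl

theorem e_q (n : ℕ) : ge Gen.e • q n = q n := by
  rw [q, ← map_smul, ← map_smul, e_smul, co_b_self, one_smul]

theorem E_Q_eX (g : ℕ → ℕ) (j : ℕ) :
    ge (Gen.E g) • (ge (Gen.Q g) • eX j) = ge (Gen.Q g) • eX j := by
  rw [← Q_eX g 0 j, ← map_smul, ← map_smul, E_smul, co_b_self, co_b_ne (i := Idx.one g) (by simp)]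
  simp

theorem E_Q_yy (g : ℕ → ℕ) (n : ℕ) :
    ge (Gen.E g) • (ge (Gen.Q g) • yy g n) = ge (Gen.Q g) • yy g n := by
  rw [yy, Finset.smul_sum, Finset.smul_sum]
  apply Finset.sum_congr rfl
  intro m _
  rw [smul_comm (ge (Gen.Q g)) ((2 : ℤ) ^ m), smul_comm (ge (Gen.E g)) ((2 : ℤ) ^ m), E_Q_eX]

theorem κ_eX (j i : ℕ) : κ j (eX i) = if i = j then 1 else 0 := by
  rw [eX, κ_lg]
  by_cases h : i = j
  · rw [if_pos h, h, cj_inc_self, co_b_self]
  · rw [if_neg h, cj_inc_ne _ _ _ (by omega)]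

theorem κ_yy (g : ℕ → ℕ) (hg : StrictMono g) (n : ℕ) : κ (g n) (yy g (n + 1)) = 2 ^ n := by
  rw [yy, map_sum, Finset.sum_eq_single n]
  · rw [map_zsmul, κ_eX, if_pos rfl]; simp
  · intro m _ hm
    rw [map_zsmul, κ_eX, if_neg (fun h => hm (hg.injective h)), smul_zero]
  · intro h
    exact absurd (Finset.mem_range.mpr (Nat.lt_succ_self n)) h

/-- Bound for maps out of `M`. -/
theorem bound_M (ψ : Mt →ₗ[R] X) : ∃ h : ℕ, ∀ (d : Mt) (j : ℕ), h ≤ j → κ j (ψ d) = 0 := by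
  obtain ⟨J, hJ⟩ := κ_fin (ψ (b Idx.star))
  refine ⟨J, fun d j hj => ?_⟩
  rw [← κ_e, ← map_smul, e_smul, map_zsmul, map_zsmul, hJ j hj, smul_zero]

theorem bound_C {C : Type} [AddCommGroup C] [Module R C] (n : ℕ) (A : Fin n → Type)
    [∀ i, AddCommGroup (A i)] [∀ i, Module R (A i)] (eA : ∀ i, Nonempty (A i ≃ₗ[R] Mt))
    (f : C →ₗ[R] (⨁ i, A i)) (r : (⨁ i, A i) →ₗ[R] C) (hr : r ∘ₗ f = LinearMap.id)
    (φ : C →ₗ[R] X) : ∃ h : ℕ, ∀ (d : C) (j : ℕ), h ≤ j → κ j (φ d) = 0 := by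
  choose h hh using fun i : Fin n =>
    bound_M (((φ.comp r).comp (DirectSum.lof R (Fin n) A i)).comp (eA i).some.symm.toLinearMap)
  refine ⟨∑ i, h i, fun d j hj => ?_⟩
  have key : ∀ w : (⨁ i, A i), κ j (φ (r w)) = 0 := by
    intro w
    induction w using DirectSum.induction_on with
    | zero => simp
    | of i x =>
      have h1 := hh i ((eA i).some x) j
        (le_trans (Finset.single_le_sum (f := h) (fun _ _ => Nat.zero_le _) (Finset.mem_univ i)) hj)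
      have h2 : (eA i).some.symm ((eA i).some x) = x := LinearEquiv.symm_apply_apply _ _
      have h3 : κ j (φ (r (DirectSum.lof R (Fin n) A i ((eA i).some.symm ((eA i).some x))))) = 0 := h1
      rw [h2] at h3
      exact h3
    | add x y hx hy => rw [map_add, map_add, map_add, hx, hy, add_zero]
  have h4 : r (f d) = d := congrArg (fun q : C →ₗ[R] C => q d) hr
  rw [← h4]
  exact key _

theorem S1_of_iso {A : Type} [AddCommGroup A] [Module R A] (e : A ≃ₗ[R] Mt) : S1 A :=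
  S1_retract e.toLinearMap e.symm.toLinearMap (by ext x; simp) S1_M

theorem S2_of_iso {A : Type} [AddCommGroup A] [Module R A] (e : A ≃ₗ[R] Mt) : S2 A :=
  S2_retract e.toLinearMap e.symm.toLinearMap (by ext x; simp) S2_M

/-- `X` is not a direct limit of retracts of finite direct sums of copies of `M`. -/
theorem not_lim_add {J : Type} [SmallCategory J] [IsFiltered J] (F : J ⥤ ModuleCat.{0} R)
    (hF : ∀ j : J, ∃ (n : ℕ) (A : Fin n → ModuleCat.{0} R), (∀ i, Nonempty (A i ≃ₗ[R] Mt)) ∧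
      ∃ (f : (F.obj j : Type) →ₗ[R] DirectSum (Fin n) (fun i => (A i : Type)))
        (g : DirectSum (Fin n) (fun i => (A i : Type)) →ₗ[R] (F.obj j : Type)),
        g ∘ₗ f = LinearMap.id)
    (c : Cocone F) (hc : IsColimit c) (e : c.pt ≃ₗ[R] X) : False := by
  let φ : ∀ a, F.obj a →ₗ[R] X := fun a => e.toLinearMap.comp (leg c a)
  have hφmap : ∀ {i j : J} (f : i ⟶ j) (x : F.obj i), φ j ((F.map f).hom x) = φ i x := by
    intro i j f x
    change e (leg c j ((F.map f).hom x)) = e (leg c i x)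
    rw [leg_map]
  have hφsurj : ∀ w : X, ∃ i x, φ i x = w := by
    intro w
    obtain ⟨i, x, hx⟩ := leg_surj hc (e.symm w)
    refine ⟨i, x, ?_⟩
    change e (leg c i x) = w
    rw [hx, LinearEquiv.apply_symm_apply]
  have hφeq : ∀ {i j : J} (x : F.obj i) (y : F.obj j), φ i x = φ j y →
      ∃ (k : J) (f : i ⟶ k) (g : j ⟶ k), (F.map f).hom x = (F.map g).hom y := by
    intro i j x y h
    exact leg_eq hc x y (e.injective h)
  have hS1 : ∀ j, S1 (F.obj j) := by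
    intro j
    obtain ⟨n, A, hA, f, g, hfg⟩ := hF j
    exact S1_retract f g hfg (S1_sum (fun i => (A i : Type)) (fun i => S1_of_iso (hA i).some))
  have hS2 : ∀ j, S2 (F.obj j) := by
    intro j
    obtain ⟨n, A, hA, f, g, hfg⟩ := hF j
    exact S2_retract f g hfg (S2_sum (fun i => (A i : Type)) (fun i => S2_of_iso (hA i).some))
  have hbound : ∀ j, ∃ h : ℕ, ∀ (d : F.obj j) (k : ℕ), h ≤ k → κ k (φ j d) = 0 := by
    intro j
    obtain ⟨n, A, hA, f, g, hfg⟩ := hF j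
    exact bound_C n (fun i => (A i : Type)) hA f g hfg (φ j)
  -- the uniform data
  obtain ⟨a0, c0, hc0⟩ := hφsurj (q 0)
  have hstep : ∀ n : ℕ, ∃ (a : J) (f : a0 ⟶ a) (cn : F.obj a), φ a cn = q n ∧
      (2 : ℤ) ^ n • cn = (F.map f).hom c0 := by
    intro n
    obtain ⟨a1, c1, hc1⟩ := hφsurj (q n)
    have h1 : φ a1 ((2 : ℤ) ^ n • c1) = φ a0 c0 := by
      rw [map_zsmul, hc1, hc0, two_pow_q]
    obtain ⟨k, f, g, hk⟩ := hφeq _ _ h1
    refine ⟨k, g, (F.map f).hom c1, ?_, ?_⟩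
    · rw [hφmap, hc1]
    · rw [← hk, map_zsmul]
  choose a f cn hcn hcn2 using hstep
  choose h hh using fun n => hbound (a n)
  -- the fast function
  let g : ℕ → ℕ := fun m => m + ∑ i ∈ Finset.range (m + 2), h i
  have hgmono : StrictMono g := by
    apply strictMono_nat_of_lt_succ
    intro m
    change m + ∑ i ∈ Finset.range (m + 2), h i < (m + 1) + ∑ i ∈ Finset.range (m + 1 + 2), h i
    rw [Finset.sum_range_succ _ (m + 2)]
    omega
  have hgh : ∀ m, h (m + 1) ≤ g m := by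
    intro m
    have := Finset.single_le_sum (f := h) (s := Finset.range (m + 2))
      (fun _ _ => Nat.zero_le _) (Finset.mem_range.mpr (Nat.lt_succ_self (m + 1)))
    change h (m + 1) ≤ m + ∑ i ∈ Finset.range (m + 2), h i
    omega
  have hgm : ∀ m, m ≤ g m := fun m => Nat.le_add_right _ _
  -- lifts
  obtain ⟨t0, ht0⟩ := hS1 a0 g c0
  obtain ⟨w0, hw0⟩ := S2_X g (φ a0 t0 - Qg g 0) (by
    rw [smul_sub, ← map_smul, ht0, map_smul, hc0, P_Qg, e_q, sub_self])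
  obtain ⟨J0, hJ0⟩ := κ_fin w0
  let n : ℕ := J0 + 1
  obtain ⟨tn, htn⟩ := hS1 (a n) g (cn n)
  obtain ⟨wn, hwn⟩ := S2_X g (φ (a n) tn - Qg g n) (by
    rw [smul_sub, ← map_smul, htn, map_smul, hcn, P_Qg, e_q, sub_self])
  obtain ⟨dn, hdn⟩ := hS2 (a n) g ((2 : ℤ) ^ n • tn - (F.map (f n)).hom t0) (by
    rw [smul_sub, smul_comm (ge (Gen.P g)) ((2 : ℤ) ^ n), htn, ← (F.map (f n)).hom.map_smul, ht0,
      (F.map (f n)).hom.map_smul, ← hcn2, smul_comm (ge Gen.e) ((2 : ℤ) ^ n), sub_self])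
  have h1 : ge (Gen.Q g) • φ (a n) dn =
      (2 : ℤ) ^ n • (ge (Gen.E g) • φ (a n) tn) - ge (Gen.E g) • φ a0 t0 := by
    rw [← map_smul, ← hdn, map_smul, map_sub, hφmap, map_zsmul, smul_sub,
      smul_comm (ge (Gen.E g)) ((2 : ℤ) ^ n)]
  have h2 : ge (Gen.E g) • φ (a n) tn = Qg g n + ge (Gen.Q g) • wn := by
    rw [smul_sub, E_Qg] at hwn
    rw [← hwn]; abel
  have h3 : ge (Gen.E g) • φ a0 t0 = Qg g 0 + ge (Gen.Q g) • w0 := by
    rw [smul_sub, E_Qg] at hw0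
    rw [← hw0]; abel
  have h4 : ge (Gen.Q g) • (φ (a n) dn - yy g n - (2 : ℤ) ^ n • wn + w0) = 0 := by
    rw [smul_add, smul_sub, smul_sub, h1, h2, h3, smul_add, two_pow_Qg,
      smul_comm (ge (Gen.Q g)) ((2 : ℤ) ^ n)]
    abel
  have h5 := κ_Q (g J0) g _ h4
  rw [map_add, map_sub, map_sub, hJ0 (g J0) (hgm J0), hh n dn (g J0) (hgh J0),
    κ_yy g hgmono J0, map_zsmul] at h5
  have h6 : (2 : ℤ) ^ (J0 + 1) ∣ 2 ^ J0 := by
    refine ⟨-κ (g J0) wn, ?_⟩
    have h7 : (2 : ℤ) ^ n • κ (g J0) wn = 2 ^ (J0 + 1) * κ (g J0) wn := by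
      rw [smul_eq_mul]
    rw [h7] at h5
    linarith
  have h8 := Int.le_of_dvd (by positivity) h6
  have h9 : (2 : ℤ) ^ J0 < 2 ^ (J0 + 1) := by
    apply pow_lt_pow_right₀ (by norm_num) (by omega)
  omega

end Pool.Agent.H546R3.LA
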