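import Pool.Agent.H546R3.LAalg
import Pool.Agent.H546R3.Colim2

set_option autoImplicit false
open CategoryTheory CategoryTheory.Limits
open scoped DirectSum

namespace Pool.Agent.H546R3.LA

/-- Lifting property. -/
def S1 (X : Type) [AddCommGroup X] [Module R X] : Prop :=
  ∀ (g : ℕ → ℕ) (v : X), ∃ u : X, ge (Gen.P g) • u = ge Gen.e • v

/-- Exactness property. -/
def S2 (X : Type) [AddCommGroup X] [Module R X] : Prop :=
  ∀ (g : ℕ → ℕ) (u : X), ge (Gen.P g) • u = 0 → ∃ d : X, ge (Gen.E g) • u = ge (Gen.Q g) • d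

theorem S1_M : S1 Mt := by
  intro g v
  refine ⟨co Idx.star v • b (Idx.one g), ?_⟩
  rw [P_smul, e_smul, map_zsmul, co_b_self]
  simp

theorem b_smul_eq_zero {z : ℤ} {i : Idx} (h : z • b i = 0) : z = 0 := by
  have := congrArg (co i) h
  rw [map_zsmul, co_b_self, map_zero] at this
  simpa using this

theorem S2_M : S2 Mt := by
  intro g u hu
  rw [P_smul] at hu
  have h1 := b_smul_eq_zero hu
  refine ⟨co (Idx.eps g) u • b Idx.star, ?_⟩
  rw [E_smul, Q_smul, h1, map_zsmul, co_b_self]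
  simp

theorem S1_retract {X Y : Type} [AddCommGroup X] [Module R X] [AddCommGroup Y] [Module R Y]
    (f : X →ₗ[R] Y) (r : Y →ₗ[R] X) (h : r ∘ₗ f = LinearMap.id) (hY : S1 Y) : S1 X := by
  intro g v
  obtain ⟨u, hu⟩ := hY g (f v)
  refine ⟨r u, ?_⟩
  rw [← map_smul, hu, map_smul]
  congr 1
  exact congrArg (fun q : X →ₗ[R] X => q v) h

theorem S2_retract {X Y : Type} [AddCommGroup X] [Module R X] [AddCommGroup Y] [Module R Y]
    (f : X →ₗ[R] Y) (r : Y →ₗ[R] X) (h : r ∘ₗ f = LinearMap.id) (hY : S2 Y) : S2 X := by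
  intro g u hu
  obtain ⟨d, hd⟩ := hY g (f u) (by rw [← map_smul, hu, map_zero])
  refine ⟨r d, ?_⟩
  rw [← map_smul, ← hd, map_smul]
  congr 1
  exact (congrArg (fun q : X →ₗ[R] X => q u) h).symm

theorem S1_sum {ι : Type} (A : ι → Type) [∀ i, AddCommGroup (A i)] [∀ i, Module R (A i)]
    (h : ∀ i, S1 (A i)) : S1 (⨁ i, A i) := by
  classical
  intro g v
  induction v using DirectSum.induction_on with
  | zero => exact ⟨0, by simp⟩
  | of i x =>
    obtain ⟨u, hu⟩ := h i g x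
    refine ⟨DirectSum.lof R ι A i u, ?_⟩
    rw [← map_smul, hu, map_smul]
    rfl
  | add x y hx hy =>
    obtain ⟨u, hu⟩ := hx
    obtain ⟨w, hw⟩ := hy
    exact ⟨u + w, by rw [smul_add, smul_add, hu, hw]⟩

theorem S2_sum {ι : Type} (A : ι → Type) [∀ i, AddCommGroup (A i)] [∀ i, Module R (A i)]
    (h : ∀ i, S2 (A i)) : S2 (⨁ i, A i) := by
  classical
  intro g u hu
  have h1 : ∀ i, ge (Gen.P g) • (u i) = 0 := by
    intro i
    have : (ge (Gen.P g) • u) i = ge (Gen.P g) • (u i) := DirectSum.smul_apply _ _ _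
    rw [← this, hu]
    rfl
  choose d hd using fun i => h i g (u i) (h1 i)
  refine ⟨∑ i ∈ DFinsupp.support u, DirectSum.lof R ι A i (d i), ?_⟩
  have h2 : u = ∑ i ∈ DFinsupp.support u, DirectSum.lof R ι A i (u i) :=
    (DirectSum.sum_support_of u).symm
  conv_lhs => rw [h2]
  rw [Finset.smul_sum, Finset.smul_sum]
  apply Finset.sum_congr rfl
  intro i _
  rw [← map_smul, ← map_smul, hd]

theorem S2_colim {J : Type} [SmallCategory J] [IsFiltered J] {F : J ⥤ ModuleCat.{0} R}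
    {c : Cocone F} (hc : IsColimit c) (h : ∀ j, S2 (F.obj j)) : S2 c.pt := by
  intro g x hx
  obtain ⟨i, u, rfl⟩ := leg_surj hc x
  rw [← map_smul] at hx
  obtain ⟨k, f, hk⟩ := leg_zero hc _ hx
  rw [map_smul] at hk
  obtain ⟨d, hd⟩ := h k g _ hk
  refine ⟨leg c k d, ?_⟩
  rw [← leg_map c f u, ← (leg c k).map_smul, hd, (leg c k).map_smul]

/-- The coordinate functions. -/
noncomputable def cj (j : ℕ) : (⨁ _ : ℕ, Mt) →+ ℤ :=
  (co Idx.star).comp (DirectSum.component R ℕ (fun _ => Mt) (j + 1)).toAddMonoidHom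

theorem cj_apply (j : ℕ) (v : ⨁ _ : ℕ, Mt) : cj j v = co Idx.star (v (j + 1)) := rfl

theorem cj_inc_self (j : ℕ) (m : Mt) : cj j (inc (j + 1) m) = co Idx.star m := by
  rw [cj_apply, DirectSum.lof_eq_of, DirectSum.of_eq_same]

theorem cj_inc_ne (j i : ℕ) (m : Mt) (h : i ≠ j + 1) : cj j (inc i m) = 0 := by
  rw [cj_apply, DirectSum.lof_eq_of, DirectSum.of_eq_of_ne _ _ _ h.symm, map_zero]

theorem cj_Dadd (j n : ℕ) (m : Mt) : cj j (Dadd n m) = 0 := by
  refine basis_induction (p := fun m => cj j (Dadd n m) = 0) m ?_ ?_ ?_ ?_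
  · simp
  · intro x y hx hy
    rw [map_add, map_add, hx, hy, add_zero]
  · intro x hx
    rw [map_neg, map_neg, hx, neg_zero]
  · intro i
    rcases i with _ | g | g
    · rw [Dadd_star, map_zero]
    · rw [Dadd_one, ← DirectSum.lof_eq_of R]
      by_cases h : g n + 1 = j + 1
      · rw [h, cj_inc_self, co_b_ne (by simp)]
      · exact cj_inc_ne _ _ _ h
    · rw [Dadd_eps, map_zero]

theorem cj_Tr (j n : ℕ) (v : ⨁ _ : ℕ, Mt) : cj j (Tr n v) = cj j v := by
  induction v using DirectSum.induction_on with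
  | zero => simp
  | of i x =>
    rw [← DirectSum.lof_eq_of R]
    rcases i with _ | k
    · rw [Tr_zero, map_sub, map_add, cj_Dadd, cj_inc_ne _ _ _ (by omega)]
      simp
    · rw [Tr_succ]
  | add x y hx hy => rw [map_add, map_add, map_add, hx, hy]

theorem cj_e (j : ℕ) (v : ⨁ _ : ℕ, Mt) : cj j (ge Gen.e • v) = cj j v := by
  rw [cj_apply, cj_apply, DirectSum.smul_apply, e_smul, map_zsmul, co_b_self]
  simp

theorem cj_Q (j : ℕ) (g : ℕ → ℕ) (v : ⨁ _ : ℕ, Mt) (h : ge (Gen.Q g) • v = 0) : cj j v = 0 := by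
  have h1 : (ge (Gen.Q g) • v) (j + 1) = ge (Gen.Q g) • (v (j + 1)) := DirectSum.smul_apply _ _ _
  rw [h, Q_smul] at h1
  exact b_smul_eq_zero h1.symm

theorem cj_fin (v : ⨁ _ : ℕ, Mt) : ∃ J : ℕ, ∀ j, J ≤ j → cj j v = 0 := by
  induction v using DirectSum.induction_on with
  | zero => exact ⟨0, fun j _ => map_zero _⟩
  | of i x =>
    refine ⟨i, fun j hj => ?_⟩
    rw [← DirectSum.lof_eq_of R]
    exact cj_inc_ne _ _ _ (by omega)
  | add x y hx hy =>
    obtain ⟨J, hJ⟩ := hx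
    obtain ⟨K, hK⟩ := hy
    refine ⟨max J K, fun j hj => ?_⟩
    rw [map_add, hJ j (le_trans (le_max_left _ _) hj), hK j (le_trans (le_max_right _ _) hj),
      add_zero]

end Pool.Agent.H546R3.LA
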