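import Pool.Agent.H546R3.YamB1

set_option autoImplicit false

namespace Pool.Agent.H546R3.Yam

open MvPolynomial

noncomputable section

variable {s : ℕ}

/-- rename by an equivalence preserves the ideal -/
theorem rename_mem (e : ZMod s ≃ ZMod s) (p : PP0 s) (hp : p ∈ II s) :
    rename e p ∈ II s := by
  intro m hm
  have hm' : m = Finsupp.mapDomain e (Finsupp.mapDomain e.symm m) := by
    rw [← Finsupp.mapDomain_comp]
    simp [Finsupp.mapDomain_id]
  rw [hm', coeff_rename_mapDomain e e.injective]
  apply hp
  intro i
  have : Finsupp.mapDomain e.symm m i = m (e i) := by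
    have := Finsupp.mapDomain_apply (f := e.symm) e.symm.injective m (e i)
    rwa [Equiv.symm_apply_apply] at this
  rw [this]
  exact hm _

/-- rename on the quotient -/
def renB (e : ZMod s ≃ ZMod s) : BB s →ₐ[ZMod 2] BB s :=
  Ideal.quotientMapₐ (II s) (rename e) (fun p hp => rename_mem e p hp)

theorem renB_mk (e : ZMod s ≃ ZMod s) (p : PP0 s) : renB e (mk p) = mk (rename e p) := rfl

/-- the cyclic shift -/
def tau0 : BB s ≃ₐ[ZMod 2] BB s :=
  AlgEquiv.ofAlgHom (renB (Equiv.addRight 1)) (renB (Equiv.addRight (1 : ZMod s)).symm)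
    (by
      apply AlgHom.ext
      intro x
      obtain ⟨p, rfl⟩ := mk_surj x
      change renB _ (renB _ (mk p)) = mk p
      rw [renB_mk, renB_mk, rename_rename]
      have h : ∀ f : ZMod s → ZMod s, (∀ i, f i = i) → mk (rename f p) = mk p := by
        intro f hf
        have : f = id := funext hf
        rw [this]
        simp
      apply h
      intro i
      simp)
    (by
      apply AlgHom.ext
      intro x
      obtain ⟨p, rfl⟩ := mk_surj x
      change renB _ (renB _ (mk p)) = mk p
      rw [renB_mk, renB_mk, rename_rename]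
      have h : ∀ f : ZMod s → ZMod s, (∀ i, f i = i) → mk (rename f p) = mk p := by
        intro f hf
        have : f = id := funext hf
        rw [this]
        simp
      apply h
      intro i
      simp)

theorem tau0_mk (p : PP0 s) : tau0 (mk p) = mk (rename (Equiv.addRight (1 : ZMod s)) p) := rfl

theorem tau0_pow_X (i : ℕ) : (tau0 ^ i) (mk (X (0 : ZMod s))) = mk (X ((i : ZMod s))) := by
  induction i with
  | zero => simp
  | succ i ih =>
    rw [pow_succ']
    change tau0 ((tau0 ^ i) (mk (X 0))) = _
    rw [ih, tau0_mk, rename_X]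
    simp

theorem pr0_tau0 (c : ℕ) (x : BB s) : pr0 c (tau0 x) = tau0 (pr0 c x) := by
  obtain ⟨p, rfl⟩ := mk_surj x
  rw [tau0_mk, pr0_mk, pr0_mk, tau0_mk, rename_homogeneousComponent]

/-- the derivation `X_i ↦ X_i ^ 2` -/
def dP : Derivation (ZMod 2) (PP0 s) (PP0 s) := mkDerivation (ZMod 2) (fun i => X i * X i)

theorem dP_X (i : ZMod s) : dP (X i) = X i * X i := mkDerivation_X _ _ _

theorem twoP : (2 : PP0 s) = 0 := by
  have h := congrArg (C : ZMod 2 →+* PP0 s) (show (2 : ZMod 2) = 0 from rfl)
  rw [map_zero, map_ofNat] at h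
  exact h

variable [NeZero s]

theorem dP_monomial (m : ZMod s →₀ ℕ) :
    dP (monomial m (1 : ZMod 2)) = ∑ i, monomial (m + Finsupp.single i 1) ((m i : ℕ) : ZMod 2) := by
  rw [dP, mkDerivation_monomial, one_smul, Finsupp.sum_fintype]
  · apply Finset.sum_congr rfl
    intro i _
    by_cases h : m i = 0
    · rw [h]
      simp
    · rw [smul_eq_mul, X, monomial_mul, monomial_mul]
      congr 1
      · have hle : Finsupp.single i 1 ≤ m := by
          rw [Finsupp.single_le_iff]
          omega
        have h2 : m - Finsupp.single i 1 + (Finsupp.single i 1 + Finsupp.single i 1) =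
            (m - Finsupp.single i 1 + Finsupp.single i 1) + Finsupp.single i 1 := by
          rw [add_assoc]
        rw [h2, tsub_add_cancel_of_le hle]
      · ring
  · intro i
    simp

omit [NeZero s] in
theorem not_box_add {m : ZMod s →₀ ℕ} (h : ¬ box m) (n : ZMod s →₀ ℕ) : ¬ box (m + n) := by
  intro h2
  apply h
  intro i
  exact le_trans (Nat.le_add_right _ _) (h2 i)

/-- the derivation on `B` -/
def d0 : BB s →ₗ[ZMod 2] BB s := desc (dP : Derivation (ZMod 2) (PP0 s) (PP0 s)).toLinearMap (by
  apply mem_of_mono
  intro m hm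
  change dP (monomial m 1) ∈ II s
  rw [dP_monomial]
  apply Ideal.sum_mem
  intro i _
  exact mono_mem (not_box_add hm _) _)

theorem d0_mk (p : PP0 s) : d0 (mk p) = mk (dP p) := rfl

theorem d0_mul (x y : BB s) : d0 (x * y) = d0 x * y + x * d0 y := by
  obtain ⟨p, rfl⟩ := mk_surj x
  obtain ⟨q, rfl⟩ := mk_surj y
  rw [← map_mul, d0_mk, d0_mk, d0_mk, Derivation.leibniz, smul_eq_mul, smul_eq_mul, ← map_mul,
    ← map_mul, ← map_add]
  congr 1
  ring

omit [NeZero s] in
theorem dP_dP (p : PP0 s) : dP (dP p) = 0 := by
  induction p using MvPolynomial.induction_on with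
  | C a => simp [dP]
  | add p q hp hq => rw [map_add, map_add, hp, hq, add_zero]
  | mul_X p i hp =>
    simp only [Derivation.leibniz, smul_eq_mul, map_add, hp, dP_X]
    linear_combination (X i * X i * dP p + p * X i * X i * X i) * (twoP : (2 : PP0 s) = 0)

theorem d0_d0 (x : BB s) : d0 (d0 x) = 0 := by
  obtain ⟨p, rfl⟩ := mk_surj x
  rw [d0_mk, d0_mk, dP_dP]
  exact map_zero _

theorem hc_dP (c : ℕ) (p : PP0 s) :
    homogeneousComponent (c + 1) (dP p) = dP (homogeneousComponent c p) := by
  induction p using MvPolynomial.induction_on' with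
  | monomial m a =>
    have h1 : monomial m a = a • monomial m (1 : ZMod 2) := by
      rw [smul_monomial, smul_eq_mul, mul_one]
    rw [h1, Derivation.map_smul, map_smul, map_smul, Derivation.map_smul]
    congr 1
    rw [homogeneousComponent_of_mem (n := m.degree) (isHomogeneous_monomial _ rfl),
      homogeneousComponent_of_mem (n := m.degree + 1)]
    · by_cases h : c = m.degree
      · rw [if_pos h, if_pos (by omega)]
      · rw [if_neg h, if_neg (by omega), map_zero]
    · rw [dP_monomial]
      apply Submodule.sum_mem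
      intro i _
      apply isHomogeneous_monomial
      rw [map_add, Finsupp.degree_single]
  | add p q hp hq => rw [map_add, map_add, map_add, map_add, hp, hq]

theorem hc_dP_zero (p : PP0 s) : homogeneousComponent 0 (dP p) = 0 := by
  induction p using MvPolynomial.induction_on' with
  | monomial m a =>
    have h1 : monomial m a = a • monomial m (1 : ZMod 2) := by
      rw [smul_monomial, smul_eq_mul, mul_one]
    rw [h1, Derivation.map_smul, map_smul]
    rw [homogeneousComponent_of_mem (n := m.degree + 1)]
    · rw [if_neg (by omega), smul_zero]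
    · rw [dP_monomial]
      apply Submodule.sum_mem
      intro i _
      apply isHomogeneous_monomial
      rw [map_add, Finsupp.degree_single]
  | add p q hp hq => rw [map_add, map_add, hp, hq, add_zero]

theorem d0_pr (c : ℕ) (x : BB s) : pr0 (c + 1) (d0 x) = d0 (pr0 c x) := by
  obtain ⟨p, rfl⟩ := mk_surj x
  rw [d0_mk, pr0_mk, pr0_mk, d0_mk, hc_dP]

theorem d0_pr0 (x : BB s) : pr0 0 (d0 x) = 0 := by
  obtain ⟨p, rfl⟩ := mk_surj x
  rw [d0_mk, pr0_mk, hc_dP_zero]
  exact map_zero _

omit [NeZero s] in
theorem dP_rename (e : ZMod s ≃ ZMod s) (p : PP0 s) : dP (rename e p) = rename e (dP p) := by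
  induction p using MvPolynomial.induction_on with
  | C a => simp [dP]
  | add p q hp hq => simp [hp, hq]
  | mul_X p i hp =>
    simp only [map_mul, rename_X, Derivation.leibniz, smul_eq_mul, map_add, dP_X, hp]

theorem d0_tau0 (x : BB s) : d0 (tau0 x) = tau0 (d0 x) := by
  obtain ⟨p, rfl⟩ := mk_surj x
  rw [tau0_mk, d0_mk, d0_mk, tau0_mk, dP_rename]

/-- partial derivatives on `B` -/
def del (hs : Odd s) (i : ZMod s) : BB s →ₗ[ZMod 2] BB s :=
  desc (pderiv (R := ZMod 2) i).toLinearMap (by
    apply mem_of_mono
    intro m hm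
    change pderiv i (monomial m 1) ∈ II s
    rw [pderiv_monomial, one_mul]
    by_cases h : m i = s + 1
    · have : ((m i : ℕ) : ZMod 2) = 0 := by
        rw [h, ZMod.natCast_eq_zero_iff]
        obtain ⟨t, ht⟩ := hs
        exact ⟨t + 1, by omega⟩
      rw [this, monomial_zero]
      exact Ideal.zero_mem _
    · apply mono_mem
      intro h2
      apply hm
      intro j
      have h3 := h2 j
      rw [Finsupp.tsub_apply] at h3
      by_cases hj : j = i
      · subst hj
        rw [Finsupp.single_eq_same] at h3
        omega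
      · rw [Finsupp.single_eq_of_ne hj] at h3
        omega)

omit [NeZero s] in
theorem del_mk (hs : Odd s) (i : ZMod s) (p : PP0 s) : del hs i (mk p) = mk (pderiv i p) := rfl

theorem del_mul (hs : Odd s) (i : ZMod s) (x y : BB s) :
    del hs i (x * y) = del hs i x * y + x * del hs i y := by
  obtain ⟨p, rfl⟩ := mk_surj x
  obtain ⟨q, rfl⟩ := mk_surj y
  rw [← map_mul, del_mk, del_mk, del_mk, Derivation.leibniz, smul_eq_mul, smul_eq_mul, ← map_mul,
    ← map_mul, ← map_add]
  congr 1
  ring

omit [NeZero s] in
theorem pderiv_dP (i : ZMod s) (p : PP0 s) : pderiv i (dP p) = dP (pderiv i p) := by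
  induction p using MvPolynomial.induction_on with
  | C a => simp [dP]
  | add p q hp hq => simp [hp, hq]
  | mul_X p j hp =>
    have h1 : dP (pderiv i (X j : PP0 s)) = 0 := by
      by_cases h : j = i
      · subst h
        rw [pderiv_X_self, Derivation.map_one_eq_zero]
      · rw [pderiv_X_of_ne h, map_zero]
    simp only [Derivation.leibniz, smul_eq_mul, map_add, hp, dP_X, h1]
    linear_combination (p * X j * pderiv i (X j)) * (twoP : (2 : PP0 s) = 0)

theorem del_d0 (hs : Odd s) (i : ZMod s) (x : BB s) : del hs i (d0 x) = d0 (del hs i x) := by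
  obtain ⟨p, rfl⟩ := mk_surj x
  rw [d0_mk, del_mk, del_mk, d0_mk, pderiv_dP]

omit [NeZero s] in
theorem hc_pderiv (i : ZMod s) (c : ℕ) (p : PP0 s) :
    homogeneousComponent c (pderiv i p) = pderiv i (homogeneousComponent (c + 1) p) := by
  induction p using MvPolynomial.induction_on' with
  | monomial m a =>
    rw [pderiv_monomial]
    by_cases h0 : m i = 0
    · have h1 : pderiv i (monomial m a) = 0 := by
        rw [pderiv_monomial, h0]; simp
      rw [h0]
      simp only [Nat.cast_zero, mul_zero, monomial_zero, map_zero]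
      rw [homogeneousComponent_of_mem (n := m.degree) (isHomogeneous_monomial _ rfl)]
      split_ifs
      · exact h1.symm
      · rw [map_zero]
    · have hle : Finsupp.single i 1 ≤ m := by
        rw [Finsupp.single_le_iff]
        omega
      have hd : (m - Finsupp.single i 1).degree + 1 = m.degree := by
        have : (m - Finsupp.single i 1).degree + (Finsupp.single i 1).degree = m.degree := by
          rw [← map_add, tsub_add_cancel_of_le hle]
        rwa [Finsupp.degree_single] at this
      rw [homogeneousComponent_of_mem (n := m.degree) (isHomogeneous_monomial _ rfl),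
        homogeneousComponent_of_mem (n := (m - Finsupp.single i 1).degree)
          (isHomogeneous_monomial _ rfl)]
      by_cases h : c + 1 = m.degree
      · rw [if_pos h, if_pos (by omega), pderiv_monomial]
      · rw [if_neg h, if_neg (by omega), map_zero]
  | add p q hp hq => rw [map_add, map_add, map_add, map_add, hp, hq]

theorem pr_del (hs : Odd s) (i : ZMod s) (c : ℕ) (x : BB s) :
    pr0 c (del hs i x) = del hs i (pr0 (c + 1) x) := by
  obtain ⟨p, rfl⟩ := mk_surj x
  rw [del_mk, pr0_mk, pr0_mk, del_mk, hc_pderiv]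

end

end Pool.Agent.H546R3.Yam
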