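import Pool.Agent.H546R3.YamEnd

set_option autoImplicit false

namespace Pool.Agent.H546R3.Yam

/-- The property `P m` of the frozen statement. -/
def PP (A : Type) [Ring A] (m : ℕ) : Prop :=
  ∃ (I : ℕ → ModuleCat.{0} A) (ε : A →ₗ[A] I 0)
            (d : ∀ i, I i →ₗ[A] I (i + 1)),
            Function.Injective ε ∧
            (1 < m → Function.Exact ε (d 0)) ∧
            (∀ i, i + 2 < m → Function.Exact (d i) (d (i + 1))) ∧
            ∀ j, j < m → Module.Projective A (I j) ∧ Module.Injective A (I j)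

section Chain

variable {k : Type} [Field k] {R : Type} [Ring R] [Algebra k R]
variable {X : Type} [AddCommGroup X] [Module R X] [Module k X] [IsScalarTower k R X]

/-- action of `a ∈ R` on `G`, as an `End_R(G)`-linear map -/
def act (a : R) : (R × X) →ₗ[Module.End R (R × X)] (R × X) where
  toFun g := a • g
  map_add' := by intro x y; rw [smul_add]
  map_smul' := by
    intro c x
    change a • (c x) = c (a • x)
    rw [map_smul]

theorem act_apply (a : R) (g : R × X) : act a g = a • g := rfl

/-- `ε : A → G × G` -/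
def epsMap (x0 : X) :
    Module.End R (R × X) →ₗ[Module.End R (R × X)] ((R × X) × (R × X)) where
  toFun f := (f (1, 0), f (0, x0))
  map_add' := by intro x y; rfl
  map_smul' := by intro x y; rfl

variable (a : ℕ → R) (x0 : X)

/-- differentials on `G × G` -/
def dd (j : ℕ) :
    ((R × X) × (R × X)) →ₗ[Module.End R (R × X)] ((R × X) × (R × X)) :=
  match j with
  | 0 => (LinearMap.inl _ _ _).comp ((act (a 0)).comp (LinearMap.snd _ _ _))
  | j + 1 => LinearMap.prodMap (act (a (j + 1))) (if Even j then LinearMap.id else 0)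

theorem epsMap_injective (hx0 : ∀ x : X, ∃ r : R, x = r • x0) :
    Function.Injective (epsMap (R := R) x0) := by
  rw [injective_iff_map_eq_zero]
  intro f hf
  have h1 : f (1, 0) = 0 := congrArg Prod.fst hf
  have h2 : f (0, x0) = 0 := congrArg Prod.snd hf
  apply LinearMap.ext
  rintro ⟨r, x⟩
  obtain ⟨s, rfl⟩ := hx0 x
  have : ((r, s • x0) : R × X) = r • (1, 0) + s • (0, x0) := by
    ext <;> simp
  rw [this, map_add, map_smul, map_smul, h1, h2]
  simp

theorem exists_lift (hx0 : ∀ x : X, ∃ r : R, x = r • x0)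
    (hker : ∀ r : R, r • x0 = 0 → ∃ z, r = z * a 0) (g' : R × X) (hg : a 0 • g' = 0) :
    ∃ φ : X →ₗ[R] (R × X), φ x0 = g' := by
  let p : R →ₗ[R] X := LinearMap.toSpanSingleton R X x0
  have hp : Function.Surjective p := by
    intro x
    obtain ⟨r, rfl⟩ := hx0 x
    exact ⟨r, rfl⟩
  let q : R →ₗ[R] (R × X) := LinearMap.toSpanSingleton R (R × X) g'
  have hq : LinearMap.ker p ≤ LinearMap.ker q := by
    intro r hr
    obtain ⟨z, rfl⟩ := hker r hr
    change (z * a 0) • g' = 0
    rw [mul_smul, hg, smul_zero]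
  refine ⟨((LinearMap.ker p).liftQ q hq).comp
    (p.quotKerEquivOfSurjective hp).symm.toLinearMap, ?_⟩
  have h1 : (p.quotKerEquivOfSurjective hp).symm x0 = Submodule.Quotient.mk 1 := by
    rw [LinearEquiv.symm_apply_eq]
    change x0 = p 1
    change x0 = (1 : R) • x0
    rw [one_smul]
  rw [LinearMap.comp_apply]
  change ((LinearMap.ker p).liftQ q hq) ((p.quotKerEquivOfSurjective hp).symm x0) = _
  rw [h1]
  change q 1 = g'
  change (1 : R) • g' = g'
  rw [one_smul]

theorem exact_eps (hx0 : ∀ x : X, ∃ r : R, x = r • x0)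
    (hker : ∀ r : R, r • x0 = 0 ↔ ∃ z, r = z * a 0) :
    Function.Exact (epsMap x0) (dd (R := R) (X := X) a 0) := by
  rintro ⟨g, g'⟩
  have h0 : a 0 • x0 = 0 := (hker _).mpr ⟨1, by rw [one_mul]⟩
  constructor
  · intro h
    have h1 : a 0 • g' = 0 := congrArg Prod.fst h
    obtain ⟨φ, hφ⟩ := exists_lift a x0 hx0 (fun r => (hker r).mp) g' h1
    refine ⟨(LinearMap.toSpanSingleton R (R × X) g).comp (LinearMap.fst R R X) +
      φ.comp (LinearMap.snd R R X), ?_⟩
    apply Prod.ext
    · change (1 : R) • g + φ 0 = g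
      rw [one_smul, map_zero, add_zero]
    · change (0 : R) • g + φ x0 = g'
      rw [zero_smul, zero_add, hφ]
  · rintro ⟨f, hf⟩
    have h2 : f (0, x0) = g' := congrArg Prod.snd hf
    apply Prod.ext
    · change a 0 • g' = 0
      rw [← h2, ← map_smul]
      have : (a 0 • ((0, x0) : R × X)) = 0 := by
        apply Prod.ext
        · simp
        · exact h0
      rw [this, map_zero]
    · rfl

/-- exactness of `a_j, a_{j+1}` on `G` -/
def EE (X : Type) [AddCommGroup X] [Module R X] (j : ℕ) : Prop :=
  ∀ g : R × X, a (j + 1) • g = 0 → ∃ g', g = a j • g'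

theorem exact_dd (haa : ∀ j, a (j + 1) * a j = 0) (j : ℕ) (hE : EE a X j) :
    Function.Exact (dd (R := R) (X := X) a j) (dd a (j + 1)) := by
  rintro ⟨g, g'⟩
  cases j with
  | zero =>
    constructor
    · intro h
      have h1 : a 1 • g = 0 := congrArg Prod.fst h
      have h2 : g' = 0 := congrArg Prod.snd h
      obtain ⟨y, hy⟩ := hE g h1
      exact ⟨(0, y), Prod.ext hy.symm h2.symm⟩
    · rintro ⟨⟨y, y'⟩, hy⟩
      have h1 : a 0 • y' = g := congrArg Prod.fst hy
      have h2 : 0 = g' := congrArg Prod.snd hy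
      apply Prod.ext
      · change a 1 • g = 0
        rw [← h1, smul_smul, haa, zero_smul]
      · exact h2.symm
  | succ j =>
    by_cases hj : Even j
    · have hj1 : ¬ Even (j + 1) := by
        rw [Nat.even_add_one]; exact not_not.mpr hj
      constructor
      · intro h
        have h1 : a (j + 1 + 1) • g = 0 := congrArg Prod.fst h
        obtain ⟨y, hy⟩ := hE g h1
        refine ⟨(y, g'), Prod.ext hy.symm ?_⟩
        simp [dd, hj]
      · rintro ⟨⟨y, y'⟩, hy⟩
        have h1 : a (j + 1) • y = g := congrArg Prod.fst hy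
        apply Prod.ext
        · change a (j + 1 + 1) • g = 0
          rw [← h1, smul_smul, haa, zero_smul]
        · simp [dd, hj1]
    · have hj1 : Even (j + 1) := Nat.even_add_one.mpr hj
      constructor
      · intro h
        have h1 : a (j + 1 + 1) • g = 0 := congrArg Prod.fst h
        have h2 : g' = 0 := by
          have := congrArg Prod.snd h
          simpa [dd, hj1] using this
        obtain ⟨y, hy⟩ := hE g h1
        refine ⟨(y, 0), Prod.ext hy.symm ?_⟩
        simp [dd, h2]
      · rintro ⟨⟨y, y'⟩, hy⟩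
        have h1 : a (j + 1) • y = g := congrArg Prod.fst hy
        have h2 : 0 = g' := by
          have := congrArg Prod.snd hy
          simpa [dd, hj] using this
        apply Prod.ext
        · change a (j + 1 + 1) • g = 0
          rw [← h1, smul_smul, haa, zero_smul]
        · simp [dd, ← h2]

variable [FiniteDimensional k R] [FiniteDimensional k X]
variable (lam : R →ₗ[k] k) (hlam : ∀ r, (∀ r', lam (r' * r) = 0) → r = 0)

include hlam in
theorem inj_GG : Module.Injective (Module.End R (R × X)) ((R × X) × (R × X)) := by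
  have h := inj_G (X := X) lam hlam
  constructor
  intro U V _ _ _ _ i hi g
  obtain ⟨h1, hh1⟩ := h.out i hi ((LinearMap.fst _ _ _).comp g)
  obtain ⟨h2, hh2⟩ := h.out i hi ((LinearMap.snd _ _ _).comp g)
  refine ⟨h1.prod h2, ?_⟩
  intro x
  exact Prod.ext (hh1 x) (hh2 x)

include hlam in
theorem PP_pos (haa : ∀ j, a (j + 1) * a j = 0)
    (hx0 : ∀ x : X, ∃ r : R, x = r • x0)
    (hker : ∀ r : R, r • x0 = 0 ↔ ∃ z, r = z * a 0)
    (m : ℕ) (hE : ∀ j, j + 2 < m → EE a X j) :
    PP (Module.End R (R × X)) m := by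
  refine ⟨fun _ => ModuleCat.of _ ((R × X) × (R × X)), epsMap x0, dd a,
    epsMap_injective x0 hx0, fun _ => exact_eps a x0 hx0 hker,
    fun i hi => exact_dd a haa i (hE i hi), fun j _ => ⟨?_, inj_GG lam hlam⟩⟩
  change Module.Projective _ ((R × X) × (R × X))
  infer_instance

end Chain

section Neg

variable {k : Type} [Field k] {R : Type} [Ring R] [Algebra k R]
variable {X : Type} [AddCommGroup X] [Module R X] [Module k X] [IsScalarTower k R X]
variable (a : ℕ → R) (x0 : X)
variable [FiniteDimensional k R] [FiniteDimensional k X]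
variable (lam : R →ₗ[k] k) (hlam : ∀ r, (∀ r', lam (r' * r) = 0) → r = 0)

/-- image of `a_j` on `G` -/
def KK (j : ℕ) : Submodule (Module.End R (R × X)) (R × X) := LinearMap.range (act (a j))

include hlam in
theorem W_chain_down (haa : ∀ j, a (j + 1) * a j = 0) (t : ℕ) (hE : ∀ j, j < t → EE a X j)
    (h0 : W (e0 : Module.End R (R × X)) (t + 1) (ModuleCat.of _ (KK (X := X) a 0))) :
    ∀ j n, j + n = t + 1 → j ≤ t → W (e0 : Module.End R (R × X)) n (ModuleCat.of _ (KK (X := X) a j)) := by
  intro j
  induction j with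
  | zero =>
    intro n hn _
    have : n = t + 1 := by omega
    subst this
    exact h0
  | succ j ih =>
    intro n hn hj
    have h1 := ih (n + 1) (by omega) (by omega)
    have hinj := inj_G (X := X) lam hlam
    refine W_down (e0 : Module.End R (R × X)) (M := KK (X := X) a j) (I := R × X)
      (C := KK (X := X) a (j + 1)) (KK (X := X) a j).subtype (act (a (j + 1))).rangeRestrict
      Subtype.val_injective (LinearMap.surjective_rangeRestrict _) ?_ (TF_G lam hlam) n h1
    intro g
    constructor
    · intro h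
      have h2 : a (j + 1) • g = 0 := congrArg Subtype.val h
      obtain ⟨g', hg'⟩ := hE j (by omega) g h2
      exact ⟨⟨g, ⟨g', hg'.symm⟩⟩, rfl⟩
    · rintro ⟨⟨y, ⟨z, hz⟩⟩, rfl⟩
      apply Subtype.ext
      change a (j + 1) • y = 0
      rw [← hz, act_apply, smul_smul, haa, zero_smul]

include hlam in
theorem EE_of_PP (haa : ∀ j r, a (j + 1) * r = 0 ↔ ∃ r', r = a j * r')
    (hx0 : ∀ x : X, ∃ r : R, x = r • x0)
    (hker : ∀ r : R, r • x0 = 0 ↔ ∃ z, r = z * a 0)
    (hPP : ∀ m, PP (Module.End R (R × X)) m) : ∀ t, EE a X t := by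
  have haa' : ∀ j, a (j + 1) * a j = 0 := fun j => (haa j (a j)).mpr ⟨1, by rw [mul_one]⟩
  intro t
  induction t using Nat.strong_induction_on with
  | _ t ih =>
    obtain ⟨I, ε, d, hε, h0, h1, h2⟩ := hPP (t + 3)
    have hW : W (e0 : Module.End R (R × X)) (t + 2) (ModuleCat.of _ (Module.End R (R × X))) := by
      apply W_of_chain (e0 : Module.End R (R × X)) (t + 2) _ I ε d hε
      · intro _; exact h0 (by omega)
      · intro i hi; exact h1 i (by omega)
      · intro j hj
        have := (h2 j (by omega)).1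
        exact ⟨(h2 j (by omega)).2, TF_of_projective lam hlam (I j)⟩
    have hinjGG := inj_GG (X := X) lam hlam
    have hinj := inj_G (X := X) lam hlam
    have hTFGG : TF (e0 : Module.End R (R × X)) ((R × X) × (R × X)) := by
      intro x hx
      apply Prod.ext
      · exact TF_G lam hlam x.1 (fun f => congrArg Prod.fst (hx f))
      · exact TF_G lam hlam x.2 (fun f => congrArg Prod.snd (hx f))
    have hK0 : W (e0 : Module.End R (R × X)) (t + 1) (ModuleCat.of _ (KK (X := X) a 0)) := by
      refine W_down (e0 : Module.End R (R × X)) (M := Module.End R (R × X))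
        (I := (R × X) × (R × X)) (C := KK (X := X) a 0) (epsMap x0)
        ((act (a 0)).rangeRestrict.comp (LinearMap.snd _ _ _)) (epsMap_injective x0 hx0)
        ?_ ?_ hTFGG (t + 1) hW
      · rintro ⟨y, ⟨z, hz⟩⟩
        exact ⟨(0, z), Subtype.ext hz⟩
      · intro g
        have := exact_eps a x0 hx0 hker g
        rw [← this]
        constructor
        · intro h
          have h3 : a 0 • g.2 = 0 := congrArg Subtype.val h
          exact Prod.ext h3 rfl
        · intro h
          have h3 : a 0 • g.2 = 0 := congrArg Prod.fst h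
          exact Subtype.ext h3
    have hKt := W_chain_down (X := X) a lam hlam haa' t ih hK0 t 1 rfl le_rfl
    have hQ : W (e0 : Module.End R (R × X)) 0 (ModuleCat.of _ ((R × X) ⧸ KK (X := X) a t)) := by
      refine W_down (e0 : Module.End R (R × X)) (M := KK (X := X) a t) (I := R × X)
        (C := (R × X) ⧸ KK (X := X) a t) (KK (X := X) a t).subtype (KK (X := X) a t).mkQ
        Subtype.val_injective (Submodule.mkQ_surjective _) ?_ (TF_G lam hlam) 0 hKt
      intro g
      rw [Submodule.mkQ_apply, Submodule.Quotient.mk_eq_zero]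
      constructor
      · intro h; exact ⟨⟨g, h⟩, rfl⟩
      · rintro ⟨y, rfl⟩; exact y.2
    have hTF := TF_of_W_zero _ _ hQ
    intro g hg
    have h3 : (Submodule.Quotient.mk g : (R × X) ⧸ KK (X := X) a t) = 0 := by
      apply hTF
      intro f
      change (Submodule.Quotient.mk ((e0 * f) • g) : (R × X) ⧸ KK (X := X) a t) = 0
      rw [Submodule.Quotient.mk_eq_zero]
      have h4 : a (t + 1) * (f g).1 = 0 := by
        have : a (t + 1) • f g = 0 := by rw [← map_smul, hg, map_zero]
        exact congrArg Prod.fst this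
      obtain ⟨r', hr'⟩ := (haa t _).mp h4
      refine ⟨(r', 0), ?_⟩
      apply Prod.ext
      · exact hr'.symm
      · change a t • (0 : X) = 0
        rw [smul_zero]
    rw [Submodule.Quotient.mk_eq_zero] at h3
    obtain ⟨g', hg'⟩ := h3
    exact ⟨g', hg'.symm⟩

include hlam in
theorem not_PP (haa : ∀ j r, a (j + 1) * r = 0 ↔ ∃ r', r = a j * r')
    (hx0 : ∀ x : X, ∃ r : R, x = r • x0)
    (hker : ∀ r : R, r • x0 = 0 ↔ ∃ z, r = z * a 0)
    (π : R →+* k) (hπ : ∀ j, π (a j) = 0) (N : ℕ) (hN : a (N + 1) = a 0) :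
    ¬ (∀ m, PP (Module.End R (R × X)) m) := by
  intro hPP
  have hE := EE_of_PP a x0 lam hlam haa hx0 hker hPP N
  have h0 : a 0 • x0 = 0 := (hker _).mpr ⟨1, by rw [one_mul]⟩
  obtain ⟨⟨r', x'⟩, hg'⟩ := hE (0, x0) (by
    rw [hN]
    apply Prod.ext
    · change a 0 * 0 = 0
      rw [mul_zero]
    · exact h0)
  have h1 : x0 = a N • x' := congrArg Prod.snd hg'
  obtain ⟨r, rfl⟩ := hx0 x'
  have h2 : (1 - a N * r) • x0 = 0 := by
    rw [sub_smul, one_smul, mul_smul, ← h1, sub_self]
  obtain ⟨z, hz⟩ := (hker _).mp h2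
  have h3 := congrArg π hz
  rw [map_sub, map_one, map_mul, map_mul, hπ, hπ] at h3
  simp at h3

end Neg

end Pool.Agent.H546R3.Yam
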