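import Pool.Agent.H546R3.YamExt

set_option autoImplicit false

namespace Pool.Agent.H546R3.Yam

section Frob

variable {k : Type} [Field k] {R : Type} [Ring R] [Algebra k R] [FiniteDimensional k R]
variable (lam : R →ₗ[k] k)

/-- the pairing map `r ↦ (r' ↦ lam (r' r))` -/
def pairing : R →ₗ[k] (R →ₗ[k] k) where
  toFun r :=
    { toFun := fun r' => lam (r' * r)
      map_add' := by intro a b; rw [add_mul, map_add]
      map_smul' := by intro c a; simp }
  map_add' := by intro a b; ext r'; simp [mul_add]
  map_smul' := by intro c a; ext r'; simp

theorem pairing_bij (hlam : ∀ r, (∀ r', lam (r' * r) = 0) → r = 0) :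
    Function.Bijective (pairing lam) := by
  have hinj : Function.Injective (pairing lam) := by
    rw [injective_iff_map_eq_zero]
    intro r hr
    apply hlam
    intro r'
    exact LinearMap.congr_fun hr r'
  refine ⟨hinj, ?_⟩
  rw [← LinearMap.range_eq_top]
  have : Module.finrank k R = Module.finrank k (R →ₗ[k] k) := (Subspace.dual_finrank_eq).symm
  exact LinearMap.range_eq_top.mpr
    ((LinearMap.injective_iff_surjective_of_finrank_eq_finrank this).mp hinj)

variable (hlam : ∀ r, (∀ r', lam (r' * r) = 0) → r = 0)
variable {Y : Type} [AddCommGroup Y] [Module R Y] [Module k Y] [IsScalarTower k R Y]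

include hlam in
theorem exists_hom (θ : Y →ₗ[k] k) : ∃ f : Y →ₗ[R] R, ∀ y, lam (f y) = θ y := by
  let β := LinearEquiv.ofBijective (pairing lam) (pairing_bij lam hlam)
  let t : Y → (R →ₗ[k] k) := fun y =>
    { toFun := fun r' => θ (r' • y)
      map_add' := by intro a b; rw [add_smul, map_add]
      map_smul' := by intro c a; simp }
  have hβ : ∀ y r', lam (r' * β.symm (t y)) = θ (r' • y) := by
    intro y r'
    have := LinearMap.congr_fun (β.apply_symm_apply (t y)) r'
    exact this
  have huniq : ∀ a b : R, (∀ r', lam (r' * a) = lam (r' * b)) → a = b := by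
    intro a b h
    rw [← sub_eq_zero]
    apply hlam
    intro r'
    rw [mul_sub, map_sub, h, sub_self]
  refine ⟨{ toFun := fun y => β.symm (t y), map_add' := ?_, map_smul' := ?_ }, ?_⟩
  · intro a b
    apply huniq
    intro r'
    rw [mul_add, map_add, hβ, hβ, hβ, smul_add, map_add]
  · intro a y
    apply huniq
    intro r'
    rw [hβ, RingHom.id_apply, smul_eq_mul, ← mul_assoc, hβ, mul_smul]
  · intro y
    have := hβ y 1
    rw [one_mul, one_smul] at this
    exact this

include hlam in
theorem hom_ext_lam (f : Y →ₗ[R] R) (h : ∀ y, lam (f y) = 0) : f = 0 := by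
  ext y
  apply hlam
  intro r'
  rw [← smul_eq_mul, ← map_smul]
  exact h _

variable [FiniteDimensional k Y]

/-- evaluation -/
def evalMap : Y →ₗ[k] ((Y →ₗ[R] R) →ₗ[k] k) where
  toFun y :=
    { toFun := fun f => lam (f y)
      map_add' := by intro a b; simp
      map_smul' := by intro c a; simp }
  map_add' := by intro a b; ext f; simp
  map_smul' := by
    intro c a; ext f
    have : f (c • a) = c • f a := by
      rw [← algebraMap_smul R c a, map_smul, algebraMap_smul]
    simp [this]

include hlam in
theorem evalMap_bij : Function.Bijective (evalMap (R := R) (Y := Y) lam) := by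
  have hinj : Function.Injective (evalMap (R := R) (Y := Y) lam) := by
    rw [injective_iff_map_eq_zero]
    intro y hy
    by_contra hne
    obtain ⟨φ, hφ⟩ : ∃ φ : Module.Dual k Y, φ y ≠ 0 := by
      by_contra hcon
      push Not at hcon
      exact hne ((Module.forall_dual_apply_eq_zero_iff k y).mp hcon)
    obtain ⟨f, hf⟩ := exists_hom lam hlam φ
    apply hφ
    rw [← hf]
    exact LinearMap.congr_fun hy f
  refine ⟨hinj, ?_⟩
  let c : (Y →ₗ[R] R) →ₗ[k] (Y →ₗ[k] k) :=
    { toFun := fun f =>
        { toFun := fun y => lam (f y)
          map_add' := by intro a b; simp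
          map_smul' := by
            intro c a
            have : f (c • a) = c • f a := by
              rw [← algebraMap_smul R c a, map_smul, algebraMap_smul]
            simp [this] }
      map_add' := by intro a b; ext y; simp
      map_smul' := by intro c a; ext y; simp }
  have hc : Function.Bijective c := by
    constructor
    · rw [injective_iff_map_eq_zero]
      intro f hf
      exact hom_ext_lam lam hlam f (fun y => LinearMap.congr_fun hf y)
    · intro θ
      obtain ⟨f, hf⟩ := exists_hom lam hlam θ
      exact ⟨f, LinearMap.ext hf⟩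
  let ce := LinearEquiv.ofBijective c hc
  have : FiniteDimensional k (Y →ₗ[R] R) := LinearEquiv.finiteDimensional ce.symm
  have h1 : Module.finrank k Y = Module.finrank k ((Y →ₗ[R] R) →ₗ[k] k) := by
    have e1 : Module.finrank k ((Y →ₗ[R] R) →ₗ[k] k) = Module.finrank k (Y →ₗ[R] R) :=
      Subspace.dual_finrank_eq
    have e2 : Module.finrank k (Y →ₗ[k] k) = Module.finrank k Y := Subspace.dual_finrank_eq
    rw [e1, ce.finrank_eq, e2]
  exact (LinearMap.injective_iff_surjective_of_finrank_eq_finrank h1).mp hinj

end Frob

section EndRing

variable {k : Type} [Field k] {R : Type} [Ring R] [Algebra k R]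
variable {X : Type} [AddCommGroup X] [Module R X] [Module k X] [IsScalarTower k R X]

/-- projection idempotent onto `R` -/
def e0 : Module.End R (R × X) := (LinearMap.inl R R X).comp (LinearMap.fst R R X)

/-- extension of `f : G → R` to an endomorphism of `G` -/
def hat (f : (R × X) →ₗ[R] R) : Module.End R (R × X) := (LinearMap.inl R R X).comp f

theorem e0_mul (a : Module.End R (R × X)) : e0 * a = hat ((LinearMap.fst R R X).comp a) := rfl

theorem hat_mul (f : (R × X) →ₗ[R] R) (a : Module.End R (R × X)) :
    hat f * a = hat (f.comp a) := rfl

theorem e0_hat (f : (R × X) →ₗ[R] R) : e0 * hat f = hat f := rfl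

instance proj_G : Module.Projective (Module.End R (R × X)) (R × X) := by
  let s : (R × X) →ₗ[Module.End R (R × X)] Module.End R (R × X) :=
    { toFun := fun g =>
        { toFun := fun y => y.1 • g
          map_add' := by intro a b; simp [add_smul]
          map_smul' := by intro c a; simp [mul_smul] }
      map_add' := by intro a b; ext y <;> simp
      map_smul' := by
        intro c a
        apply LinearMap.ext
        intro y
        change y.1 • (c a) = c (y.1 • a)
        rw [map_smul] }
  let p : Module.End R (R × X) →ₗ[Module.End R (R × X)] (R × X) :=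
    { toFun := fun f => f (1, 0)
      map_add' := by intro a b; rfl
      map_smul' := by intro a b; rfl }
  apply Module.Projective.of_split s p
  apply LinearMap.ext
  intro g
  change (1 : R) • g = g
  rw [one_smul]

variable [FiniteDimensional k R] [FiniteDimensional k X]
variable (lam : R →ₗ[k] k) (hlam : ∀ r, (∀ r', lam (r' * r) = 0) → r = 0)

include hlam in
theorem inj_G : Module.Injective (Module.End R (R × X)) (R × X) := by
  constructor
  intro U V _ _ _ _ i hi g
  letI : Module k U := Module.compHom U (algebraMap k (Module.End R (R × X)))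
  letI : Module k V := Module.compHom V (algebraMap k (Module.End R (R × X)))
  have hU : ∀ (c : k) (u : U), c • u = (algebraMap k (Module.End R (R × X)) c) • u :=
    fun c u => rfl
  have hV : ∀ (c : k) (u : V), c • u = (algebraMap k (Module.End R (R × X)) c) • u :=
    fun c u => rfl
  let ik : U →ₗ[k] V :=
    { toFun := i
      map_add' := i.map_add
      map_smul' := by intro c u; rw [hU, map_smul, RingHom.id_apply, hV] }
  let θ0 : U →ₗ[k] k :=
    { toFun := fun u => lam (g u).1
      map_add' := by intro a b; simp
      map_smul' := by
        intro c u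
        have : g (c • u) = c • g u := by
          rw [hU, map_smul]
          rfl
        rw [this]
        simp }
  obtain ⟨q, hq⟩ := LinearMap.exists_leftInverse_of_injective ik (LinearMap.ker_eq_bot.mpr hi)
  let θ : V →ₗ[k] k := θ0.comp q
  have hθ : ∀ u, θ (i u) = lam (g u).1 := by
    intro u
    have : q (ik u) = u := LinearMap.congr_fun hq u
    change θ0 (q (ik u)) = _
    rw [this]
    rfl
  let β := LinearEquiv.ofBijective (evalMap (R := R) (Y := R × X) lam) (evalMap_bij lam hlam)
  let t : V → (((R × X) →ₗ[R] R) →ₗ[k] k) := fun v =>
    { toFun := fun f => θ (hat f • v)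
      map_add' := by
        intro a b
        rw [← map_add, ← add_smul]
        congr 2
        ext y <;> simp [hat]
      map_smul' := by
        intro c a
        rw [RingHom.id_apply, ← map_smul, hV, ← mul_smul]
        congr 2
        ext y <;> simp [hat] }
  have hβ : ∀ v (f : (R × X) →ₗ[R] R), lam (f (β.symm (t v))) = θ (hat f • v) := by
    intro v f
    exact LinearMap.congr_fun (β.apply_symm_apply (t v)) f
  have huniq : ∀ a b : R × X, (∀ f : (R × X) →ₗ[R] R, lam (f a) = lam (f b)) → a = b := by
    intro a b h
    apply (evalMap_bij (R := R) (Y := R × X) lam hlam).1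
    ext f
    exact h f
  refine ⟨{ toFun := fun v => β.symm (t v), map_add' := ?_, map_smul' := ?_ }, ?_⟩
  · intro a b
    apply huniq
    intro f
    rw [map_add, map_add, hβ, hβ, hβ, smul_add, map_add]
  · intro a v
    apply huniq
    intro f
    rw [hβ, RingHom.id_apply, ← mul_smul, hat_mul, ← hβ]
    rfl
  · intro u
    apply huniq
    intro f
    change lam (f (β.symm (t (i u)))) = _
    rw [hβ, ← map_smul, hθ, map_smul]
    rfl

include hlam in
theorem TF_G : TF (e0 : Module.End R (R × X)) (R × X) := by
  intro g hg
  apply (evalMap_bij (R := R) (Y := R × X) lam hlam).1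
  rw [map_zero]
  ext f
  have := hg (hat f)
  rw [e0_hat] at this
  change lam (f g) = 0
  have h2 : f g = 0 := congrArg Prod.fst this
  rw [h2, map_zero]

include hlam in
theorem TF_A : TF (e0 : Module.End R (R × X)) (Module.End R (R × X)) := by
  intro x hx
  apply LinearMap.ext
  intro g
  apply TF_G lam hlam
  intro f
  exact LinearMap.congr_fun (hx f) g

include hlam in
theorem TF_of_projective (M : Type) [AddCommGroup M] [Module (Module.End R (R × X)) M]
    [Module.Projective (Module.End R (R × X)) M] : TF (e0 : Module.End R (R × X)) M := by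
  intro x hx
  obtain ⟨s, hs⟩ := (Module.projective_def' (R := Module.End R (R × X)) (P := M)).mp inferInstance
  have h0 : s x = 0 := by
    ext m : 1
    apply TF_A lam hlam
    intro f
    have h1 : (e0 * f) • s x = 0 := by rw [← map_smul, hx, map_zero]
    exact DFunLike.congr_fun h1 m
  have := LinearMap.congr_fun hs x
  simp only [LinearMap.comp_apply, LinearMap.id_apply] at this
  rw [← this, h0, map_zero]

end EndRing

end Pool.Agent.H546R3.Yam
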