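import Mathlib

set_option autoImplicit false

namespace Pool.Agent.H546R3.Yam

open CategoryTheory CategoryTheory.Abelian

variable {A : Type} [Ring A] (e : A)

/-- `M` has no nonzero element killed by `e A`. -/
def TF (M : Type) [AddCommGroup M] [Module A M] : Prop :=
  ∀ x : M, (∀ f : A, (e * f) • x = 0) → x = 0

/-- `Ext^n(N, M) = 0` for all `N` killed by `e`. -/
def W (n : ℕ) (M : ModuleCat.{0} A) : Prop :=
  ∀ N : ModuleCat.{0} A, (∀ x : N, e • x = 0) → ∀ x : Ext N M n, x = 0

theorem W_zero_of_TF (M : ModuleCat.{0} A) (h : TF e M) : W e 0 M := by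
  intro N hN x
  obtain ⟨g, rfl⟩ := Ext.homEquiv₀.symm.surjective x
  have hg : g = 0 := by
    ext y
    apply h
    intro f
    have : (e * f) • (g.hom y) = g.hom (e • (f • y)) := by
      rw [map_smul, map_smul, mul_smul]
    rw [this, hN, map_zero]
  subst hg
  exact Ext.mk₀_zero _ _

theorem TF_of_W_zero (M : ModuleCat.{0} A) (h : W e 0 M) : TF e M := by
  intro x hx
  let N : Submodule A M := Submodule.span A {x}
  have hN : ∀ y : (ModuleCat.of A N : ModuleCat.{0} A), e • y = 0 := by
    intro y
    obtain ⟨y, hy⟩ := y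
    obtain ⟨a, rfl⟩ := Submodule.mem_span_singleton.mp hy
    apply Subtype.ext
    change e • (a • x) = 0
    rw [← mul_smul]
    exact hx a
  have h1 := h (ModuleCat.of A N) hN (Ext.mk₀ (ModuleCat.ofHom N.subtype))
  have h2 : (ModuleCat.ofHom N.subtype : ModuleCat.of A N ⟶ M) = 0 := by
    have := congrArg Ext.homEquiv₀ h1
    have h3 : Ext.homEquiv₀ (Ext.mk₀ (ModuleCat.ofHom N.subtype : ModuleCat.of A N ⟶ M))
      = ModuleCat.ofHom N.subtype := Ext.homEquiv₀.right_inv _
    rw [h3] at this
    rw [this]
    have h4 : (0 : Ext (ModuleCat.of A N) M 0) = Ext.mk₀ 0 := (Ext.mk₀_zero _ _).symm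
    rw [h4]
    exact Ext.homEquiv₀.right_inv _
  have h5 := congrArg (fun g => g.hom ⟨x, Submodule.mem_span_singleton_self x⟩) h2
  simpa using h5

variable {M I C : Type} [AddCommGroup M] [Module A M] [AddCommGroup I] [Module A I]
  [AddCommGroup C] [Module A C]

theorem W_up (f : M →ₗ[A] I) (g : I →ₗ[A] C) (hf : Function.Injective f)
    (hg : Function.Surjective g) (hfg : Function.Exact f g) [Module.Injective A I] (n : ℕ)
    (h : W e n (ModuleCat.of A C)) : W e (n + 1) (ModuleCat.of A M) := by
  intro N hN x
  let S : ShortComplex (ModuleCat.{0} A) := ShortComplex.mk (ModuleCat.ofHom f) (ModuleCat.ofHom g)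
    (by ext y; exact hfg.apply_apply_eq_zero y)
  have hS : S.ShortExact := ModuleCat.shortComplex_shortExact S hfg hf hg
  haveI : Injective S.X₂ := Module.injective_object_of_injective_module A I
  obtain ⟨x₃, hx₃⟩ := Ext.covariant_sequence_exact₁ N hS x (Ext.eq_zero_of_injective _) rfl
  rw [← hx₃, h N hN x₃]
  simp

theorem W_down (f : M →ₗ[A] I) (g : I →ₗ[A] C) (hf : Function.Injective f)
    (hg : Function.Surjective g) (hfg : Function.Exact f g) [Module.Injective A I]
    (hI : TF e I) (n : ℕ)
    (h : W e (n + 1) (ModuleCat.of A M)) : W e n (ModuleCat.of A C) := by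
  intro N hN x
  let S : ShortComplex (ModuleCat.{0} A) := ShortComplex.mk (ModuleCat.ofHom f) (ModuleCat.ofHom g)
    (by ext y; exact hfg.apply_apply_eq_zero y)
  have hS : S.ShortExact := ModuleCat.shortComplex_shortExact S hfg hf hg
  haveI : Injective S.X₂ := Module.injective_object_of_injective_module A I
  obtain ⟨x₂, hx₂⟩ := Ext.covariant_sequence_exact₃ N hS x rfl (h N hN _)
  have : x₂ = 0 := by
    cases n with
    | zero => exact W_zero_of_TF e (ModuleCat.of A I) hI N hN x₂
    | succ n => exact Ext.eq_zero_of_injective _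
  rw [← hx₂, this]
  simp

/-- A partial coresolution by injective torsion-free modules gives `W`. -/
theorem W_of_chain (m : ℕ) : ∀ (M : ModuleCat.{0} A) (I : ℕ → ModuleCat.{0} A)
    (ε : M →ₗ[A] I 0) (d : ∀ i, I i →ₗ[A] I (i + 1)),
    Function.Injective ε → (0 < m → Function.Exact ε (d 0)) →
    (∀ i, i + 1 < m → Function.Exact (d i) (d (i + 1))) →
    (∀ j, j ≤ m → Module.Injective A (I j) ∧ TF e (I j)) → W e m M := by
  induction m with
  | zero =>
    intro M I ε d hε _ _ hI
    apply W_zero_of_TF
    intro x hx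
    apply hε
    rw [map_zero]
    apply (hI 0 le_rfl).2
    intro f
    rw [← map_smul, hx, map_zero]
  | succ m ih =>
    intro M I ε d hε h0 h1 hI
    haveI := (hI 0 (Nat.zero_le _)).1
    have key := W_up e (M := M) (I := I 0) (C := LinearMap.range (d 0)) ε (d 0).rangeRestrict hε
      (LinearMap.surjective_rangeRestrict _) ?_ m ?_
    · exact key
    · intro y
      rw [← h0 (Nat.succ_pos m) y]
      constructor
      · intro h
        exact congrArg Subtype.val h
      · intro h
        exact Subtype.ext h
    · apply ih (ModuleCat.of A (LinearMap.range (d 0))) (fun j => I (j + 1))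
        (LinearMap.range (d 0)).subtype (fun i => d (i + 1))
      · exact Subtype.val_injective
      · intro hm
        have := h1 0 (by omega)
        intro y
        rw [this y]
        constructor
        · rintro ⟨z, hz⟩
          exact ⟨⟨y, ⟨z, hz⟩⟩, rfl⟩
        · rintro ⟨⟨w, ⟨z, hz⟩⟩, hw⟩
          exact ⟨z, hz.trans hw⟩
      · intro i hi
        exact h1 (i + 1) (by omega)
      · intro j hj
        exact hI (j + 1) (by omega)

end Pool.Agent.H546R3.Yam
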