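import Pool.Agent.H546R3.YamR2

set_option autoImplicit false

namespace Pool.Agent.H546R3.Yam

section Quo

variable {R : Type} [Ring R] (b : R)

/-- the cyclic module `R / R b` -/
abbrev Quo : Type := R ⧸ (Submodule.span R {b})

/-- generator of `R / R b` -/
def q0 : Quo b := Submodule.Quotient.mk 1

theorem smul_q0 (r : R) : r • q0 b = Submodule.Quotient.mk r := by
  rw [q0, ← Submodule.Quotient.mk_smul, smul_eq_mul, mul_one]

theorem hq0 (x : Quo b) : ∃ r : R, x = r • q0 b := by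
  obtain ⟨r, rfl⟩ := Submodule.Quotient.mk_surjective _ x
  exact ⟨r, (smul_q0 b r).symm⟩

theorem hkerq (r : R) : r • q0 b = 0 ↔ ∃ z, r = z * b := by
  rw [smul_q0, Submodule.Quotient.mk_eq_zero, Submodule.mem_span_singleton]
  constructor
  · rintro ⟨z, hz⟩; exact ⟨z, hz.symm⟩
  · rintro ⟨z, hz⟩; exact ⟨z, hz.symm⟩

/-- augmentation on `R / R b` -/
def qaug (π : R →+* ZMod 2) (hπ : π b = 0) : Quo b →+ ZMod 2 :=
  QuotientAddGroup.lift (Submodule.span R {b}).toAddSubgroup π.toAddMonoidHom (by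
    intro r hr
    obtain ⟨z, rfl⟩ := Submodule.mem_span_singleton.mp hr
    change π (z * b) = 0
    rw [map_mul, hπ, mul_zero])

theorem qaug_smul (π : R →+* ZMod 2) (hπ : π b = 0) (r : R) :
    qaug b π hπ (r • q0 b) = π r := by
  rw [smul_q0]
  rfl

variable [Algebra (ZMod 2) R]

instance finQuo [FiniteDimensional (ZMod 2) R] : FiniteDimensional (ZMod 2) (Quo b) :=
  inferInstance

end Quo

section Abs

variable {R : Type} [Ring R] [Algebra (ZMod 2) R] [FiniteDimensional (ZMod 2) R]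

theorem finA_abs (b : R) : FiniteDimensional (ZMod 2) (Module.End R (R × Quo b)) := by
  let f : Module.End R (R × Quo b) →ₗ[ZMod 2] ((R × Quo b) →ₗ[ZMod 2] (R × Quo b)) :=
    { toFun := fun g => g.restrictScalars (ZMod 2)
      map_add' := by intro x y; rfl
      map_smul' := by intro c x; rfl }
  apply FiniteDimensional.of_injective f
  intro x y h
  apply LinearMap.ext
  intro g
  exact LinearMap.congr_fun h g

omit [Algebra (ZMod 2) R] [FiniteDimensional (ZMod 2) R] in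
theorem hE_abs (a : ℕ → R) (s : ℕ)
    (haa : ∀ j r, a (j + 1) * r = 0 ↔ ∃ r', r = a j * r')
    (hii : ∀ j, j + 1 < s → ∀ y z : R, a (j + 1) * y = z * a 0 → ∃ p q : R, y = a j * p + q * a 0)
    (j : ℕ) (hj : j + 1 < s) : EE a (Quo (a 0)) j := by
  rintro ⟨r, x⟩ h
  have h1 : a (j + 1) * r = 0 := congrArg Prod.fst h
  have h2 : a (j + 1) • x = 0 := congrArg Prod.snd h
  obtain ⟨r', hr'⟩ := (haa j r).mp h1
  obtain ⟨y, rfl⟩ := hq0 _ x
  rw [← mul_smul] at h2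
  obtain ⟨z, hz⟩ := (hkerq _ _).mp h2
  obtain ⟨p, q, hpq⟩ := hii j hj y z hz
  refine ⟨(r', p • q0 (a 0)), ?_⟩
  apply Prod.ext
  · exact hr'
  · change y • q0 (a 0) = a j • (p • q0 (a 0))
    rw [hpq, add_smul, mul_smul q, (hkerq (a 0) (a 0)).mpr ⟨1, by rw [one_mul]⟩, smul_zero,
      add_zero, mul_smul]

theorem main_abs (a : ℕ → R) (s : ℕ) (lam : R →ₗ[ZMod 2] ZMod 2)
    (hlam : ∀ r, (∀ r', lam (r' * r) = 0) → r = 0)
    (haa : ∀ j r, a (j + 1) * r = 0 ↔ ∃ r', r = a j * r')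
    (hii : ∀ j, j + 1 < s → ∀ y z : R, a (j + 1) * y = z * a 0 → ∃ p q : R, y = a j * p + q * a 0)
    (aug : R →+* ZMod 2) (aug_a : ∀ j, aug (a j) = 0)
    (F : ℕ → AddSubgroup R) (hF0 : ∀ r, r ∈ F 0) (hF1 : ∀ r, aug r = 0 → r ∈ F 1)
    (hFmul : ∀ i j r s, r ∈ F i → s ∈ F j → r * s ∈ F (i + j))
    (hFanti : ∀ i, F (i + 1) ≤ F i) (n : ℕ) (hFn : ∀ r ∈ F n, r = 0)
    (N : ℕ) (hN : a (N + 1) = a 0) :
    ∃ (A : Type) (_ : Ring A) (_ : Algebra (ZMod 2) A)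
    (_ : FiniteDimensional (ZMod 2) A) (S : Fin 2 → ModuleCat.{0} A),
    (∀ i, IsSimpleModule A (S i)) ∧ (∀ i j, Nonempty (S i ≃ₗ[A] S j) → i = j) ∧
    (∀ M : ModuleCat.{0} A, IsSimpleModule A M → ∃ i, Nonempty (M ≃ₗ[A] S i)) ∧
    (∀ m, m ≤ s + 1 → PP A m) ∧ ¬ (∀ m, PP A m) := by
  have haa' : ∀ j, a (j + 1) * a j = 0 := fun j =>
    (haa j (a j)).mpr ⟨1, by rw [mul_one]⟩
  have haug : ∀ c : ZMod 2, aug (algebraMap (ZMod 2) R c) = c := by
    intro c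
    have : (aug.comp (algebraMap (ZMod 2) R)) = RingHom.id (ZMod 2) := Subsingleton.elim _ _
    exact RingHom.congr_fun this c
  have hc : ∀ c : R, a 0 * c = 0 → aug c = 0 := by
    intro c h
    rw [← hN] at h
    obtain ⟨r', rfl⟩ := (haa N c).mp h
    rw [map_mul, aug_a, zero_mul]
  have ha0 : a 0 • q0 (a 0) = 0 := (hkerq (a 0) (a 0)).mpr ⟨1, by rw [one_mul]⟩
  refine ⟨Module.End R (R × Quo (a 0)), inferInstance, inferInstance, finA_abs (a 0),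
    SS (a 0) (q0 (a 0)) aug (qaug (a 0) aug (aug_a 0)) (hq0 _) (qaug_smul _ _ _) ha0 hc,
    ?_, ?_, ?_, ?_, ?_⟩
  · exact SS_simple (a 0) (q0 (a 0)) aug haug (qaug (a 0) aug (aug_a 0)) (hq0 _)
      (qaug_smul _ _ _) ha0 hc
  · exact SS_inj (a 0) (q0 (a 0)) aug (qaug (a 0) aug (aug_a 0)) (hq0 _) (qaug_smul _ _ _) ha0 hc
  · exact SS_complete (a 0) (q0 (a 0)) aug haug (qaug (a 0) aug (aug_a 0)) (hq0 _)
      (qaug_smul _ _ _) ha0 hc F hF0 hF1 hFmul hFanti n hFn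
  · intro m hm
    exact PP_pos a (q0 (a 0)) lam hlam haa' (hq0 _) (hkerq _) m
      (fun j hj => hE_abs a s haa hii j (by omega))
  · exact not_PP a (q0 (a 0)) lam hlam haa (hq0 _) (hkerq _) aug aug_a N hN

end Abs

theorem YD.main {s : ℕ} {B : Type} [CommRing B] [Algebra (ZMod 2) B]
    [FiniteDimensional (ZMod 2) B] (Y : YD s B) :
    ∃ (A : Type) (_ : Ring A) (_ : Algebra (ZMod 2) A)
    (_ : FiniteDimensional (ZMod 2) A) (S : Fin 2 → ModuleCat.{0} A),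
    (∀ i, IsSimpleModule A (S i)) ∧ (∀ i j, Nonempty (S i ≃ₗ[A] S j) → i = j) ∧
    (∀ M : ModuleCat.{0} A, IsSimpleModule A M → ∃ i, Nonempty (M ≃ₗ[A] S i)) ∧
    (∀ m, m ≤ s + 1 → PP A m) ∧ ¬ (∀ m, PP A m) := by
  obtain ⟨N, hN⟩ := Y.u_per
  have hper : Y.a (N + 1) = Y.a 0 := by
    have : Y.u (N + 1) = Y.u 0 := by rw [Y.u_zero]; exact hN
    rw [YD.a, YD.a, this]
  exact main_abs (R := Y.RR) Y.a s Y.lam Y.hlam Y.haa Y.hii Y.aug Y.aug_a Y.F Y.F_zero Y.F_one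
    Y.F_mul Y.F_anti (Y.D + 2) Y.F_top N hper

/-- If data `YD s B` exist for arbitrarily large `s`, then Yamagata's bound fails over `F_2`. -/
theorem refute (hY : ∀ n : ℕ, ∃ (s : ℕ) (_ : n ≤ s) (B : Type) (_ : CommRing B)
    (_ : Algebra (ZMod 2) B) (_ : FiniteDimensional (ZMod 2) B), Nonempty (YD s B)) :
    ¬ (∀ (k : Type) [Field k], ∃ φ : ℕ → ℕ,
    ∀ (A : Type) [Ring A] [Algebra k A] [FiniteDimensional k A],
    ∀ (n : ℕ) (S : Fin n → ModuleCat.{0} A),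
      (∀ i, IsSimpleModule A (S i)) →
      (∀ i j, Nonempty (S i ≃ₗ[A] S j) → i = j) →
      (∀ M : ModuleCat.{0} A, IsSimpleModule A M → ∃ i, Nonempty (M ≃ₗ[A] S i)) →
      ∀ P : ℕ → Prop,
        (∀ m, P m ↔ ∃ (I : ℕ → ModuleCat.{0} A) (ε : A →ₗ[A] I 0)
            (d : ∀ i, I i →ₗ[A] I (i + 1)),
            Function.Injective ε ∧
            (1 < m → Function.Exact ε (d 0)) ∧
            (∀ i, i + 2 < m → Function.Exact (d i) (d (i + 1))) ∧
            ∀ j, j < m → Module.Projective A (I j) ∧ Module.Injective A (I j)) →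
        (∀ m, P m) ∨ ¬ P (φ n + 1)) := by
  intro H
  obtain ⟨φ, hφ⟩ := H (ZMod 2)
  obtain ⟨s, hs, B, _, _, _, ⟨Y⟩⟩ := hY (φ 2)
  obtain ⟨A, _, _, _, S, h1, h2, h3, h4, h5⟩ := Y.main
  rcases hφ A 2 S h1 h2 h3 (PP A) (fun m => Iff.rfl) with h | h
  · exact h5 h
  · exact h (h4 _ (by omega))

end Pool.Agent.H546R3.Yam
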