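import Pool.Agent.H546R3.YamR

set_option autoImplicit false

namespace Pool.Agent.H546R3.Yam

namespace YD

variable {s : ℕ} {B : Type} [CommRing B] [Algebra (ZMod 2) B] (Y : YD s B)

/-- abbreviation for the partial sums -/
def u (j : ℕ) : B := uu Y.τ Y.η j

theorem u_zero : Y.u 0 = 0 := by simp [u, uu]

theorem u_succ (j : ℕ) : Y.u (j + 1) = Y.τ (Y.u j) + Y.η := by
  simp only [u, uu]
  rw [Finset.sum_range_succ', map_sum]
  congr 1
  apply Finset.sum_congr rfl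
  intro k _
  rw [pow_succ']
  rfl

theorem pr_u (j : ℕ) : Y.pr 1 (Y.u j) = Y.u j := by
  induction j with
  | zero => rw [u_zero, map_zero]
  | succ j ih => rw [u_succ, map_add, Y.pr_τ, ih, Y.pr_η]

theorem d_u (j : ℕ) : Y.d (Y.u j) = Y.u j * Y.u j := by
  induction j with
  | zero => rw [u_zero, map_zero, mul_zero]
  | succ j ih =>
    rw [u_succ, map_add, Y.d_τ, ih, Y.d_η, map_mul]
    linear_combination (-(Y.τ (Y.u j) * Y.η)) * (two_zero : (2 : B) = 0)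

theorem prV_u (j : ℕ) : Y.prV 1 (Y.u j, 1) = (Y.u j, 1) :=
  Prod.ext (Y.pr_u j) Y.pr_one

theorem T_u (j : ℕ) : Y.T (Y.u j, 1) = (Y.u (j + 1), 1) := by
  apply Prod.ext
  · rw [T_fst, u_succ, map_one, mul_one]
  · rw [T_snd, map_one]

theorem Tpow_u (c : ℕ) : (Y.T ^ c) (Y.u 0, 1) = (Y.u c, 1) := by
  induction c with
  | zero => rfl
  | succ c ih => rw [pow_succ', Module.End.mul_apply, ih, T_u]

theorem Phi_u (j : ℕ) (y : B × B) : Y.Phi (Y.u j, 1) y = Y.L (Y.u j, 1) (Y.T y) := by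
  rw [Y.Phi_hom (Y.prV_u j), pow_one]

theorem L_u_u (j : ℕ) (y : B × B) : Y.L (Y.u j, 1) (Y.L (Y.u j, 1) y) = 0 := by
  rw [L_L]
  have : Y.L (Y.u j, 1) (Y.u j, 1) = 0 := by
    apply Prod.ext
    · rw [L_fst, one_mul, d_u]
      exact add_self _
    · rw [L_snd, mul_one, one_mul, one_mul, Y.d_one, add_zero]
      exact add_self _
  rw [this, map_zero, LinearMap.zero_apply]

theorem L_u_ker (j : ℕ) (y : B × B) (h : Y.L (Y.u j, 1) y = 0) :
    y = Y.L (Y.u j, 1) (y.2, 0) := by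
  have h2 := congrArg Prod.snd h
  rw [L_snd] at h2
  change Y.u j * y.2 + 1 * y.1 + 1 * Y.d y.2 = 0 at h2
  apply Prod.ext
  · rw [L_fst]
    change y.1 = Y.u j * y.2 + 1 * Y.d y.2
    apply eq_of_add
    rw [← h2]; ring
  · rw [L_snd]
    change y.2 = Y.u j * 0 + 1 * y.2 + 1 * Y.d 0
    rw [map_zero]; ring

/-- the elements `a_j` -/
def a (j : ℕ) : Y.RR := Y.mkR (Y.u j, 1)

theorem ev_a_mul (j : ℕ) (r : Y.RR) : Y.ev (Y.a j * r) = Y.L (Y.u j, 1) (Y.T (Y.ev r)) := by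
  rw [ev_mul, a, ev_mkR, Phi_u]

theorem haa (j : ℕ) (r : Y.RR) : Y.a (j + 1) * r = 0 ↔ ∃ r', r = Y.a j * r' := by
  constructor
  · intro h
    have h1 : Y.L (Y.u (j + 1), 1) (Y.T (Y.ev r)) = 0 := by
      rw [← ev_a_mul, h, map_zero]
    have h2 := Y.L_u_ker _ _ h1
    refine ⟨Y.mkR (Y.Ti (Y.Ti ((Y.T (Y.ev r)).2, 0))), ?_⟩
    apply Y.ev_inj
    rw [ev_a_mul, ev_mkR, T_Ti]
    apply Y.T_inj
    rw [T_L, T_Ti, T_u]
    exact h2
  · rintro ⟨r', rfl⟩
    apply Y.ev_inj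
    rw [ev_a_mul, ev_a_mul, T_L, T_u, L_u_u, map_zero]

theorem ev_mul_a0 (z : Y.RR) : Y.ev (z * Y.a 0) =
    ∑ c ∈ Finset.range (Y.D + 2), Y.L (Y.prV c (Y.ev z)) (Y.u c, 1) := by
  rw [ev_mul, a, ev_mkR, Phi_apply]
  simp only [Tpow_u]

theorem prV_sum_L (w : B × B) (c : ℕ) :
    Y.prV (c + 1) (∑ c' ∈ Finset.range (Y.D + 2), Y.L (Y.prV c' w) (Y.u c', 1)) =
      Y.L (Y.prV c w) (Y.u c, 1) := by
  rw [map_sum]
  have h : ∀ c' ∈ Finset.range (Y.D + 2), Y.prV (c + 1) (Y.L (Y.prV c' w) (Y.u c', 1)) =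
      if c' = c then Y.L (Y.prV c w) (Y.u c, 1) else 0 := by
    intro c' _
    have h1 : Y.prV (c' + 1) (Y.L (Y.prV c' w) (Y.u c', 1)) = Y.L (Y.prV c' w) (Y.u c', 1) := by
      rw [Y.prV_L (Y.prV_same c' w), prV_u]
    by_cases hc : c' = c
    · subst hc; rw [if_pos rfl, h1]
    · rw [if_neg hc]
      exact Y.prV_of_ne h1 (by omega)
  rw [Finset.sum_congr rfl h, Finset.sum_ite_eq']
  split_ifs with h2
  · rfl
  · rw [Finset.mem_range, not_lt] at h2
    rw [Y.prV_big c w (by omega), map_zero, LinearMap.zero_apply]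

theorem step (j c : ℕ) (hj : j + 1 < s) (x w : B × B)
    (h : Y.L (Y.u (j + 1), 1) (Y.prV c (Y.T x)) = Y.L (Y.prV c w) (Y.u c, 1)) :
    ∃ p q : B × B, Y.prV c x = Y.L (Y.u j, 1) (Y.T p) + Y.Phi q (Y.u 0, 1) := by
  set A := (Y.prV c (Y.T x)).1 with hA
  set B' := (Y.prV c (Y.T x)).2 with hB
  set w1 := (Y.prV c w).1 with hw1
  set w2 := (Y.prV c w).2 with hw2
  have hAp : Y.pr c A = A := Y.pr_same c _
  have hBp : prP Y.pr c B' = B' := Y.prP_same c _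
  have e1 := congrArg Prod.fst h
  have e2 := congrArg Prod.snd h
  rw [L_fst, L_fst] at e1
  rw [L_snd, L_snd] at e2
  change Y.u (j + 1) * A + 1 * Y.d A = w1 * Y.u c + w2 * Y.d (Y.u c) at e1
  change Y.u (j + 1) * B' + 1 * A + 1 * Y.d B' = w1 * 1 + w2 * Y.u c + w2 * Y.d 1 at e2
  rw [d_u] at e1
  rw [Y.d_one] at e2
  have hBu : Y.pr c (B' * Y.u c) = B' * Y.u c := by
    cases hc : c with
    | zero =>
      have : B' = 0 := by
        rw [← hBp, hc]; rfl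
      rw [this, zero_mul, map_zero]
    | succ c' =>
      rw [← hc]
      have h3 : Y.pr c' B' = B' := by rw [hc] at hBp; exact hBp
      rw [hc]
      exact Y.pr_mul c' 1 B' _ h3 (by rw [← hc]; exact Y.pr_u c)
  obtain ⟨w0, hw0, hw0'⟩ := Y.acy (j + 1) c (A + B' * Y.u c) (by omega) hj
    (by rw [map_add, hAp, hBu]) (by
      change Y.d (A + B' * Y.u c) + (Y.u (j + 1) + Y.u c) * (A + B' * Y.u c) = 0
      rw [map_add, Y.d_mul, d_u]
      linear_combination e1 + Y.u c * e2 +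
        (B' * Y.u c * Y.u c + w1 * Y.u c + w2 * Y.u c * Y.u c) * (two_zero : (2 : B) = 0))
  change Y.d w0 + (Y.u (j + 1) + Y.u c) * w0 = A + B' * Y.u c at hw0'
  have hT : Y.T (Y.prV c x) = Y.L (Y.u (j + 1), 1) (w0, 0) + Y.L (B' + w0, 0) (Y.u c, 1) := by
    rw [← prV_T]
    apply Prod.ext
    · rw [Prod.fst_add, L_fst, L_fst]
      change A = Y.u (j + 1) * w0 + 1 * Y.d w0 + ((B' + w0) * Y.u c + 0 * Y.d (Y.u c))
      linear_combination -hw0' - (B' * Y.u c) * (two_zero : (2 : B) = 0)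
    · rw [Prod.snd_add, L_snd, L_snd]
      change B' = Y.u (j + 1) * 0 + 1 * w0 + 1 * Y.d 0 +
        ((B' + w0) * 1 + 0 * Y.u c + 0 * Y.d 1)
      rw [map_zero]
      linear_combination -w0 * (two_zero : (2 : B) = 0)
  have hq : ∃ q : B × B, Y.T (Y.Phi q (Y.u 0, 1)) = Y.L (B' + w0, 0) (Y.u c, 1) := by
    cases hc : c with
    | zero =>
      have h1 : B' = 0 := by rw [← hBp, hc]; rfl
      have h2 : w0 = 0 := by rw [← hw0, hc]; rfl
      refine ⟨0, ?_⟩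
      rw [h1, h2, add_zero, map_zero, LinearMap.zero_apply, map_zero]
      change 0 = Y.L 0 _
      rw [map_zero, LinearMap.zero_apply]
    | succ c' =>
      have h1 : Y.pr c' (B' + w0) = B' + w0 := by
        rw [hc] at hBp hw0
        rw [map_add]
        exact congrArg₂ (· + ·) hBp hw0
      refine ⟨(Y.τ.symm (B' + w0), 0), ?_⟩
      have h2 : Y.pr c' (Y.τ.symm (B' + w0)) = Y.τ.symm (B' + w0) := by
        apply Y.τ.injective
        rw [← Y.pr_τ, AlgEquiv.apply_symm_apply, h1]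
      have h3 : Y.prV c' (Y.τ.symm (B' + w0), 0) = (Y.τ.symm (B' + w0), 0) :=
        Prod.ext h2 (map_zero (prP Y.pr c'))
      rw [Y.Phi_hom h3, T_L]
      have h4 : Y.T (Y.τ.symm (B' + w0), 0) = (B' + w0, 0) := by
        apply Prod.ext
        · rw [T_fst]
          change Y.τ (Y.τ.symm (B' + w0)) + Y.η * Y.τ 0 = B' + w0
          rw [AlgEquiv.apply_symm_apply, map_zero, mul_zero, add_zero]
        · rw [T_snd]
          exact map_zero _
      have h5 : Y.T ((Y.T ^ c') (Y.u 0, 1)) = (Y.u (c' + 1), 1) := by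
        rw [Tpow_u, T_u]
      rw [h4, h5]
  obtain ⟨q, hq⟩ := hq
  refine ⟨Y.Ti (Y.Ti (w0, 0)), q, ?_⟩
  apply Y.T_inj
  rw [hT, map_add, hq, T_L, T_u, T_Ti, T_Ti]

theorem hii (j : ℕ) (hj : j + 1 < s) (y z : Y.RR) (h : Y.a (j + 1) * y = z * Y.a 0) :
    ∃ p q : Y.RR, y = Y.a j * p + q * Y.a 0 := by
  have h1 := congrArg Y.ev h
  rw [ev_a_mul, ev_mul_a0] at h1
  have h2 : ∀ c, ∃ p q : B × B, Y.prV c (Y.ev y) =
      Y.L (Y.u j, 1) (Y.T p) + Y.Phi q (Y.u 0, 1) := by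
    intro c
    apply Y.step j c hj (Y.ev y) (Y.ev z)
    rw [← prV_sum_L, ← h1, Nat.add_comm c 1, Y.prV_L (Y.prV_u _)]
  choose p q hpq using h2
  refine ⟨Y.mkR (∑ c ∈ Finset.range (Y.D + 2), p c), Y.mkR (∑ c ∈ Finset.range (Y.D + 2), q c), ?_⟩
  apply Y.ev_inj
  rw [map_add, ev_a_mul, ev_mkR, ev_mul, ev_mkR, a, ev_mkR]
  rw [map_sum, map_sum, map_sum, LinearMap.sum_apply, ← Finset.sum_add_distrib]
  conv_lhs => rw [← Y.prV_sum (Y.ev y)]
  apply Finset.sum_congr rfl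
  intro c _
  exact hpq c

/-- the Frobenius form -/
def lam : Y.RR →ₗ[ZMod 2] ZMod 2 := Y.μ.comp ((LinearMap.snd _ _ _).comp Y.ev)

theorem Tpow_snd (c : ℕ) (x : B × B) : ((Y.T ^ c) x).2 = (Y.τ ^ c) x.2 := by
  induction c with
  | zero => rfl
  | succ c ih =>
    rw [pow_succ', Module.End.mul_apply, T_snd, ih, pow_succ']
    rfl

theorem Tpow_fst (c : ℕ) (x : B × B) (hx : x.2 = 0) : ((Y.T ^ c) x).1 = (Y.τ ^ c) x.1 := by
  induction c with
  | zero => rfl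
  | succ c ih =>
    rw [pow_succ', Module.End.mul_apply, T_fst, ih, Tpow_snd, hx, map_zero, map_zero, mul_zero,
      add_zero, pow_succ']
    rfl

theorem pr_τpow (i c : ℕ) (x : B) : Y.pr c ((Y.τ ^ i) x) = (Y.τ ^ i) (Y.pr c x) := by
  induction i with
  | zero => rfl
  | succ i ih =>
    rw [pow_succ']
    change Y.pr c (Y.τ ((Y.τ ^ i) x)) = Y.τ ((Y.τ ^ i) (Y.pr c x))
    rw [Y.pr_τ, ih]

theorem eq_zero_of_pr (x : B) (h : ∀ c, c ≤ Y.D → Y.pr (Y.D - c) x = 0) : x = 0 := by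
  rw [← Y.pr_sum x]
  apply Finset.sum_eq_zero
  intro i hi
  rw [Finset.mem_range] at hi
  have := h (Y.D - i) (by omega)
  rwa [show Y.D - (Y.D - i) = i by omega] at this

theorem hlam (r : Y.RR) (h : ∀ r', Y.lam (r' * r) = 0) : r = 0 := by
  have h1 : ∀ c y, Y.prV c y = y → Y.μ (Y.L y ((Y.T ^ c) (Y.ev r))).2 = 0 := by
    intro c y hy
    have := h (Y.mkR y)
    change Y.μ (Y.ev (Y.mkR y * r)).2 = 0 at this
    rwa [ev_mul, ev_mkR, Y.Phi_hom hy] at this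
  have hb : (Y.ev r).2 = 0 := by
    apply Y.eq_zero_of_pr
    intro c hc
    apply (Y.τ ^ c).injective
    rw [map_zero, ← pr_τpow]
    apply Y.frob c hc
    intro a ha
    have h2 := h1 c (a, 0) (Prod.ext ha (map_zero (prP Y.pr c)))
    rw [L_snd, Tpow_snd] at h2
    change Y.μ (a * (Y.τ ^ c) (Y.ev r).2 + 0 * _ + 0 * _) = 0 at h2
    rwa [zero_mul, zero_mul, add_zero, add_zero] at h2
  have ha : (Y.ev r).1 = 0 := by
    apply Y.eq_zero_of_pr
    intro c hc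
    apply (Y.τ ^ (c + 1)).injective
    rw [map_zero, ← pr_τpow]
    apply Y.frob c hc
    intro b hb'
    have h2 := h1 (c + 1) (0, b) (Prod.ext (map_zero (Y.pr (c + 1))) hb')
    rw [L_snd, Tpow_snd, hb, map_zero, Y.Tpow_fst _ _ hb] at h2
    change Y.μ (0 * 0 + b * (Y.τ ^ (c + 1)) (Y.ev r).1 + b * Y.d 0) = 0 at h2
    rwa [zero_mul, zero_add, map_zero, mul_zero, add_zero] at h2
  apply Y.ev_inj
  rw [map_zero]
  exact Prod.ext ha hb

theorem π0_alg (t : ZMod 2) : Y.π0 (algebraMap (ZMod 2) B t) = t := by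
  have : (Y.π0.comp (algebraMap (ZMod 2) B)) = RingHom.id (ZMod 2) := Subsingleton.elim _ _
  exact RingHom.congr_fun this t

theorem π0_pr0 (x : B) : Y.π0 (Y.pr 0 x) = Y.π0 x := by
  rw [Y.pr_zero, π0_alg]

theorem π0_d (x : B) : Y.π0 (Y.d x) = 0 := by
  rw [← π0_pr0, Y.d_pr0, map_zero]

/-- the augmentation -/
def aug : Y.RR →+* ZMod 2 where
  toFun r := Y.π0 (Y.ev r).1
  map_one' := by
    change Y.π0 ((1 : B)) = 1
    rw [map_one]
  map_zero' := by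
    rw [map_zero]
    exact map_zero _
  map_add' := by
    intro x y
    rw [map_add, Prod.fst_add, map_add]
  map_mul' := by
    intro x y
    rw [ev_mul, Phi_apply, Prod.fst_sum, map_sum, Finset.sum_range_succ']
    have h0 : ∑ c ∈ Finset.range (Y.D + 1),
        Y.π0 (Y.L (Y.prV (c + 1) (Y.ev x)) ((Y.T ^ (c + 1)) (Y.ev y))).1 = 0 := by
      apply Finset.sum_eq_zero
      intro c _
      rw [L_fst, map_add, map_mul, map_mul, prV_fst, Y.π0_pr, π0_d, zero_mul, mul_zero, add_zero]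
    rw [h0, zero_add, L_fst, prV_fst, prV_snd]
    change Y.π0 (Y.pr 0 (Y.ev x).1 * (Y.ev y).1 + 0 * _) = _
    rw [zero_mul, add_zero, map_mul, π0_pr0]

theorem aug_a (j : ℕ) : Y.aug (Y.a j) = 0 := by
  change Y.π0 (Y.ev (Y.a j)).1 = 0
  rw [a, ev_mkR]
  change Y.π0 (Y.u j) = 0
  rw [← pr_u]
  exact Y.π0_pr 0 _

/-- filtration of `R` -/
def F (m : ℕ) : AddSubgroup Y.RR where
  carrier := {r | ∀ c, c < m → Y.prV c (Y.ev r) = 0}
  add_mem' := by
    intro x y hx hy c hc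
    rw [map_add, map_add, hx c hc, hy c hc, add_zero]
  zero_mem' := by
    intro c _
    rw [map_zero, map_zero]
  neg_mem' := by
    intro x hx c hc
    rw [map_neg, map_neg, hx c hc, neg_zero]

theorem F_zero (r : Y.RR) : r ∈ Y.F 0 := by
  intro c hc
  omega

theorem F_one (r : Y.RR) (h : Y.aug r = 0) : r ∈ Y.F 1 := by
  intro c hc
  have : c = 0 := by omega
  subst this
  apply Prod.ext
  · rw [prV_fst, Y.pr_zero]
    change algebraMap _ _ (Y.aug r) = 0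
    rw [h, map_zero]
  · rfl

theorem F_mul (i j : ℕ) (r r' : Y.RR) (hr : r ∈ Y.F i) (hr' : r' ∈ Y.F j) :
    r * r' ∈ Y.F (i + j) := by
  intro c hc
  rw [ev_mul, Phi_apply, map_sum]
  apply Finset.sum_eq_zero
  intro c' _
  by_cases h1 : c' < i
  · rw [hr c' h1, map_zero, LinearMap.zero_apply, map_zero]
  · by_cases h2 : c < c'
    · exact Y.prV_L_lt (Y.prV_same _ _) c h2 _
    · obtain ⟨e, rfl⟩ := Nat.exists_eq_add_of_le (not_lt.mp h2)
      rw [Y.prV_L (Y.prV_same _ _), prV_Tpow, hr' e (by omega), map_zero, map_zero]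

theorem F_anti (i : ℕ) : Y.F (i + 1) ≤ Y.F i := by
  intro r hr c hc
  exact hr c (by omega)

theorem F_top (r : Y.RR) (h : r ∈ Y.F (Y.D + 2)) : r = 0 := by
  apply Y.ev_inj
  rw [map_zero, ← Y.prV_sum (Y.ev r)]
  apply Finset.sum_eq_zero
  intro c hc
  exact h c (Finset.mem_range.mp hc)

end YD

end Pool.Agent.H546R3.Yam
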