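import Pool.Agent.H546R3.YamChain

set_option autoImplicit false

namespace Pool.Agent.H546R3.Yam

section General

variable {k : Type} [Field k] {A : Type} [Ring A] [Algebra k A]

/-- one-dimensional module attached to a character -/
def oneDim (χ : A →+* k) : ModuleCat.{0} A := @ModuleCat.of A _ k _ (Module.compHom k χ)

theorem oneDim_smul (χ : A →+* k) (f : A) (c : oneDim χ) : f • c = (χ f * (show k from c) : k) := rfl

theorem oneDim_simple (χ : A →+* k) (hχ : ∀ c : k, χ (algebraMap k A c) = c) :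
    IsSimpleModule A (oneDim χ) := by
  rw [isSimpleModule_iff_toSpanSingleton_surjective]
  refine ⟨show Nontrivial k from inferInstance, ?_⟩
  intro x hx y
  refine ⟨algebraMap k A ((show k from y) * (show k from x)⁻¹), ?_⟩
  change (algebraMap k A ((show k from y) * (show k from x)⁻¹)) • x = y
  rw [oneDim_smul, hχ]
  change (show k from y) * (show k from x)⁻¹ * (show k from x) = y
  have hx' : (show k from x) ≠ 0 := hx
  rw [mul_assoc, inv_mul_cancel₀ hx', mul_one]

theorem iso_oneDim (χ : A →+* k) (hχ : ∀ c : k, χ (algebraMap k A c) = c)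
    (M : ModuleCat.{0} A) (hM : IsSimpleModule A M) (y : M) (hy : y ≠ 0)
    (h : ∀ f : A, f • y = (algebraMap k A (χ f)) • y) : Nonempty (M ≃ₗ[A] oneDim χ) := by
  let φ : oneDim χ →ₗ[A] M :=
    { toFun := fun c => (algebraMap k A (show k from c)) • y
      map_add' := by
        intro c c'
        change (algebraMap k A ((show k from c) + (show k from c'))) • y = _
        rw [map_add, add_smul]
      map_smul' := by
        intro f c
        rw [RingHom.id_apply, ← mul_smul, ← Algebra.commutes, mul_smul, h f, ← mul_smul,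
          ← map_mul, oneDim_smul, mul_comm] }
  have hφ : Function.Bijective φ := by
    constructor
    · rw [injective_iff_map_eq_zero]
      intro c hc
      by_contra hne
      have hne' : (show k from c) ≠ 0 := hne
      apply hy
      have h1 : (algebraMap k A (show k from c)) • y = 0 := hc
      have h2 : (algebraMap k A (show k from c)⁻¹) • ((algebraMap k A (show k from c)) • y) = 0 := by
        rw [h1, smul_zero]
      rw [← mul_smul, ← map_mul, inv_mul_cancel₀ hne', map_one, one_smul] at h2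
      exact h2
    · intro m
      obtain ⟨f, hf⟩ := ((isSimpleModule_iff_toSpanSingleton_surjective.mp hM).2 y hy) m
      refine ⟨(show k from χ f), ?_⟩
      change (algebraMap k A (χ f)) • y = m
      rw [← h f]
      exact hf
  exact ⟨(LinearEquiv.ofBijective φ hφ).symm⟩

end General

section Two

variable {k : Type} [Field k] {R : Type} [Ring R] [Algebra k R]
variable {X : Type} [AddCommGroup X] [Module R X] [Module k X] [IsScalarTower k R X]
variable (a0 : R) (x0 : X) (π : R →+* k) (hπk : ∀ c : k, π (algebraMap k R c) = c)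
variable (πX : X →+ k)

theorem pi_smul (hx0 : ∀ x : X, ∃ r : R, x = r • x0) (hπX : ∀ r, πX (r • x0) = π r)
    (r : R) (x : X) : πX (r • x) = π r * πX x := by
  obtain ⟨s, rfl⟩ := hx0 x
  rw [hπX, ← mul_smul, hπX, map_mul]

variable (hx0 : ∀ x : X, ∃ r : R, x = r • x0) (hπX : ∀ r, πX (r • x0) = π r)
  (ha0 : a0 • x0 = 0) (hc : ∀ c : R, a0 * c = 0 → π c = 0)

include ha0 hc in
theorem pi_off (f : Module.End R (R × X)) : π (f (0, x0)).1 = 0 := by
  apply hc
  have : a0 • f (0, x0) = 0 := by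
    rw [← map_smul]
    have h : (a0 • ((0, x0) : R × X)) = 0 := by
      apply Prod.ext
      · simp
      · exact ha0
    rw [h, map_zero]
  exact congrArg Prod.fst this

/-- first character -/
def chi1 : Module.End R (R × X) →+* k where
  toFun f := π (f (1, 0)).1
  map_one' := by simp
  map_zero' := by simp
  map_add' := by intro f g; simp
  map_mul' := by
    intro f g
    obtain ⟨s, hs⟩ := hx0 (g (1, 0)).2
    have h1 : g (1, 0) = (g (1, 0)).1 • ((1, 0) : R × X) + s • ((0, x0) : R × X) := by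
      apply Prod.ext
      · simp
      · simp [hs]
    have h2 : (f * g) (1, 0) = (g (1, 0)).1 • f (1, 0) + s • f (0, x0) := by
      rw [Module.End.mul_apply]
      conv_lhs => rw [h1]
      rw [map_add, map_smul, map_smul]
    rw [h2, Prod.fst_add, Prod.smul_fst, Prod.smul_fst, smul_eq_mul, smul_eq_mul, map_add,
      map_mul, map_mul, pi_off a0 x0 π ha0 hc f, mul_zero, add_zero, mul_comm]

include hx0 hπX in
theorem pi_X_off (f : Module.End R (R × X)) (r : R) (s : R) (hr : π r = 0) :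
    πX (f (r, s • x0)).2 = π s * πX (f (0, x0)).2 := by
  have h1 : ((r, s • x0) : R × X) = r • ((1, 0) : R × X) + s • ((0, x0) : R × X) := by
    apply Prod.ext
    · simp
    · simp
  rw [h1, map_add, map_smul, map_smul, Prod.snd_add, Prod.smul_snd, Prod.smul_snd, map_add,
    pi_smul x0 π πX hx0 hπX, pi_smul x0 π πX hx0 hπX, hr, zero_mul, zero_add]

/-- second character -/
def chi2 : Module.End R (R × X) →+* k where
  toFun f := πX (f (0, x0)).2
  map_one' := by
    have := hπX 1
    rw [one_smul, map_one] at this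
    simpa using this
  map_zero' := by simp
  map_add' := by intro f g; simp
  map_mul' := by
    intro f g
    obtain ⟨s, hs⟩ := hx0 (g (0, x0)).2
    have h1 : g (0, x0) = ((g (0, x0)).1, s • x0) := Prod.ext rfl hs
    have h2 : π s = πX (g (0, x0)).2 := by rw [hs, hπX]
    rw [Module.End.mul_apply, ← h2]
    conv_lhs => rw [h1]
    rw [pi_X_off x0 π πX hx0 hπX f _ s (pi_off a0 x0 π ha0 hc g), mul_comm]

variable (F : ℕ → AddSubgroup R) (hF0 : ∀ r, r ∈ F 0) (hF1 : ∀ r, π r = 0 → r ∈ F 1)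
  (hFmul : ∀ i j r s, r ∈ F i → s ∈ F j → r * s ∈ F (i + j))
  (hFanti : ∀ i, F (i + 1) ≤ F i) (n : ℕ) (hFn : ∀ r ∈ F n, r = 0)

include hx0 hπX ha0 hc hF0 hF1 hFmul hFanti hFn in
theorem nil_of_chi (f : Module.End R (R × X)) (h1 : π (f (1, 0)).1 = 0)
    (h2 : πX (f (0, x0)).2 = 0) : f ^ (2 * n) = 0 := by
  obtain ⟨t, ht⟩ := hx0 (f (1, 0)).2
  obtain ⟨y, hy⟩ := hx0 (f (0, x0)).2
  have hr1 : (f (1, 0)).1 ∈ F 1 := hF1 _ h1
  have hc1 : (f (0, x0)).1 ∈ F 1 := hF1 _ (pi_off a0 x0 π ha0 hc f)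
  have hy1 : y ∈ F 1 := by
    apply hF1
    rw [← hπX, ← hy, h2]
  have hformula : ∀ r s : R, f (r, s • x0) =
      (r * (f (1, 0)).1 + s * (f (0, x0)).1, (r * t + s * y) • x0) := by
    intro r s
    have h1 : ((r, s • x0) : R × X) = r • ((1, 0) : R × X) + s • ((0, x0) : R × X) := by
      apply Prod.ext
      · simp
      · simp
    rw [h1, map_add, map_smul, map_smul]
    apply Prod.ext
    · simp
    · rw [Prod.snd_add, Prod.smul_snd, Prod.smul_snd, ht, hy, add_smul, mul_smul, mul_smul]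
  have hstep : ∀ m r s, r ∈ F m → s ∈ F m →
      ∃ r' s', r' ∈ F (m + 1) ∧ s' ∈ F (m + 1) ∧ f (f (r, s • x0)) = (r', s' • x0) := by
    intro m r s hr hs
    have e1 : r * (f (1, 0)).1 + s * (f (0, x0)).1 ∈ F (m + 1) :=
      (F (m + 1)).add_mem (hFmul m 1 _ _ hr hr1) (hFmul m 1 _ _ hs hc1)
    have e2 : r * t + s * y ∈ F m :=
      (F m).add_mem (hFmul m 0 _ _ hr (hF0 t)) (hFanti m (hFmul m 1 _ _ hs hy1))
    refine ⟨_, _, ?_, ?_, by rw [hformula r s, hformula]⟩
    · exact (F (m + 1)).add_mem (hFanti (m + 1) (hFmul (m + 1) 1 _ _ e1 hr1))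
        (hFmul m 1 _ _ e2 hc1)
    · exact (F (m + 1)).add_mem (hFmul (m + 1) 0 _ _ e1 (hF0 t)) (hFmul m 1 _ _ e2 hy1)
  have hind : ∀ m (g : R × X), ∃ r s, r ∈ F m ∧ s ∈ F m ∧ (f ^ (2 * m)) g = (r, s • x0) := by
    intro m
    induction m with
    | zero =>
      intro g
      obtain ⟨s, hs⟩ := hx0 g.2
      exact ⟨g.1, s, hF0 _, hF0 _, Prod.ext rfl hs⟩
    | succ m ih =>
      intro g
      obtain ⟨r, s, hr, hs, hg⟩ := ih g
      obtain ⟨r', s', hr', hs', h'⟩ := hstep m r s hr hs
      refine ⟨r', s', hr', hs', ?_⟩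
      rw [show 2 * (m + 1) = 1 + (1 + 2 * m) by ring, pow_add, pow_add, pow_one,
        Module.End.mul_apply, Module.End.mul_apply, hg, h']
  apply LinearMap.ext
  intro g
  obtain ⟨r, s, hr, hs, hg⟩ := hind n g
  rw [hg, hFn r hr, hFn s hs, zero_smul]
  rfl

include hπk in
theorem chi1_algebraMap (c : k) :
    chi1 a0 x0 π hx0 ha0 hc (algebraMap k (Module.End R (R × X)) c) = c := by
  change π ((algebraMap k (Module.End R (R × X)) c) (1, 0)).1 = c
  rw [Module.algebraMap_end_apply]
  change π (c • (1 : R)) = c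
  rw [← Algebra.algebraMap_eq_smul_one, hπk]

include hπk in
theorem chi2_algebraMap (c : k) :
    chi2 a0 x0 π πX hx0 hπX ha0 hc (algebraMap k (Module.End R (R × X)) c) = c := by
  change πX ((algebraMap k (Module.End R (R × X)) c) (0, x0)).2 = c
  rw [Module.algebraMap_end_apply]
  change πX (c • x0) = c
  rw [← algebraMap_smul R c x0, hπX, hπk]

/-- the two simple modules -/
def SS : Fin 2 → ModuleCat.{0} (Module.End R (R × X)) :=
  ![oneDim (chi1 a0 x0 π hx0 ha0 hc), oneDim (chi2 a0 x0 π πX hx0 hπX ha0 hc)]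

include hπk in
theorem SS_simple (i : Fin 2) :
    IsSimpleModule (Module.End R (R × X)) (SS a0 x0 π πX hx0 hπX ha0 hc i) := by
  fin_cases i
  · exact oneDim_simple _ (chi1_algebraMap a0 x0 π hπk hx0 ha0 hc)
  · exact oneDim_simple _ (chi2_algebraMap a0 x0 π hπk πX hx0 hπX ha0 hc)

theorem chi1_e0 : chi1 a0 x0 π hx0 ha0 hc (e0 : Module.End R (R × X)) = 1 := by
  change π ((1 : R)) = 1
  rw [map_one]

theorem chi2_e0 : chi2 a0 x0 π πX hx0 hπX ha0 hc (e0 : Module.End R (R × X)) = 0 := by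
  change πX 0 = 0
  rw [map_zero]

theorem SS_ne (h : Nonempty (oneDim (chi1 a0 x0 π hx0 ha0 hc) ≃ₗ[Module.End R (R × X)]
    oneDim (chi2 a0 x0 π πX hx0 hπX ha0 hc))) : False := by
  obtain ⟨φ⟩ := h
  have h1 : (e0 : Module.End R (R × X)) • (show oneDim (chi1 a0 x0 π hx0 ha0 hc) from (1 : k)) =
      (show oneDim (chi1 a0 x0 π hx0 ha0 hc) from (1 : k)) := by
    rw [oneDim_smul, chi1_e0, one_mul]
  have h2 := congrArg φ h1
  rw [map_smul, oneDim_smul, chi2_e0, zero_mul] at h2
  have h3 : φ (show oneDim (chi1 a0 x0 π hx0 ha0 hc) from (1 : k)) = φ 0 := by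
    rw [map_zero]; exact h2.symm
  have h4 := φ.injective h3
  exact (one_ne_zero : (1 : k) ≠ 0) h4

theorem SS_inj (i j : Fin 2) (h : Nonempty (SS a0 x0 π πX hx0 hπX ha0 hc i
    ≃ₗ[Module.End R (R × X)] SS a0 x0 π πX hx0 hπX ha0 hc j)) : i = j := by
  fin_cases i <;> fin_cases j
  · rfl
  · exact (SS_ne a0 x0 π πX hx0 hπX ha0 hc h).elim
  · obtain ⟨φ⟩ := h
    exact (SS_ne a0 x0 π πX hx0 hπX ha0 hc ⟨φ.symm⟩).elim
  · rfl

include hπk hx0 hπX ha0 hc hF0 hF1 hFmul hFanti hFn in
theorem SS_complete (M : ModuleCat.{0} (Module.End R (R × X)))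
    (hM : IsSimpleModule (Module.End R (R × X)) M) :
    ∃ i, Nonempty (M ≃ₗ[Module.End R (R × X)] SS a0 x0 π πX hx0 hπX ha0 hc i) := by
  have hJ : ∀ j : Module.End R (R × X), chi1 a0 x0 π hx0 ha0 hc j = 0 →
      chi2 a0 x0 π πX hx0 hπX ha0 hc j = 0 → ∀ x : M, j • x = 0 := by
    intro j h1 h2 x
    by_contra hne
    obtain ⟨b, hb⟩ := ((isSimpleModule_iff_toSpanSingleton_surjective.mp hM).2 _ hne) x
    have hb' : (b * j) • x = x := by rw [mul_smul]; exact hb
    have h3 : (b * j) ^ (2 * n) = 0 := by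
      apply nil_of_chi a0 x0 π πX hx0 hπX ha0 hc F hF0 hF1 hFmul hFanti n hFn
      · have := map_mul (chi1 a0 x0 π hx0 ha0 hc) b j
        rw [h1, mul_zero] at this
        exact this
      · have := map_mul (chi2 a0 x0 π πX hx0 hπX ha0 hc) b j
        rw [h2, mul_zero] at this
        exact this
    have h4 : ∀ m : ℕ, ((b * j) ^ m) • x = x := by
      intro m
      induction m with
      | zero => rw [pow_zero, one_smul]
      | succ m ih => rw [pow_succ, mul_smul, hb', ih]
    have h5 := h4 (2 * n)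
    rw [h3, zero_smul] at h5
    apply hne
    rw [← h5, smul_zero]
  obtain ⟨hnt, _⟩ := isSimpleModule_iff_toSpanSingleton_surjective.mp hM
  obtain ⟨x, hx⟩ := exists_ne (0 : M)
  by_cases hex : (e0 : Module.End R (R × X)) • x = 0
  · refine ⟨1, iso_oneDim _ (chi2_algebraMap a0 x0 π hπk πX hx0 hπX ha0 hc) M hM x hx ?_⟩
    intro f
    have h1 : (f * (1 - e0) - algebraMap k _ (chi2 a0 x0 π πX hx0 hπX ha0 hc f) * (1 - e0)) • x
        = 0 := by
      apply hJ
      · rw [map_sub, map_mul, map_mul, map_sub, map_one, chi1_e0]; ring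
      · rw [map_sub, map_mul, map_mul, map_sub, map_one, chi2_e0,
          chi2_algebraMap a0 x0 π hπk πX hx0 hπX ha0 hc]; ring
    have h2 : (1 - e0 : Module.End R (R × X)) • x = x := by
      rw [sub_smul, one_smul, hex, sub_zero]
    rw [sub_smul, mul_smul, mul_smul, h2] at h1
    exact sub_eq_zero.mp h1
  · refine ⟨0, iso_oneDim _ (chi1_algebraMap a0 x0 π hπk hx0 ha0 hc) M hM (e0 • x) hex ?_⟩
    intro f
    have h1 : (f * e0 - algebraMap k _ (chi1 a0 x0 π hx0 ha0 hc f) * e0) • x = 0 := by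
      apply hJ
      · rw [map_sub, map_mul, map_mul, chi1_e0, chi1_algebraMap a0 x0 π hπk hx0 ha0 hc]; ring
      · rw [map_sub, map_mul, map_mul, chi2_e0]; ring
    rw [sub_smul, mul_smul, mul_smul] at h1
    exact sub_eq_zero.mp h1

end Two

end Pool.Agent.H546R3.Yam
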